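import Mathlib
import Pool.Agent.W163.CF.Defs2

/-! CF-TL: the tile lemma. -/

namespace Pool.Agent.W991.CFTL

open Finset
open Pool.Agent.W163.CF (ind ind_t ind_f ind_nn ind_le)

set_option autoImplicit false

theorem sum_Ico_int (f : ℤ → ℝ) (a : ℤ) (m : ℕ) :
    ∑ i ∈ Ico a (a + m), f i = ∑ i ∈ range m, f (a + (i : ℤ)) := by
  refine Finset.sum_nbij' (fun i => (i - a).toNat) (fun i => a + (i : ℤ)) ?_ ?_ ?_ ?_ ?_
  · intro i hi
    rw [Finset.mem_Ico] at hi
    rw [Finset.mem_range]; omega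
  · intro i hi
    rw [Finset.mem_range] at hi
    rw [Finset.mem_Ico]; omega
  · intro i hi
    rw [Finset.mem_Ico] at hi
    omega
  · intro i hi
    omega
  · intro i hi
    rw [Finset.mem_Ico] at hi
    congr 1; omega

theorem shift (f : ℤ → ℝ) (t : ℕ) (hf : ∀ i, f (i + t) = f i) (a : ℤ) :
    ∑ i ∈ range t, f (a + (i : ℤ)) = ∑ i ∈ range t, f (i : ℤ) := by
  have step : ∀ a : ℤ, ∑ i ∈ range t, f (a + 1 + (i : ℤ)) = ∑ i ∈ range t, f (a + (i : ℤ)) := by
    intro a
    have h1 := Finset.sum_range_succ (fun i : ℕ => f (a + (i : ℤ))) t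
    have h2 := Finset.sum_range_succ' (fun i : ℕ => f (a + (i : ℤ))) t
    have h3 : ∑ i ∈ range t, f (a + 1 + (i : ℤ)) = ∑ i ∈ range t, f (a + ((i + 1 : ℕ) : ℤ)) := by
      refine Finset.sum_congr rfl fun i _ => ?_
      congr 1; push_cast; ring
    rw [h3]
    have h4 : f (a + (t : ℤ)) = f (a + ((0 : ℕ) : ℤ)) := by rw [hf]; simp
    rw [h2] at h1
    rw [h4] at h1
    linarith
  induction a using Int.induction_on with
  | zero => simp
  | succ n ih => rw [step, ih]
  | pred n ih =>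
    have := step (-(n : ℤ) - 1)
    rw [← this, ← ih]
    refine Finset.sum_congr rfl fun i _ => ?_
    congr 1; ring

/-- the working hypotheses, `P`, `Q` inside the support -/
structure Ctx (t l : ℕ) (w : ℤ → ℝ) (P Q : ℤ → Prop) : Prop where
  ev : Even t
  l1 : 1 ≤ l
  lt : l < t
  wn : ∀ i, 0 ≤ w i
  wp : ∀ i, w (i + t) = w i
  Pp : ∀ i, P (i + t) ↔ P i
  Qp : ∀ i, Q (i + t) ↔ Q i
  tot : ∀ a : ℤ, ∑ i ∈ Ico a (a + t), w i = 1
  PS : ∀ i, P i → 0 < w i
  QS : ∀ i, Q i → 0 < w i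
  H1 : ∀ a b : ℤ, b = a + t - l - 1 → P a → Q b → 1 ≤ ∑ i ∈ Ico a (b + 1), w i
  H2 : ∀ a b a' b' : ℤ, a ≤ b → a' ≤ b' → (b - a + 1) + (b' - a' + 1) + 2 * l = t →
    P a → Q b → P a' → Q b' → 1 ≤ ∑ i ∈ Ico a (b + 1), w i + ∑ i ∈ Ico a' (b' + 1), w i

section
variable {t l : ℕ} {w : ℤ → ℝ} {P Q : ℤ → Prop}

theorem Pk (C : Ctx t l w P Q) (i k : ℤ) : P (i + k * t) ↔ P i := by
  induction k using Int.induction_on with
  | zero => simp
  | succ n ih => rw [← ih, ← C.Pp (i + n * t)]; ring_nf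
  | pred n ih => rw [← ih, ← C.Pp (i + (-(n : ℤ) - 1) * t)]; ring_nf

theorem Qk (C : Ctx t l w P Q) (i k : ℤ) : Q (i + k * t) ↔ Q i := by
  induction k using Int.induction_on with
  | zero => simp
  | succ n ih => rw [← ih, ← C.Qp (i + n * t)]; ring_nf
  | pred n ih => rw [← ih, ← C.Qp (i + (-(n : ℤ) - 1) * t)]; ring_nf

/-- two disjoint segments which miss a position of positive weight -/
theorem miss (C : Ctx t l w P Q) {z a b a' b' : ℤ} (hz : 0 < w z) (h1 : z < a) (h2 : b ≤ a')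
    (h3 : b' ≤ z + t) (h4 : a ≤ b) (h5 : a' ≤ b') :
    ∑ i ∈ Ico a b, w i + ∑ i ∈ Ico a' b', w i < 1 := by
  have e := C.tot z
  have hd : Disjoint (Ico a b) (Ico a' b') := by
    rw [Finset.disjoint_left]; intro i hi hi'
    rw [Finset.mem_Ico] at hi hi'; omega
  have hd2 : z ∉ Ico a b ∪ Ico a' b' := by
    simp only [Finset.mem_union, Finset.mem_Ico]; omega
  have hsub : insert z (Ico a b ∪ Ico a' b') ⊆ Ico z (z + t) := by
    intro i hi
    simp only [Finset.mem_insert, Finset.mem_union, Finset.mem_Ico] at hi ⊢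
    have := C.lt
    omega
  have := Finset.sum_le_sum_of_subset_of_nonneg (f := w) hsub (fun i _ _ => C.wn i)
  rw [Finset.sum_insert hd2, Finset.sum_union hd, e] at this
  linarith

/-- `P' x` -/
def PP (l : ℕ) (P : ℤ → Prop) (x : ℤ) : Prop := P (x + l + 1)
/-- both -/
def BB (l : ℕ) (P Q : ℤ → Prop) (x : ℤ) : Prop := PP l P x ∧ Q x
/-- none -/
def NN (l : ℕ) (P Q : ℤ → Prop) (x : ℤ) : Prop := ¬ PP l P x ∧ ¬ Q x

theorem PPk (C : Ctx t l w P Q) (i k : ℤ) : PP l P (i + k * t) ↔ PP l P i := by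
  unfold PP; rw [← Pk C (i + l + 1) k]; ring_nf

theorem BBk (C : Ctx t l w P Q) (i k : ℤ) : BB l P Q (i + k * t) ↔ BB l P Q i := by
  unfold BB; rw [PPk C, Qk C]

theorem NNk (C : Ctx t l w P Q) (i k : ℤ) : NN l P Q (i + k * t) ↔ NN l P Q i := by
  unfold NN; rw [PPk C, Qk C]

/-- (F1) zeros -/
theorem F1 (C : Ctx t l w P Q) {x : ℤ} (hx : BB l P Q x) {z : ℤ} (h1 : x < z) (h2 : z ≤ x + l) :
    w z = 0 := by
  by_contra hne
  have hz : 0 < w z := lt_of_le_of_ne (C.wn z) (Ne.symm hne)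
  have hl := C.lt
  have hQ : Q (x + t) := (C.Qp x).mpr hx.2
  have hH := C.H1 (x + l + 1) (x + t) (by ring) hx.1 hQ
  have := miss C (a := x + l + 1) (b := x + t + 1) (a' := x + t + 1) (b' := x + t + 1) hz
    (by omega) le_rfl (by omega) (by omega) le_rfl
  simp only [Finset.Ico_self, Finset.sum_empty, add_zero] at this
  linarith

theorem F1Q (C : Ctx t l w P Q) {x : ℤ} (hx : BB l P Q x) {z : ℤ} (h1 : x < z) (h2 : z ≤ x + l) :
    ¬ Q z := fun h => by
  have := C.QS z h
  rw [F1 C hx h1 h2] at this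
  exact lt_irrefl _ this

theorem F1P (C : Ctx t l w P Q) {x : ℤ} (hx : BB l P Q x) {z : ℤ} (h1 : x - l ≤ z) (h2 : z < x) :
    ¬ PP l P z := fun h => by
  have := C.PS _ h
  rw [F1 C hx (z := z + l + 1) (by omega) (by omega)] at this
  exact lt_irrefl _ this

theorem F2 (C : Ctx t l w P Q) {x p : ℤ} (hx : BB l P Q x) (h1 : PP l P (x + 1)) (hp : PP l P p)
    (hq : Q (p + 1)) (h2 : x + l + 1 ≤ p) (h3 : p ≤ x + t - l - 1) : False := by
  have hl := C.l1
  have hQ : Q (x + t) := (C.Qp x).mpr hx.2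
  have hH := C.H2 (x + 1 + l + 1) (p + 1) (p + l + 1) (x + t) (by omega) (by omega) (by ring)
    h1 hq hp hQ
  have := miss C (z := x + l + 1) (a := x + 1 + l + 1) (b := p + 1 + 1) (a' := p + l + 1)
    (b' := x + t + 1) (C.PS _ hx.1) (by omega) (by omega) (by omega) (by omega) (by omega)
  linarith

theorem F3 (C : Ctx t l w P Q) {x p : ℤ} (hx : BB l P Q x) (h1 : Q (x - 1)) (hp : PP l P p)
    (hq : Q (p + 1)) (h2 : x + l ≤ p) (h3 : p ≤ x + t - l - 2) : False := by
  have hl := C.l1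
  have hQ : Q (x - 1 + t) := (C.Qp _).mpr h1
  have hH := C.H2 (x + l + 1) (p + 1) (p + l + 1) (x - 1 + t) (by omega) (by omega) (by ring)
    hx.1 hq hp hQ
  have := miss C (z := x) (a := x + l + 1) (b := p + 1 + 1) (a' := p + l + 1)
    (b' := x - 1 + t + 1) (C.QS _ hx.2) (by omega) (by omega) (by omega) (by omega) (by omega)
  linarith

theorem F4 (C : Ctx t l w P Q) (hlt : 2 * l + 2 ≤ t) {x : ℤ} (hx : BB l P Q x)
    (h1 : PP l P (x + 1)) (h2 : Q (x - 1)) (p : ℤ) (hp : PP l P p) (hq : Q (p + 1)) : False := by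
  -- reduce `p` to the window
  have ht : (0 : ℤ) < t := by have := C.lt; omega
  obtain ⟨k, hk1, hk2⟩ : ∃ k : ℤ, x - l ≤ p + k * t ∧ p + k * t ≤ x + t - l - 1 := by
    refine ⟨- ((p - (x - l)) / t), ?_, ?_⟩
    · have := Int.ediv_mul_le (p - (x - l)) ht.ne'
      linarith
    · have := Int.lt_ediv_add_one_mul_self (p - (x - l)) ht
      have e : ((p - (x - ↑l)) / ↑t + 1) * (t : ℤ) = (p - (x - ↑l)) / ↑t * t + t := by ring
      rw [e] at this
      have : p + -((p - (x - ↑l)) / ↑t) * ↑t < x + t - l := by linarith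
      omega
  have hp' : PP l P (p + k * t) := (PPk C p k).mpr hp
  have hq' : Q (p + k * t + 1) := by
    have := (Qk C (p + 1) k).mpr hq
    have e : p + 1 + k * t = p + k * t + 1 := by ring
    rwa [e] at this
  generalize p + k * (t : ℤ) = r at hk1 hk2 hp' hq'
  rcases lt_or_ge r x with h | h
  · exact F1P C hx hk1 h hp'
  rcases lt_or_ge r (x + l) with h' | h'
  · exact F1Q C hx (z := r + 1) (by omega) (by omega) hq'
  rcases eq_or_lt_of_le h' with h'' | h''
  · exact F3 C hx h2 hp' hq' h' (by omega)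
  · exact F2 C hx h1 hp' hq' (by omega) hk2

theorem F5 : ∀ (n : ℕ) (x : ℤ), PP l P x → Q (x + n + 1) →
    (∀ z, x < z → z < x + n + 1 → ¬ NN l P Q z) →
    ∃ p, x ≤ p ∧ p < x + n + 1 ∧ PP l P p ∧ Q (p + 1) := by
  intro n
  induction n with
  | zero =>
    intro x h1 h2 _
    refine ⟨x, le_rfl, by simp, h1, by simpa using h2⟩
  | succ n ih =>
    intro x h1 h2 h3
    by_cases hq : Q (x + 1)
    · exact ⟨x, le_rfl, by push_cast; omega, h1, hq⟩
    · have h4 : PP l P (x + 1) := by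
        by_contra hc
        exact h3 (x + 1) (by omega) (by push_cast; omega) ⟨hc, hq⟩
      have e : x + 1 + n + 1 = x + ((n + 1 : ℕ) : ℤ) + 1 := by push_cast; ring
      obtain ⟨p, hp1, hp2, hp3⟩ := ih (x + 1) h4 (by rw [e]; exact h2) (by
        intro z hz1 hz2
        exact h3 z (by omega) (by rw [← e]; exact hz2))
      exact ⟨p, by omega, by rw [← e]; exact hp2, hp3⟩

open Classical in
/-- the counting hypothesis -/
def Cnt (t l : ℕ) (P Q : ℤ → Prop) : Prop := ∀ a : ℤ,
  ((Ico a (a + t)).filter (NN l P Q)).card < ((Ico a (a + t)).filter (BB l P Q)).card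

theorem F6 (C : Ctx t l w P Q) (K : Cnt t l P Q) :
    ∃ x x' : ℤ, x < x' ∧ x' ≤ x + t ∧ BB l P Q x ∧ BB l P Q x' ∧
      ∀ z, x < z → z < x' → ¬ NN l P Q z := by
  classical
  by_contra hno
  push Not at hno
  have h0 := K 0
  obtain ⟨x0, hx0⟩ : ∃ x0, BB l P Q x0 := by
    have : 0 < ((Ico (0 : ℤ) (0 + t)).filter (BB l P Q)).card := by omega
    obtain ⟨y, hy⟩ := Finset.card_pos.mp this
    exact ⟨y, (Finset.mem_filter.mp hy).2⟩
  have hx0t : BB l P Q (x0 + t) := by simpa using (BBk C x0 1).mpr hx0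
  have hex : ∀ y, x0 ≤ y → y < x0 + t → BB l P Q y →
      ∃ n, (NN l P Q n ∧ y < n ∧ n < x0 + t) ∧ ∀ z, NN l P Q z → y < z → n ≤ z := by
    intro y h1 h2 hy
    obtain ⟨n, hn1, hn2, hn3⟩ := hno y (x0 + t) h2 (by omega) hy hx0t
    obtain ⟨lb, hlb, hlb2⟩ := Int.exists_least_of_bdd (P := fun z => NN l P Q z ∧ y < z)
      ⟨y, fun z hz => hz.2.le⟩ ⟨n, hn3, hn1⟩
    exact ⟨lb, ⟨hlb.1, hlb.2, lt_of_le_of_lt (hlb2 n ⟨hn3, hn1⟩) hn2⟩, fun z hz hz2 => hlb2 z ⟨hz, hz2⟩⟩
  choose! f hf1 hf2 using hex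
  have hle : ((Ico x0 (x0 + t)).filter (BB l P Q)).card ≤
      ((Ico x0 (x0 + t)).filter (NN l P Q)).card := by
    apply Finset.card_le_card_of_injOn f
    · intro y hy
      rw [Finset.coe_filter, Set.mem_ofPred_eq, Finset.mem_Ico] at hy
      obtain ⟨⟨h1, h2⟩, h3⟩ := hy
      have := hf1 y h1 h2 h3
      rw [Finset.coe_filter, Set.mem_ofPred_eq, Finset.mem_Ico]
      exact ⟨⟨by omega, this.2.2⟩, this.1⟩
    · have hlt : ∀ y ∈ (Ico x0 (x0 + t)).filter (BB l P Q), ∀ y' ∈ (Ico x0 (x0 + t)).filter (BB l P Q),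
          y < y' → f y < f y' := by
        intro y hy y' hy' hyy
        rw [Finset.mem_filter, Finset.mem_Ico] at hy hy'
        obtain ⟨⟨h1, h2⟩, h3⟩ := hy
        obtain ⟨⟨h1', h2'⟩, h3'⟩ := hy'
        obtain ⟨n, hn1, hn2, hn3⟩ := hno y y' hyy (by omega) h3 h3'
        have a1 := hf2 y h1 h2 h3 n hn3 hn1
        have a2 := (hf1 y' h1' h2' h3').2.1
        omega
      intro y hy y' hy' heq
      by_contra hne
      rcases lt_or_gt_of_ne hne with h | h
      · have := hlt y hy y' hy' h; omega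
      · have := hlt y' hy' y hy h; omega
  have := K x0
  omega

/-- two positions of the window `[0,t)` which are congruent are equal -/
theorem mod_eq {y y' k : ℤ} (h1 : 0 ≤ y) (h2 : y < t) (h3 : 0 ≤ y') (h4 : y' < t)
    (h : y = y' + k * t) : y = y' := by
  have hk : k = 0 := by
    by_contra hk
    rcases lt_or_gt_of_ne hk with h' | h'
    · have : k * (t : ℤ) ≤ -1 * t := by
        apply mul_le_mul_of_nonneg_right (by omega) (by omega)
      linarith
    · have : 1 * (t : ℤ) ≤ k * t := by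
        apply mul_le_mul_of_nonneg_right (by omega) (by omega)
      linarith
  rw [h, hk]; ring

theorem F7 (C : Ctx t l w P Q) (K : Cnt t l P Q) (h2 : 2 ≤ l) :
    ∃ x, BB l P Q x ∧ ¬ NN l P Q (x + 1) ∧ ¬ NN l P Q (x - 1) := by
  classical
  by_contra hno
  push Not at hno
  have ht : (0 : ℤ) < t := by have := C.lt; omega
  have hex : ∀ y, BB l P Q y → ∃ n, NN l P Q n ∧ (n = y + 1 ∨ n = y - 1) := by
    intro y hy
    by_cases h : NN l P Q (y + 1)
    · exact ⟨_, h, Or.inl rfl⟩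
    · exact ⟨_, hno y hy h, Or.inr rfl⟩
  choose! f hf1 hf2 using hex
  have hle : ((Ico (0 : ℤ) (0 + t)).filter (BB l P Q)).card ≤
      ((Ico (0 : ℤ) (0 + t)).filter (NN l P Q)).card := by
    apply Finset.card_le_card_of_injOn (fun y => f y % t)
    · intro y hy
      rw [Finset.coe_filter, Set.mem_ofPred_eq, Finset.mem_Ico] at hy
      obtain ⟨⟨h1, h2⟩, h3⟩ := hy
      rw [Finset.coe_filter, Set.mem_ofPred_eq, Finset.mem_Ico]
      refine ⟨⟨Int.emod_nonneg _ ht.ne', ?_⟩, ?_⟩
      · simpa using Int.emod_lt_of_pos (f y) ht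
      · have := hf1 y h3
        have e : f y = f y % t + (f y / t) * t := by
          have := Int.emod_add_mul_ediv (f y) t
          linarith [mul_comm (f y / (t : ℤ)) (t : ℤ)]
        rw [e, NNk C] at this
        exact this
    · intro y hy y' hy' heq
      simp only at heq
      rw [Finset.mem_coe, Finset.mem_filter, Finset.mem_Ico] at hy hy'
      obtain ⟨⟨a1, a2⟩, a3⟩ := hy
      obtain ⟨⟨b1, b2⟩, b3⟩ := hy'
      have e1 : f y = f y % t + (f y / t) * t := by
        have := Int.emod_add_mul_ediv (f y) t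
        linarith [mul_comm (f y / (t : ℤ)) (t : ℤ)]
      have e2 : f y' = f y' % t + (f y' / t) * t := by
        have := Int.emod_add_mul_ediv (f y') t
        linarith [mul_comm (f y' / (t : ℤ)) (t : ℤ)]
      have e3 : f y = f y' + (f y / t - f y' / t) * t := by
        rw [sub_mul]; linarith
      generalize f y / (t : ℤ) - f y' / t = k at e3
      rcases hf2 y a3 with c1 | c1 <;> rcases hf2 y' b3 with c2 | c2
      · exact mod_eq (k := k) a1 (by linarith) b1 (by linarith) (by linarith)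
      · -- y + 1 = y' - 1 + k t
        exfalso
        have h5 : y' = y + 2 + (-k) * t := by linarith
        have h6 : ¬ Q (y + 2) := F1Q C a3 (by omega) (by omega)
        apply h6
        rw [← Qk C (y + 2) (-k), ← h5]; exact b3.2
      · exfalso
        have h5 : y = y' + 2 + k * t := by linarith
        have h6 : ¬ Q (y' + 2) := F1Q C b3 (by omega) (by omega)
        apply h6
        rw [← Qk C (y' + 2) k, ← h5]; exact a3.2
      · exact mod_eq (k := k) a1 (by linarith) b1 (by linarith) (by linarith)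
  have := K 0
  omega

theorem case2 (C : Ctx t l w P Q) (K : Cnt t l P Q) (hlt : 2 * l + 2 ≤ t) (h2 : 2 ≤ l) : False := by
  obtain ⟨x0, hx0, hn1, hn2⟩ := F7 C K h2
  have h1 : PP l P (x0 + 1) := by
    by_contra h
    exact hn1 ⟨h, F1Q C hx0 (by omega) (by omega)⟩
  have h3 : Q (x0 - 1) := by
    by_contra h
    exact hn2 ⟨F1P C hx0 (by omega) (by omega), h⟩
  obtain ⟨x, x', hxx, hxt, hB, hB', hN⟩ := F6 C K
  obtain ⟨n, hn⟩ : ∃ n : ℕ, x' = x + n + 1 := ⟨(x' - x - 1).toNat, by omega⟩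
  obtain ⟨p, _, _, hp3, hp4⟩ := F5 (l := l) (P := P) (Q := Q) n x hB.1 (by rw [← hn]; exact hB'.2)
    (by intro z hz1 hz2; exact hN z hz1 (by rw [hn]; exact hz2))
  exact F4 C hlt hx0 h1 h3 p hp3 hp4

theorem case1 (C : Ctx t 1 w P Q) (K : Cnt t 1 P Q) (ht4 : 4 ≤ t) : False := by
  classical
  obtain ⟨x, x', hxx, hxt, hB, hB', hN⟩ := F6 C K
  obtain ⟨n, hn⟩ : ∃ n : ℕ, x' = x + n + 1 := ⟨(x' - x - 1).toNat, by omega⟩
  obtain ⟨p, hp1, hp2, hp3, hp4⟩ := F5 (l := 1) (P := P) (Q := Q) n x hB.1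
    (by rw [← hn]; exact hB'.2)
    (by intro z hz1 hz2; exact hN z hz1 (by rw [hn]; exact hz2))
  rw [← hn] at hp2
  have q1 : ¬ Q (x + 1) := F1Q C hB (by omega) (by omega)
  have q2 : ¬ PP 1 P (x' - 1) := F1P C hB' (by omega) (by omega)
  have hx2 : x' ≠ x + 1 := by rintro rfl; exact q1 hB'.2
  have r1 : PP 1 P (x + 1) := by
    by_contra h
    exact hN (x + 1) (by omega) (by omega) ⟨h, q1⟩
  have r2 : Q (x' - 1) := by
    by_contra h
    exact hN (x' - 1) (by omega) (by omega) ⟨q2, h⟩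
  have hpx : p ≠ x := by rintro rfl; exact q1 hp4
  have hpx' : p ≠ x' - 1 := by rintro rfl; exact q2 hp3
  have hp5 : p = x + 1 := by
    by_contra hne
    exact F2 C hB r1 hp3 hp4 (by push_cast; omega) (by push_cast; omega)
  have hBt : BB 1 P Q (x' - t) := by
    have := (BBk C x' (-1)).mpr hB'
    have e : x' + -1 * (t : ℤ) = x' - t := by ring
    rwa [e] at this
  have hQt : Q (x' - t - 1) := by
    have := (Qk C (x' - 1) (-1)).mpr r2
    have e : x' - 1 + -1 * (t : ℤ) = x' - t - 1 := by ring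
    rwa [e] at this
  have hp6 : p = x' - 2 := by
    by_contra hne
    exact F3 C hBt hQt hp3 hp4 (by push_cast; omega) (by push_cast; omega)
  have hx3 : x' = x + 3 := by omega
  subst hx3
  -- `P (x+3)`, `Q (x+2)`
  have s1 : P (x + 3) := by
    have : P (x + 1 + ((1 : ℕ) : ℤ) + 1) := r1
    have e : x + 1 + ((1 : ℕ) : ℤ) + 1 = x + 3 := by push_cast; ring
    rwa [e] at this
  have s2 : Q (x + 2) := by
    have e : x + 3 - 1 = x + 2 := by ring
    rwa [e] at r2
  have hPP : ∀ y, PP 1 P y → P (y + 2) := by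
    intro y hy
    have : P (y + ((1 : ℕ) : ℤ) + 1) := hy
    have e : y + ((1 : ℕ) : ℤ) + 1 = y + 2 := by push_cast; ring
    rwa [e] at this
  have F9 : ∀ y, BB 1 P Q y → x + 3 ≤ y → y ≤ x + t - 1 → NN 1 P Q (y + 1) := by
    intro y hy h1 h2
    refine ⟨fun h => ?_, F1Q C hy (by omega) (by omega)⟩
    have hP3 : P (y + 3 - t) := by
      have := hPP _ h
      have h4 := (Pk C (y + 1 + 2) (-1)).mpr this
      have e : y + 1 + 2 + -1 * (t : ℤ) = y + 3 - t := by ring
      rwa [e] at h4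
    have hw : 0 < w (y + 2 - t) := by
      have := hPP _ hy.1
      have h4 := (Pk C (y + 2) (-1)).mpr this
      have e : y + 2 + -1 * (t : ℤ) = y + 2 - t := by ring
      rw [e] at h4
      exact C.PS _ h4
    have hH := C.H2 (y + 3 - t) (x + 2) (x + 3) y (by omega) (by omega) (by push_cast; ring)
      hP3 s2 s1 hy.2
    have := miss C (z := y + 2 - t) (a := y + 3 - t) (b := x + 2 + 1) (a' := x + 3)
      (b' := y + 1) hw (by omega) (by omega) (by omega) (by omega) (by omega)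
    linarith
  have F10 : ∀ y, BB 1 P Q y → x + 4 ≤ y → y ≤ x + t → NN 1 P Q (y - 1) := by
    intro y hy h1 h2
    refine ⟨F1P C hy (by omega) (by omega), fun h => ?_⟩
    have hP3 : P (y + 2 - t) := by
      have := hPP _ hy.1
      have h4 := (Pk C (y + 2) (-1)).mpr this
      have e : y + 2 + -1 * (t : ℤ) = y + 2 - t := by ring
      rwa [e] at h4
    have hw : 0 < w (y - t) := by
      have h4 := (Qk C y (-1)).mpr hy.2
      have e : y + -1 * (t : ℤ) = y - t := by ring
      rw [e] at h4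
      exact C.QS _ h4
    have hH := C.H2 (y + 2 - t) (x + 2) (x + 3) (y - 1) (by omega) (by omega) (by push_cast; ring)
      hP3 s2 s1 h
    have := miss C (z := y - t) (a := y + 2 - t) (b := x + 2 + 1) (a' := x + 3)
      (b' := y - 1 + 1) hw (by omega) (by omega) (by omega) (by omega) (by omega)
    linarith
  -- (F11)
  have hBxt : BB 1 P Q (x + t) := by simpa using (BBk C x 1).mpr hB
  have hNxt : ¬ NN 1 P Q (x + t) := fun h => h.2 hBxt.2
  have hge : ∀ y, BB 1 P Q y → x < y → x + 3 ≤ y := by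
    intro y hy h1
    by_contra h
    have : y = x + 1 ∨ y = x + 2 := by omega
    rcases this with rfl | rfl
    · exact q1 hy.2
    · apply q2
      have e : x + 3 - 1 = x + 2 := by ring
      rw [e]; exact hy.1
  have hcard := K (x + 1)
  set SB := (Ico (x + 1) (x + t)).filter (BB 1 P Q) with hSB
  set SN := (Ico (x + 1) (x + t)).filter (NN 1 P Q) with hSN
  have e0 : Ico (x + 1) (x + 1 + t) = insert (x + t) (Ico (x + 1) (x + t)) := by
    ext i; simp only [Finset.mem_insert, Finset.mem_Ico]; omega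
  have e1 : ((Ico (x + 1) (x + 1 + t)).filter (BB 1 P Q)).card = SB.card + 1 := by
    rw [e0, Finset.filter_insert, if_pos hBxt, Finset.card_insert_of_notMem]
    simp
  have e2 : ((Ico (x + 1) (x + 1 + t)).filter (NN 1 P Q)).card = SN.card := by
    rw [e0, Finset.filter_insert, if_neg hNxt]
  rw [e1, e2] at hcard
  have himg : SB.image (fun y => y + 1) ⊆ SN := by
    intro z hz
    obtain ⟨y, hy, rfl⟩ := Finset.mem_image.mp hz
    rw [hSB, Finset.mem_filter, Finset.mem_Ico] at hy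
    have hN9 := F9 y hy.2 (hge y hy.2 (by omega)) (by omega)
    rw [hSN, Finset.mem_filter, Finset.mem_Ico]
    refine ⟨⟨by omega, ?_⟩, hN9⟩
    by_contra h
    have : y + 1 = x + t := by omega
    rw [this] at hN9
    exact hNxt hN9
  have hinj : (SB.image (fun y => y + 1)).card = SB.card :=
    Finset.card_image_of_injective _ (fun a b h => by simpa using h)
  have heq : SB.image (fun y => y + 1) = SN := Finset.eq_of_subset_of_card_le himg (by omega)
  have honto : ∀ z, NN 1 P Q z → x < z → z < x + t → BB 1 P Q (z - 1) ∧ x + 3 ≤ z - 1 := by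
    intro z hz h1 h2
    have : z ∈ SN := by
      rw [hSN, Finset.mem_filter, Finset.mem_Ico]; exact ⟨⟨by omega, h2⟩, hz⟩
    rw [← heq] at this
    obtain ⟨y, hy, hyz⟩ := Finset.mem_image.mp this
    rw [hSB, Finset.mem_filter, Finset.mem_Ico] at hy
    have e : z - 1 = y := by omega
    rw [e]
    exact ⟨hy.2, hge y hy.2 (by omega)⟩
  have hodd : ∀ n : ℕ, ∀ y, y = x + 3 + n → BB 1 P Q y → y < x + t → Odd (y - x) := by
    intro n
    induction n using Nat.strong_induction_on with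
    | _ n ih =>
      intro y hy hBy hlt
      rcases Nat.eq_zero_or_pos n with rfl | hn0
      · subst hy
        refine ⟨1, by push_cast; ring⟩
      · have h10 := F10 y hBy (by omega) (by omega)
        obtain ⟨g1, g2⟩ := honto (y - 1) h10 (by omega) (by omega)
        have := ih (n - 2) (by omega) (y - 1 - 1) (by omega) g1 (by omega)
        obtain ⟨m, hm⟩ := this
        exact ⟨m + 1, by omega⟩
  have hlast := F10 (x + t) hBxt (by omega) le_rfl
  obtain ⟨g1, g2⟩ := honto (x + t - 1) hlast (by omega) (by omega)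
  have := hodd (t - 5) (x + t - 1 - 1) (by omega) g1 (by omega)
  obtain ⟨m, hm⟩ := this
  obtain ⟨m', hm'⟩ := C.ev
  omega

end

theorem ind_add (p q : Prop) : ind p + ind q = 1 + ind (p ∧ q) - ind (¬ p ∧ ¬ q) := by
  by_cases hp : p <;> by_cases hq : q
  · rw [ind_t hp, ind_t hq, ind_t ⟨hp, hq⟩, ind_f (by tauto)]; norm_num
  · rw [ind_t hp, ind_f hq, ind_f (by tauto), ind_f (by tauto)]; norm_num
  · rw [ind_f hp, ind_t hq, ind_f (by tauto), ind_f (by tauto)]; norm_num
  · rw [ind_f hp, ind_f hq, ind_f (by tauto), ind_t ⟨hp, hq⟩]; norm_num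

open Classical in
theorem sum_ind (s : Finset ℤ) (F : ℤ → Prop) : ∑ i ∈ s, ind (F i) = ((s.filter F).card : ℝ) := by
  unfold ind
  rw [Finset.sum_ite, Finset.sum_const_zero, add_zero, Finset.sum_const, nsmul_eq_mul, mul_one]

theorem ind_and (p q : Prop) : ind (p ∧ q) = ind p * ind q := by
  by_cases hp : p <;> by_cases hq : q
  · rw [ind_t hp, ind_t hq, ind_t ⟨hp, hq⟩]; norm_num
  · rw [ind_t hp, ind_f hq, ind_f (by tauto)]; norm_num
  · rw [ind_f hp, ind_t hq, ind_f (by tauto)]; norm_num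
  · rw [ind_f hp, ind_f hq, ind_f (by tauto)]; norm_num

theorem ind_congr {p q : Prop} (h : p ↔ q) : ind p = ind q := by rw [propext h]

theorem t_TL : Pool.Agent.W163.CF.TL := by
  classical
  intro t l w P0 Q0 hev hl1 hlt wn wp hPp hQp hsum hH1 hH2
  by_contra hcon
  rw [not_le] at hcon
  set P : ℤ → Prop := fun i => w i ≠ 0 ∧ P0 i with hP
  set Q : ℤ → Prop := fun i => w i ≠ 0 ∧ Q0 i with hQ
  have C : Ctx t l w P Q :=
    { ev := hev
      l1 := hl1
      lt := hlt
      wn := wn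
      wp := wp
      Pp := fun i => by simp only [hP, wp, hPp]
      Qp := fun i => by simp only [hQ, wp, hQp]
      tot := fun a => by rw [sum_Ico_int, shift w t wp a, hsum]
      PS := fun i hi => lt_of_le_of_ne (wn i) (Ne.symm hi.1)
      QS := fun i hi => lt_of_le_of_ne (wn i) (Ne.symm hi.1)
      H1 := by
        intro a b hb ha hb'
        have h1 := hH1 a ha.2 (by rw [← hb]; exact hb'.2)
        rw [← sum_Ico_int] at h1
        have e : a + ((t - l : ℕ) : ℤ) = b + 1 := by omega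
        rwa [e] at h1
      H2 := by
        intro a b a' b' hab hab' hs ha hb ha' hb'
        have h1 := hH2 a a' (b - a + 1).toNat (b' - a' + 1).toNat (by omega) (by omega) (by omega)
          ha.2 (by
            have e : a + ((b - a + 1).toNat : ℤ) - 1 = b := by omega
            rw [e]; exact hb.2) ha'.2 (by
            have e : a' + ((b' - a' + 1).toNat : ℤ) - 1 = b' := by omega
            rw [e]; exact hb'.2)
        rw [← sum_Ico_int, ← sum_Ico_int] at h1
        have e : a + ((b - a + 1).toNat : ℤ) = b + 1 := by omega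
        have e' : a' + ((b' - a' + 1).toNat : ℤ) = b' + 1 := by omega
        rwa [e, e'] at h1 }
  have hcon2 : (t : ℝ) < ∑ i ∈ range t, ind (P (i : ℤ)) + ∑ i ∈ range t, ind (Q (i : ℤ)) := by
    refine lt_of_lt_of_eq hcon ?_
    rw [← Finset.sum_add_distrib]
    refine Finset.sum_congr rfl fun i _ => ?_
    rw [hP, hQ]; simp only; rw [ind_and, ind_and]; ring
  have K : Cnt t l P Q := by
    intro a
    have h1 : ∑ i ∈ Ico a (a + t), ind (PP l P i) = ∑ i ∈ range t, ind (P (i : ℤ)) := by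
      rw [sum_Ico_int]
      rw [← shift (fun i => ind (P i)) t (fun i => ind_congr (C.Pp i)) (a + l + 1)]
      refine Finset.sum_congr rfl fun i _ => ?_
      unfold PP
      congr 2; ring
    have h2 : ∑ i ∈ Ico a (a + t), ind (Q i) = ∑ i ∈ range t, ind (Q (i : ℤ)) := by
      rw [sum_Ico_int]
      exact shift (fun i => ind (Q i)) t (fun i => ind_congr (C.Qp i)) a
    have h3 : ∑ i ∈ Ico a (a + t), (ind (PP l P i) + ind (Q i)) =
        t + ∑ i ∈ Ico a (a + t), ind (BB l P Q i) - ∑ i ∈ Ico a (a + t), ind (NN l P Q i) := by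
      have : ∀ i, ind (PP l P i) + ind (Q i) = 1 + ind (BB l P Q i) - ind (NN l P Q i) :=
        fun i => ind_add _ _
      simp only [this]
      rw [Finset.sum_sub_distrib, Finset.sum_add_distrib]
      simp
    rw [Finset.sum_add_distrib, h1, h2, sum_ind, sum_ind] at h3
    have h4 : ((((Ico a (a + t)).filter (NN l P Q)).card : ℕ) : ℝ) <
        ((((Ico a (a + t)).filter (BB l P Q)).card : ℕ) : ℝ) := by linarith
    exact_mod_cast h4
  -- `2 l + 2 ≤ t`
  have h22 : 2 * l + 2 ≤ t := by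
    by_contra hno
    have h2l : t ≤ 2 * l := by
      obtain ⟨m, hm⟩ := hev
      omega
    obtain ⟨x, hx⟩ : ∃ x, BB l P Q x := by
      have : 0 < ((Ico (0 : ℤ) (0 + t)).filter (BB l P Q)).card := lt_of_le_of_lt (Nat.zero_le _) (K 0)
      obtain ⟨y, hy⟩ := Finset.card_pos.mp this
      exact ⟨y, (Finset.mem_filter.mp hy).2⟩
    have hz : ∀ i ∈ Ico (x + 1) (x + 1 + l), w i = 0 := by
      intro i hi
      rw [Finset.mem_Ico] at hi
      exact F1 C hx (by omega) (by omega)
    have key : ∀ F : ℤ → Prop, (∀ i, F (i + t) ↔ F i) → (∀ i, F i → w i ≠ 0) →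
        ∑ i ∈ range t, ind (F (i : ℤ)) ≤ (t : ℝ) - l := by
      intro F hFp hF
      have g1 := shift (fun i => ind (F i)) t (fun i => ind_congr (hFp i)) (x + 1)
      have g2 := sum_Ico_int (fun i => ind (F i)) (x + 1) t
      rw [← g1, ← g2, sum_ind]
      have hsub : (Ico (x + 1) (x + 1 + t)).filter F ⊆ Ico (x + 1 + l) (x + 1 + t) := by
        intro i hi
        rw [Finset.mem_filter, Finset.mem_Ico] at hi
        rw [Finset.mem_Ico]
        refine ⟨?_, hi.1.2⟩
        by_contra h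
        exact hF i hi.2 (hz i (by rw [Finset.mem_Ico]; omega))
      have := Finset.card_le_card hsub
      rw [Int.card_Ico] at this
      have h5 : (x + 1 + (t : ℤ) - (x + 1 + l)).toNat = t - l := by omega
      rw [h5] at this
      have h6 : (((Ico (x + 1) (x + 1 + t)).filter F).card : ℝ) ≤ ((t - l : ℕ) : ℝ) := by
        exact_mod_cast this
      rw [Nat.cast_sub hlt.le] at h6
      exact h6
    have a1 := key P C.Pp (fun i hi => hi.1)
    have a2 := key Q C.Qp (fun i hi => hi.1)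
    have a3 : (t : ℝ) ≤ 2 * l := by exact_mod_cast h2l
    linarith
  rcases Nat.lt_or_ge l 2 with h | h
  · have : l = 1 := by omega
    subst this
    exact case1 C K (by omega)
  · exact case2 C K h22 h

end Pool.Agent.W991.CFTL
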