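import Mathlib
import Pool.Agent.W526.LL.Stm

/-! LL-SA: strong approximation for `𝔽₂(T)`. -/

namespace Pool.Agent.W991.LLSA

open Pool.Agent.W526.LL
open IsDedekindDomain WithZero Polynomial Topology

theorem v_poly (v : HeightOneSpectrum (ZMod 2)[X]) (P : (ZMod 2)[X]) :
    Valued.v (cmap (some v) (ofPoly P)) = v.intValuation P := by
  rw [v_fin]; exact HeightOneSpectrum.valuation_of_algebraMap v P

theorem v_poly_le (v : HeightOneSpectrum (ZMod 2)[X]) (P : (ZMod 2)[X]) :
    Valued.v (cmap (some v) (ofPoly P)) ≤ 1 := by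
  rw [v_poly]; exact v.intValuation_le_one P

theorem exists_gen (v : HeightOneSpectrum (ZMod 2)[X]) :
    ∃ P : (ZMod 2)[X], v.asIdeal = Ideal.span {P} ∧ P ≠ 0 ∧ Prime P := by
  obtain ⟨P, hP⟩ := (IsPrincipalIdealRing.principal v.asIdeal).principal
  have hP' : v.asIdeal = Ideal.span {P} := hP
  have h0 : P ≠ 0 := by
    rintro rfl
    apply v.ne_bot
    rw [hP']; simp
  refine ⟨P, hP', h0, ?_⟩
  rw [← Ideal.span_singleton_prime h0, ← hP']
  exact v.isPrime

theorem v_eq_one {w : HeightOneSpectrum (ZMod 2)[X]} {P : (ZMod 2)[X]} (h : P ∉ w.asIdeal) :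
    Valued.v (cmap (some w) (ofPoly P)) = 1 := by
  rw [v_poly]; exact HeightOneSpectrum.intValuation_eq_one_iff.mpr h

theorem notMem_of_ne {v w : HeightOneSpectrum (ZMod 2)[X]} {P : (ZMod 2)[X]}
    (hP : v.asIdeal = Ideal.span {P}) (hw : w ≠ v) : P ∉ w.asIdeal := by
  intro h
  apply hw
  have hle : v.asIdeal ≤ w.asIdeal := by
    rw [hP, Ideal.span_singleton_le_iff_mem]; exact h
  have := v.isMaximal.eq_of_le w.isPrime.ne_top hle
  exact HeightOneSpectrum.ext this.symm

theorem ofPoly_ne {P : (ZMod 2)[X]} (h : P ≠ 0) : ofPoly P ≠ 0 := by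
  intro hh
  exact h ((RatFunc.algebraMap_injective (ZMod 2)) (by rw [map_zero]; exact hh))

theorem part1 (v : HeightOneSpectrum (ZMod 2)[X]) (y : Kv (some v)) (N : ℤ) (d : (ZMod 2)[X])
    (hd : d ≠ 0) :
    ∃ x : KK, Valued.v (cmap (some v) x - y) ≤ exp (-N) ∧
      ∀ w, w ≠ v → Valued.v (cmap (some w) x) ≤ Valued.v (cmap (some w) (ofPoly d)) := by
  obtain ⟨P, hP, hP0, hPp⟩ := exists_gen v
  obtain ⟨a, ha⟩ := approx (some v) y (-N)
  have hden : a.denom ≠ 0 := RatFunc.denom_ne_zero a
  obtain ⟨m, B, hB, hmB⟩ := (FiniteMultiplicity.of_not_isUnit hPp.not_isUnit hden).exists_eq_pow_mul_and_not_dvd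
    |> fun h => (⟨_, h.choose, h.choose_spec.2, h.choose_spec.1⟩ :
      ∃ (m : ℕ) (B : (ZMod 2)[X]), ¬ P ∣ B ∧ a.denom = P ^ m * B)
  obtain ⟨j, d', hd', hjd⟩ := (FiniteMultiplicity.of_not_isUnit hPp.not_isUnit hd).exists_eq_pow_mul_and_not_dvd
    |> fun h => (⟨_, h.choose, h.choose_spec.2, h.choose_spec.1⟩ :
      ∃ (j : ℕ) (d' : (ZMod 2)[X]), ¬ P ∣ d' ∧ d = P ^ j * d')
  set M : ℕ := (N + m).toNat with hM
  have hcop : IsCoprime (P ^ M) (B * d') := by
    apply IsCoprime.pow_left
    rw [(hPp.irreducible).coprime_iff_not_dvd]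
    intro h
    rcases hPp.dvd_or_dvd h with h | h
    · exact hB h
    · exact hd' h
  obtain ⟨u, w', huw⟩ := hcop
  have hB0 : B ≠ 0 := by rintro rfl; exact hB (dvd_zero _)
  have hvP : Valued.v (cmap (some v) (ofPoly P)) = exp (-1 : ℤ) := by
    rw [v_poly]; exact v.intValuation_singleton hP0 hP
  have hvB : Valued.v (cmap (some v) (ofPoly B)) = 1 := by
    apply v_eq_one
    rw [hP, Ideal.mem_span_singleton]; exact hB
  obtain ⟨A, ea⟩ : ∃ A : (ZMod 2)[X], a = ofPoly A / (ofPoly P ^ m * ofPoly B) := by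
    refine ⟨a.num, ?_⟩
    conv_lhs => rw [← RatFunc.num_div_denom a, hmB]
    simp only [ofPoly, map_mul, map_pow]
  refine ⟨ofPoly (A * w' * d') / ofPoly P ^ m, ?_, ?_⟩
  · have h1 : ofPoly (A * w' * d') / ofPoly P ^ m - a =
        - (ofPoly (A * u) * ofPoly P ^ M / (ofPoly P ^ m * ofPoly B)) := by
      have h2 : ofPoly (u * P ^ M + w' * (B * d')) = 1 := by rw [huw]; exact map_one _
      have h3 : ofPoly u * ofPoly P ^ M + ofPoly w' * (ofPoly B * ofPoly d') = 1 := by
        rw [← h2]; simp only [ofPoly, map_mul, map_pow, map_add]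
      have hPn := ofPoly_ne hP0
      have hBn := ofPoly_ne hB0
      conv_lhs => rw [ea]
      have e1 : ofPoly (A * w' * d') = ofPoly A * ofPoly w' * ofPoly d' := by
        simp only [ofPoly, map_mul]
      have e2 : ofPoly (A * u) = ofPoly A * ofPoly u := by
        simp only [ofPoly, map_mul]
      rw [e1, e2]
      rw [div_sub_div _ _ (pow_ne_zero _ hPn) (mul_ne_zero (pow_ne_zero _ hPn) hBn), ← neg_div,
        div_eq_div_iff (mul_ne_zero (pow_ne_zero _ hPn) (mul_ne_zero (pow_ne_zero _ hPn) hBn))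
          (mul_ne_zero (pow_ne_zero _ hPn) hBn)]
      linear_combination (ofPoly A * (ofPoly P ^ m) * (ofPoly P ^ m * ofPoly B)) * h3
    have h4 : Valued.v (cmap (some v) (ofPoly (A * w' * d') / ofPoly P ^ m - a)) ≤ exp (-N) := by
      rw [h1, map_neg, Valuation.map_neg, map_div₀, map_div₀, map_mul, map_mul, map_mul, map_mul,
        map_pow, map_pow, map_pow, map_pow, hvP, hvB, mul_one]
      rw [div_le_iff₀ (by
        rw [← exp_nsmul]; exact exp_pos)]
      calc Valued.v (cmap (some v) (ofPoly (A * u))) * exp (-1 : ℤ) ^ M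
          ≤ 1 * exp (-1 : ℤ) ^ M := by
            gcongr; exact v_poly_le _ _
        _ = exp (-(M : ℤ)) := by rw [one_mul, ← exp_nsmul]; simp
        _ ≤ exp (-N - m) := by
            rw [exp_le_exp]
            have := Int.self_le_toNat (N + m)
            omega
        _ = exp (-N) * exp (-1 : ℤ) ^ m := by
            rw [← exp_nsmul, ← exp_add]; simp [sub_eq_add_neg]
    have e : cmap (some v) (ofPoly (A * w' * d') / ofPoly P ^ m) - y =
        cmap (some v) (ofPoly (A * w' * d') / ofPoly P ^ m - a) - (y - cmap (some v) a) := by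
      rw [map_sub]; ring
    rw [e]
    exact (Valuation.map_sub _ _ _).trans (max_le h4 ha.le)
  · intro w hw
    have hwP : Valued.v (cmap (some w) (ofPoly P)) = 1 := v_eq_one (notMem_of_ne hP hw)
    have e1 : ofPoly (A * w' * d') = ofPoly (A * w') * ofPoly d' := by
      simp only [ofPoly, map_mul]
    have e2 : ofPoly d = ofPoly P ^ j * ofPoly d' := by
      conv_lhs => rw [hjd]
      simp only [ofPoly, map_mul, map_pow]
    rw [map_div₀, map_div₀, map_pow, map_pow, hwP, one_pow, div_one, e1, e2, map_mul, map_mul,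
      map_mul, map_mul, map_pow, map_pow, hwP, one_pow, one_mul]
    calc _ ≤ 1 * Valued.v (cmap (some w) (ofPoly d')) := by
          gcongr; exact v_poly_le _ _
      _ = _ := one_mul _

theorem part2 (y : Kv none) (d : (ZMod 2)[X]) (hd : d ≠ 0) :
    ∃ x : KK, (∀ w, Valued.v (cmap (some w) x) ≤ Valued.v (cmap (some w) (ofPoly d))) ∧
      Valued.v (cmap none x - y) < Valued.v (cmap none (ofPoly d)) := by
  obtain ⟨a, ha⟩ := approx none (y / cmap none (ofPoly d)) 0
  rw [exp_zero] at ha
  have hd0 : cmap none (ofPoly d) ≠ 0 := by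
    rw [Ne, map_eq_zero]; exact ofPoly_ne hd
  have hden : a.denom ≠ 0 := RatFunc.denom_ne_zero a
  set Q := a.num / a.denom with hQ
  set R := a.num % a.denom with hR
  have hdm : a.denom * Q + R = a.num := EuclideanDomain.div_add_mod _ _
  have hdeg : R.degree < a.denom.degree := EuclideanDomain.mod_lt _ hden
  have ea : a = ofPoly Q + ofPoly R / ofPoly a.denom := by
    have h1 : a = ofPoly a.num / ofPoly a.denom := (RatFunc.num_div_denom a).symm
    have h2 : ofPoly a.num = ofPoly a.denom * ofPoly Q + ofPoly R := by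
      rw [← hdm]; simp only [ofPoly, map_mul, map_add]
    have h3 := ofPoly_ne hden
    calc a = ofPoly a.num / ofPoly a.denom := h1
      _ = _ := by rw [h2]; field_simp
  have hRv : Valued.v (cmap none (ofPoly R / ofPoly a.denom)) < 1 := by
    rw [v_inf]
    rcases eq_or_ne R 0 with h0 | h0
    · rw [h0]; simp only [ofPoly, map_zero, zero_div]
      rw [RatFunc.InftyValuation.map_zero']; exact zero_lt_one
    · rw [RatFunc.inftyValuation_of_nonzero _ (div_ne_zero (ofPoly_ne h0) (ofPoly_ne hden)),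
        RatFunc.intDegree_div (ofPoly_ne h0) (ofPoly_ne hden)]
      simp only [ofPoly, RatFunc.intDegree_polynomial]
      rw [← exp_zero, exp_lt_exp]
      rw [Polynomial.degree_eq_natDegree h0, Polynomial.degree_eq_natDegree hden,
        Nat.cast_lt] at hdeg
      omega
  refine ⟨ofPoly d * ofPoly Q, ?_, ?_⟩
  · intro w
    rw [map_mul, map_mul]
    calc _ ≤ Valued.v (cmap (some w) (ofPoly d)) * 1 := by
          gcongr; exact v_poly_le _ _
      _ = _ := mul_one _
  · have e : cmap none (ofPoly d * ofPoly Q) - y =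
        cmap none (ofPoly d) * (-(cmap none (ofPoly R / ofPoly a.denom)) -
          (y / cmap none (ofPoly d) - cmap none a)) := by
      have h1 : cmap none a = cmap none (ofPoly Q) + cmap none (ofPoly R / ofPoly a.denom) := by
        rw [← map_add]; exact congrArg _ ea
      rw [h1, map_mul]
      field_simp
      ring
    rw [e, map_mul]
    have h1 : Valued.v (-(cmap none (ofPoly R / ofPoly a.denom)) -
          (y / cmap none (ofPoly d) - cmap none a)) < 1 := by
      refine (Valuation.map_sub _ _ _).trans_lt (max_lt ?_ ha)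
      rw [Valuation.map_neg]; exact hRv
    calc _ < Valued.v (cmap none (ofPoly d)) * 1 := by
          have hpos : 0 < Valued.v (cmap none (ofPoly d)) := by
            rw [zero_lt_iff, Ne, map_eq_zero]; exact hd0
          exact (mul_lt_mul_iff_right₀ hpos).mpr h1
      _ = _ := mul_one _

theorem main (_hpol : S_pol) : S_sa := ⟨part1, part2⟩

end Pool.Agent.W991.LLSA
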