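import Mathlib
import Pool.Agent.W796.PH.Defs2

/-! PH-FINAL: linear decay for the flux from the three local estimates. -/

set_option autoImplicit false

namespace Pool.Agent.W991.PHFinal

open MeasureTheory Metric Set Filter Topology Complex
open Pool.Agent.W796.PH

theorem pw_norm (e : ℝ) (g : ℂ) : ‖pw e g‖ = ‖g‖ ^ e * ‖g‖ := by
  unfold pw
  rw [norm_mul, Complex.norm_real, Real.norm_of_nonneg (by positivity)]

theorem pw_surj (p : ℝ) (hp : 2 ≤ p) (a : ℂ) : ∃ Q, pw (p - 2) Q = a := by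
  by_cases ha : a = 0
  · exact ⟨0, by simp [pw, ha]⟩
  · refine ⟨pw ((2 - p) / (p - 1)) a, ?_⟩
    have h0 : 0 < ‖a‖ := norm_pos_iff.2 ha
    have h1 : ‖pw ((2 - p) / (p - 1)) a‖ = ‖a‖ ^ (1 / (p - 1)) := by
      rw [pw_norm, ← Real.rpow_add_one h0.ne']
      congr 1
      have : p - 1 ≠ 0 := by linarith
      field_simp
      ring
    have h3 : ∀ (e : ℝ) (g : ℂ), pw e g = ((‖g‖ ^ e : ℝ) : ℂ) * g := fun _ _ => rfl
    rw [h3 (p - 2), h1, ← Real.rpow_mul h0.le, h3, ← mul_assoc, ← Complex.ofReal_mul,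
      ← Real.rpow_add h0]
    have h2 : 1 / (p - 1) * (p - 2) + (2 - p) / (p - 1) = 0 := by
      have : p - 1 ≠ 0 := by linarith
      field_simp
      ring
    rw [h2, Real.rpow_zero]
    simp

theorem pw_cont (e : ℝ) (he : 0 ≤ e) : Continuous (pw e) := by
  unfold pw
  exact (Complex.continuous_ofReal.comp
    (continuous_norm.rpow_const fun _ => Or.inr he)).mul continuous_id

theorem two_pow (P x y : ℝ) (hP : 0 ≤ P) (hx : 0 ≤ x) (hy : 0 ≤ y) :
    (x + y) ^ P ≤ 2 ^ P * (x ^ P + y ^ P) := by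
  rcases le_total x y with h | h
  · calc (x + y) ^ P ≤ (2 * y) ^ P := Real.rpow_le_rpow (by positivity) (by linarith) hP
      _ = 2 ^ P * y ^ P := Real.mul_rpow (by norm_num) hy
      _ ≤ _ := by
        gcongr
        have := Real.rpow_nonneg hx P
        linarith
  · calc (x + y) ^ P ≤ (2 * x) ^ P := Real.rpow_le_rpow (by positivity) (by linarith) hP
      _ = 2 ^ P * x ^ P := Real.mul_rpow (by norm_num) hx
      _ ≤ _ := by
        gcongr
        have := Real.rpow_nonneg hy P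
        linarith

theorem young (P t η : ℝ) (hP : 0 ≤ P) (ht : 0 ≤ t) (hη : 0 < η) :
    t ≤ η + t ^ (P + 1) / η ^ P := by
  have hηP : 0 < η ^ P := Real.rpow_pos_of_pos hη P
  rcases le_total t η with h | h
  · have : 0 ≤ t ^ (P + 1) / η ^ P := by positivity
    linarith
  · have h1 : t ≤ t ^ (P + 1) / η ^ P := by
      rw [le_div_iff₀ hηP, Real.rpow_add_one' ht (by linarith), mul_comm]
      exact mul_le_mul_of_nonneg_right (Real.rpow_le_rpow hη.le h hP) ht
    linarith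

theorem caseA (P al θ K S M g d : ℝ) (hP : 0 ≤ P) (hal : al * (P + 1) = 1) (hθ : 0 < θ)
    (hK : 0 < K) (hS : 0 ≤ S) (hM : 0 < M) (hg : 0 ≤ g) (hd : 0 ≤ d)
    (h1 : d ≤ K * θ ^ al * S) (h2 : g ≤ M * (K * θ ^ al * S)) :
    (2 * g + d) ^ P * d ≤ (2 * M + 1) ^ P * (K ^ (P + 1) * (θ * S ^ (P + 1))) := by
  obtain ⟨u, hu⟩ : ∃ u, u = K * θ ^ al * S := ⟨_, rfl⟩
  have hu0 : 0 ≤ u := by rw [hu]; positivity
  rw [← hu] at h1 h2
  have h3 : u ^ (P + 1) = K ^ (P + 1) * (θ * S ^ (P + 1)) := by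
    rw [hu, Real.mul_rpow (by positivity) hS, Real.mul_rpow hK.le (by positivity),
      ← Real.rpow_mul hθ.le, hal, Real.rpow_one]
    ring
  rw [← h3]
  calc (2 * g + d) ^ P * d ≤ ((2 * M + 1) * u) ^ P * u := by
        refine mul_le_mul (Real.rpow_le_rpow (by positivity) ?_ hP) h1 hd (by positivity)
        nlinarith
    _ = (2 * M + 1) ^ P * u ^ (P + 1) := by
        rw [Real.mul_rpow (by positivity) hu0, Real.rpow_add_one' hu0 (by linarith)]
        ring

theorem caseB1 (P al ρ K S M g σ : ℝ) (hP : 0 ≤ P) (hal : al * (P + 1) = 1) (hρ : 0 < ρ)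
    (hK : 0 < K) (hS : 0 ≤ S) (hM : 0 < M) (hσ : σ = K * ρ ^ al * S) (hg : M * σ = g) :
    g ^ P * (σ / ρ) = M ^ P * (K ^ (P + 1) * S ^ (P + 1)) := by
  have hσ0 : 0 ≤ σ := by rw [hσ]; positivity
  have h3 : σ ^ (P + 1) = K ^ (P + 1) * (ρ * S ^ (P + 1)) := by
    rw [hσ, Real.mul_rpow (by positivity) hS, Real.mul_rpow hK.le (by positivity),
      ← Real.rpow_mul hρ.le, hal, Real.rpow_one]
    ring
  rw [← hg, Real.mul_rpow hM.le hσ0]
  have h4 : σ ^ P * σ = σ ^ (P + 1) := (Real.rpow_add_one' hσ0 (by linarith)).symm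
  calc M ^ P * σ ^ P * (σ / ρ) = M ^ P * (σ ^ P * σ) / ρ := by ring
    _ = _ := by
      rw [h4, h3]
      field_simp

theorem F23 (p C D : ℝ) (hp : 2 ≤ p) (hC : 0 < C) (hD : 0 < D)
    (h4 : ∀ a b : ℂ, (‖a‖ + ‖b‖) ^ (p - 2) * ‖a - b‖ ≤ D * ‖pw (p - 2) a - pw (p - 2) b‖)
    (h5 : ∀ a b : ℂ, ‖a - b‖ ^ (p - 1) ≤ D * ‖pw (p - 2) a - pw (p - 2) b‖)
    (G : ℂ → ℂ) (c Q : ℂ) (R : ℝ) (hR : 0 < R) (hG : ContinuousOn G (closedBall c R)) :
    (C / R ^ 2 * ∫ w in closedBall c R, ‖G w - Q‖) ^ (p - 1) ≤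
      (2 * Real.pi * C) ^ (p - 2) * (2 * C * D) *
        (1 / R ^ 2 * ∫ w in closedBall c R, ‖pw (p - 2) (G w) - pw (p - 2) Q‖) ∧
    ‖Q‖ ^ (p - 2) * (C / R ^ 2 * ∫ w in closedBall c R, ‖G w - Q‖) ≤
      (C * D) * (1 / R ^ 2 * ∫ w in closedBall c R, ‖pw (p - 2) (G w) - pw (p - 2) Q‖) := by
  have hP : 0 ≤ p - 2 := by linarith
  have hcomp : IsCompact (closedBall c R) := isCompact_closedBall c R
  have i1 : IntegrableOn (fun w => ‖G w - Q‖) (closedBall c R) :=
    (hG.sub continuousOn_const).norm.integrableOn_compact hcomp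
  have i2 : IntegrableOn (fun w => ‖pw (p - 2) (G w) - pw (p - 2) Q‖) (closedBall c R) :=
    (((pw_cont _ hP).comp_continuousOn hG).sub continuousOn_const).norm.integrableOn_compact hcomp
  have i3 : IntegrableOn (fun w => ‖G w - Q‖ ^ (p - 1)) (closedBall c R) :=
    ((hG.sub continuousOn_const).norm.rpow_const fun _ _ => Or.inr
      (by linarith)).integrableOn_compact hcomp
  obtain ⟨J, hJ⟩ : ∃ J, J = ∫ w in closedBall c R, ‖pw (p - 2) (G w) - pw (p - 2) Q‖ := ⟨_, rfl⟩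
  obtain ⟨I, hI⟩ : ∃ I, I = ∫ w in closedBall c R, ‖G w - Q‖ := ⟨_, rfl⟩
  have hI0 : 0 ≤ I := by rw [hI]; exact integral_nonneg fun _ => norm_nonneg _
  have hJ0 : 0 ≤ J := by rw [hJ]; exact integral_nonneg fun _ => norm_nonneg _
  have hvol : (volume (closedBall c R)).toReal = Real.pi * R ^ 2 := by
    rw [Complex.volume_closedBall, ENNReal.toReal_mul, ENNReal.toReal_pow,
      ENNReal.toReal_ofReal hR.le, mul_comm]
    rfl
  rw [← hJ, ← hI]
  constructor
  · obtain ⟨S, hS⟩ : ∃ S, S = C / R ^ 2 * I := ⟨_, rfl⟩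
    have hS0 : 0 ≤ S := by rw [hS]; positivity
    rw [← hS]
    rcases hS0.eq_or_lt with h0 | h0
    · rw [← h0, Real.zero_rpow (by linarith)]
      positivity
    · have key : ∀ η : ℝ, 0 < η → I ≤ η * (Real.pi * R ^ 2) + D * J / η ^ (p - 2) := by
        intro η hη
        have hηP : 0 < η ^ (p - 2) := Real.rpow_pos_of_pos hη _
        have k1 : I ≤ ∫ w in closedBall c R,
            (η + D / η ^ (p - 2) * ‖pw (p - 2) (G w) - pw (p - 2) Q‖) := by
          rw [hI]
          refine setIntegral_mono i1 ?_ fun w => ?_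
          · exact (integrableOn_const (by
              rw [Complex.volume_closedBall]
              exact ENNReal.mul_ne_top (by simp) (by simp))).add (i2.const_mul _)
          · simp only
            have k2 := young (p - 2) ‖G w - Q‖ η hP (norm_nonneg _) hη
            have k3 := h5 (G w) Q
            have k4 : p - 2 + 1 = p - 1 := by ring
            rw [k4] at k2
            have k5 : ‖G w - Q‖ ^ (p - 1) / η ^ (p - 2) ≤
                D / η ^ (p - 2) * ‖pw (p - 2) (G w) - pw (p - 2) Q‖ := by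
              rw [div_mul_eq_mul_div]
              gcongr
            linarith
        have k0 : Integrable (fun _ : ℂ => η) (volume.restrict (closedBall c R)) :=
          integrableOn_const (by
              rw [Complex.volume_closedBall]
              exact ENNReal.mul_ne_top (by simp) (by simp))
        refine k1.trans (le_of_eq ?_)
        rw [integral_add k0 (i2.const_mul _),
            setIntegral_const, integral_const_mul, ← hJ, smul_eq_mul, Measure.real, hvol]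
        ring
      have k1 := key (S / (2 * Real.pi * C)) (by positivity)
      have k2 : S ≤ S / 2 + C * D * (J / R ^ 2) / (S / (2 * Real.pi * C)) ^ (p - 2) := by
        have k3 := mul_le_mul_of_nonneg_left k1 (by positivity : 0 ≤ C / R ^ 2)
        rw [← hS] at k3
        refine k3.trans (le_of_eq ?_)
        have : (S / (2 * Real.pi * C)) ^ (p - 2) ≠ 0 := (Real.rpow_pos_of_pos (by positivity) _).ne'
        have := Real.pi_pos.ne'
        field_simp
      have k4 : 0 < (S / (2 * Real.pi * C)) ^ (p - 2) := Real.rpow_pos_of_pos (by positivity) _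
      have k5 : S / 2 ≤ C * D * (J / R ^ 2) / (S / (2 * Real.pi * C)) ^ (p - 2) := by linarith
      rw [le_div_iff₀ k4, Real.div_rpow h0.le (by positivity)] at k5
      have k6 : S ^ (p - 1) = S ^ (p - 2) * S := by
        rw [← Real.rpow_add_one h0.ne']
        congr 1
        ring
      have k7 : 0 < (2 * Real.pi * C) ^ (p - 2) := Real.rpow_pos_of_pos (by positivity) _
      rw [k6]
      have k8 : S / 2 * (S ^ (p - 2) / (2 * Real.pi * C) ^ (p - 2)) =
        (S ^ (p - 2) * S) / (2 * (2 * Real.pi * C) ^ (p - 2)) := by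
        field_simp
      rw [k8, div_le_iff₀ (by positivity)] at k5
      refine k5.trans (le_of_eq ?_)
      field_simp
  · have k1 : ‖Q‖ ^ (p - 2) * I ≤ D * J := by
      rw [hI, hJ, ← integral_const_mul, ← integral_const_mul]
      refine setIntegral_mono (i1.const_mul _) (i2.const_mul _) fun w => ?_
      simp only
      refine le_trans ?_ (h4 (G w) Q)
      gcongr
      linarith [norm_nonneg (G w)]
    calc ‖Q‖ ^ (p - 2) * (C / R ^ 2 * I) = C / R ^ 2 * (‖Q‖ ^ (p - 2) * I) := by ring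
      _ ≤ C / R ^ 2 * (D * J) := by gcongr
      _ = _ := by ring

theorem main (hA : S_Alg) : S_Final := by
  intro p hp C M hC hM
  obtain ⟨D, hD, hAD⟩ := hA p hp
  have hP : 0 ≤ p - 2 := by linarith
  obtain ⟨al, hal⟩ : ∃ al, al = 1 / (p - 1) := ⟨_, rfl⟩
  have hal0 : 0 < al := by rw [hal]; exact one_div_pos.2 (by linarith)
  have halP : al * ((p - 2) + 1) = 1 := by
    rw [hal]
    have : p - 1 ≠ 0 := by linarith
    field_simp
    ring
  obtain ⟨K, hK⟩ : ∃ K, K = C * 2 ^ al := ⟨_, rfl⟩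
  have hK0 : 0 < K := by rw [hK]; positivity
  obtain ⟨C2, hC2⟩ : ∃ C2, C2 = (2 * Real.pi * C) ^ (p - 2) * (2 * C * D) := ⟨_, rfl⟩
  have hC20 : 0 < C2 := by rw [hC2]; positivity
  refine ⟨D * (2 * M + 1) ^ (p - 2) * K ^ (p - 2 + 1) * C2 +
    D * (2 + 1 / M) ^ (p - 2) * (C + 8) * (M ^ (p - 2) * K ^ (p - 2 + 1) * C2 +
      4 * K * 2 ^ (p - 2) * (C * D + C2)), by positivity, ?_⟩
  intro U G hE c R hR hU a θ hθ hθ2 x hx
  obtain ⟨Q, hQ⟩ := pw_surj p hp a
  have hGc : ContinuousOn G (closedBall c R) := hE.cont.mono hU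
  obtain ⟨F2, F3⟩ := F23 p C D hp hC hD (fun a b => (hAD a b).2.2.2.1)
    (fun a b => (hAD a b).2.2.2.2) G c Q R hR hGc
  rw [hQ] at F2 F3
  obtain ⟨S, hS⟩ : ∃ S, S = C / R ^ 2 * ∫ w in closedBall c R, ‖G w - Q‖ := ⟨_, rfl⟩
  have hS0 : 0 ≤ S := by
    rw [hS]; exact mul_nonneg (by positivity) (integral_nonneg fun _ => norm_nonneg _)
  obtain ⟨E, hE'⟩ : ∃ E, E = 1 / R ^ 2 * ∫ w in closedBall c R, ‖pw (p - 2) (G w) - a‖ :=
    ⟨_, rfl⟩
  have hE0 : 0 ≤ E := by
    rw [hE']; exact mul_nonneg (by positivity) (integral_nonneg fun _ => norm_nonneg _)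
  rw [← hS, ← hE'] at F2 F3
  rw [← hC2] at F2
  have hp1 : p - 1 = p - 2 + 1 := by ring
  rw [hp1] at F2
  have F1 := hE.mean c R hR hU Q
  rw [← hS] at F1
  -- Hölder estimate at the centre
  have hold : ∀ z ∈ closedBall c (R / 4), ‖G z - G c‖ ≤ K * (‖z - c‖ / R) ^ al * S := by
    intro z hz
    have h1 := hE.hold c (R / 2) S (by positivity)
      ((closedBall_subset_closedBall (by linarith)).trans hU) Q F1 z
      (by have : R / 2 / 2 = R / 4 := by ring
          rw [this]; exact hz) c (mem_closedBall_self (by positivity))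
    refine h1.trans (le_of_eq ?_)
    rw [← hal, hK]
    have h2 : ‖z - c‖ / (R / 2) = 2 * (‖z - c‖ / R) := by field_simp
    rw [h2, Real.mul_rpow (by norm_num) (by positivity)]
    ring
  have hxc : ‖x - c‖ ≤ θ * R := by rw [← dist_eq_norm]; exact hx
  obtain ⟨d, hd⟩ : ∃ d, d = ‖G x - G c‖ := ⟨_, rfl⟩
  obtain ⟨g, hg⟩ : ∃ g, g = ‖G c‖ := ⟨_, rfl⟩
  have hd0 : 0 ≤ d := by rw [hd]; positivity
  have hg0 : 0 ≤ g := by rw [hg]; positivity
  have hgx : ‖G x‖ ≤ g + d := by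
    rw [hg, hd]
    calc ‖G x‖ = ‖G c + (G x - G c)‖ := by congr 1; ring
      _ ≤ _ := norm_add_le _ _
  have hgQ : g ≤ ‖Q‖ + S := by
    have h1 := F1 c (mem_closedBall_self (by positivity))
    rw [hg]
    calc ‖G c‖ = ‖Q + (G c - Q)‖ := by congr 1; ring
      _ ≤ ‖Q‖ + ‖G c - Q‖ := norm_add_le _ _
      _ ≤ _ := by linarith
  have hfin : ‖pw (p - 2) (G x) - pw (p - 2) (G c)‖ ≤ D * ((2 * g + d) ^ (p - 2) * d) := by
    refine ((hAD (G x) (G c)).2.2.1).trans ?_
    rw [← hg, ← hd, mul_assoc]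
    have h0 : (‖G x‖ + g) ^ (p - 2) ≤ (2 * g + d) ^ (p - 2) :=
      Real.rpow_le_rpow (by positivity) (by linarith) hP
    gcongr
  have hgoal : ∀ X : ℝ, X * θ / R ^ 2 * ∫ w in closedBall c R, ‖pw (p - 2) (G w) - a‖ =
      X * θ * E := by
    intro X
    rw [hE']
    ring
  rw [hgoal]
  have hx4 : x ∈ closedBall c (R / 4) := by
    rw [mem_closedBall, dist_eq_norm]
    nlinarith
  have hdθ : d ≤ K * θ ^ al * S := by
    rw [hd]
    refine (hold x hx4).trans ?_
    gcongr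
    rw [div_le_iff₀ hR]
    exact hxc
  obtain ⟨T1, hT1⟩ : ∃ T1, T1 = D * (2 * M + 1) ^ (p - 2) * K ^ (p - 2 + 1) * C2 := ⟨_, rfl⟩
  obtain ⟨T2, hT2⟩ : ∃ T2, T2 = D * (2 + 1 / M) ^ (p - 2) * (C + 8) * (M ^ (p - 2) *
      K ^ (p - 2 + 1) * C2 + 4 * K * 2 ^ (p - 2) * (C * D + C2)) := ⟨_, rfl⟩
  have hT10 : 0 < T1 := by rw [hT1]; positivity
  have hT20 : 0 < T2 := by rw [hT2]; positivity
  rw [← hT1, ← hT2]
  rcases le_or_gt g (M * (K * θ ^ al * S)) with hcase | hcase
  · -- Case A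
    have h1 := caseA (p - 2) al θ K S M g d hP halP hθ hK0 hS0 hM hg0 hd0 hdθ hcase
    calc ‖pw (p - 2) (G x) - pw (p - 2) (G c)‖ ≤ D * ((2 * g + d) ^ (p - 2) * d) := hfin
      _ ≤ D * ((2 * M + 1) ^ (p - 2) * (K ^ (p - 2 + 1) * (θ * S ^ (p - 2 + 1)))) := by gcongr
      _ ≤ D * ((2 * M + 1) ^ (p - 2) * (K ^ (p - 2 + 1) * (θ * (C2 * E)))) := by gcongr
      _ = T1 * θ * E := by rw [hT1]; ring
      _ ≤ (T1 + T2) * θ * E := by
        have : 0 ≤ T2 * θ * E := by positivity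
        nlinarith
  · -- Case B
    obtain ⟨ρ, hρ1, hρ2, hρ3, hρ4⟩ : ∃ ρ : ℝ, θ ≤ ρ ∧ ρ ≤ 1 / 4 ∧ M * (K * ρ ^ al * S) ≤ g ∧
        (M * (K * ρ ^ al * S) = g ∨ ρ = 1 / 4) := by
      rcases le_or_gt g (M * (K * (1 / 4) ^ al * S)) with h1 | h1
      · -- intermediate value
        have hcont : ContinuousOn (fun ρ : ℝ => M * (K * ρ ^ al * S)) (Icc θ (1 / 4)) := by
          refine Continuous.continuousOn ?_
          exact continuous_const.mul ((continuous_const.mul
            (continuous_id.rpow_const fun _ => Or.inr hal0.le)).mul continuous_const)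
        have h2 := intermediate_value_Icc (by linarith : θ ≤ 1 / 4) hcont
        obtain ⟨ρ, hρ, hρe⟩ := h2 ⟨hcase.le, h1⟩
        exact ⟨ρ, hρ.1, hρ.2, hρe.le, Or.inl hρe⟩
      · exact ⟨1 / 4, by linarith, le_rfl, h1.le, Or.inr rfl⟩
    have hρ0 : 0 < ρ := lt_of_lt_of_le hθ hρ1
    obtain ⟨σ, hσ⟩ : ∃ σ, σ = K * ρ ^ al * S := ⟨_, rfl⟩
    have hσ0 : 0 ≤ σ := by rw [hσ]; positivity
    rw [← hσ] at hρ3 hρ4
    have hρR4 : ρ * R ≤ R / 4 := by
      calc ρ * R ≤ 1 / 4 * R := by gcongr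
        _ = R / 4 := by ring
    have hρR : ρ * R ≤ R := by linarith
    -- `d ≤ σ` on the ball of radius `ρ R`
    have hball : ∀ w ∈ closedBall c (ρ * R), ‖G w - G c‖ ≤ σ := by
      intro w hw
      rw [mem_closedBall, dist_eq_norm] at hw
      have hw4 : w ∈ closedBall c (R / 4) := by
        rw [mem_closedBall, dist_eq_norm]
        linarith
      refine (hold w hw4).trans ?_
      rw [hσ]
      gcongr
      rw [div_le_iff₀ hR]
      exact hw
    have hdσ : d ≤ σ := by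
      rw [hd]
      refine hball x ?_
      rw [mem_closedBall, dist_eq_norm]
      calc ‖x - c‖ ≤ θ * R := hxc
        _ ≤ ρ * R := by gcongr
    have hd2 : d ≤ (C + 8) * θ * (σ / ρ) := by
      rcases le_or_gt θ (ρ / 8) with h1 | h1
      · have h2 := hE.nd c (ρ * R) σ (by positivity)
          ((closedBall_subset_closedBall hρR).trans hU) hball (by rw [← hg]; exact hρ3)
          x (by
            rw [mem_closedBall, dist_eq_norm]
            calc ‖x - c‖ ≤ θ * R := hxc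
              _ ≤ ρ / 8 * R := by gcongr
              _ = ρ * R / 8 := by ring)
        rw [← hd] at h2
        refine h2.trans ?_
        have h3 : ‖x - c‖ / (ρ * R) ≤ θ / ρ := by
          rw [div_le_div_iff₀ (by positivity) hρ0]
          calc ‖x - c‖ * ρ ≤ (θ * R) * ρ := by gcongr
            _ = θ * (ρ * R) := by ring
        calc C * (‖x - c‖ / (ρ * R)) * σ ≤ C * (θ / ρ) * σ := by gcongr
          _ ≤ (C + 8) * (θ / ρ) * σ := by
            gcongr
            linarith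
          _ = _ := by ring
      · refine hdσ.trans ?_
        have h2 : 1 ≤ 8 * θ / ρ := by
          rw [le_div_iff₀ hρ0]
          linarith
        calc σ = 1 * σ := (one_mul _).symm
          _ ≤ (8 * θ / ρ) * σ := by gcongr
          _ ≤ (8 * θ / ρ) * σ + C * θ * (σ / ρ) := by
            have : 0 ≤ C * θ * (σ / ρ) := by positivity
            linarith
          _ = _ := by ring
    have hdg : d ≤ g / M := by
      rw [le_div_iff₀ hM]
      nlinarith
    have h1 : (2 * g + d) ^ (p - 2) * d ≤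
        (2 + 1 / M) ^ (p - 2) * g ^ (p - 2) * ((C + 8) * θ * (σ / ρ)) := by
      rw [← Real.mul_rpow (by positivity) hg0]
      refine mul_le_mul (Real.rpow_le_rpow (by positivity) ?_ hP) hd2 hd0 (by positivity)
      have : (2 + 1 / M) * g = 2 * g + g / M := by ring
      rw [this]
      linarith
    have h2 : g ^ (p - 2) * (σ / ρ) ≤ (M ^ (p - 2) *
      K ^ (p - 2 + 1) * C2 + 4 * K * 2 ^ (p - 2) * (C * D + C2)) * E := by
      have k0 : 0 ≤ M ^ (p - 2) * K ^ (p - 2 + 1) * C2 * E := by positivity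
      have k00 : 0 ≤ 4 * K * 2 ^ (p - 2) * (C * D + C2) * E := by positivity
      rcases hρ4 with h3 | h3
      · rw [caseB1 (p - 2) al ρ K S M g σ hP halP hρ0 hK0 hS0 hM hσ h3]
        calc M ^ (p - 2) * (K ^ (p - 2 + 1) * S ^ (p - 2 + 1)) ≤
            M ^ (p - 2) * (K ^ (p - 2 + 1) * (C2 * E)) := by gcongr
          _ ≤ _ := by nlinarith
      · have k1 : σ / ρ ≤ 4 * K * S := by
          rw [hσ, h3]
          have : ((1 : ℝ) / 4) ^ al ≤ 1 := Real.rpow_le_one (by norm_num) (by norm_num) hal0.le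
          have k2 : 0 ≤ K * S := by positivity
          have k3 : K * (1 / 4) ^ al * S / (1 / 4) = 4 * (K * S) * (1 / 4) ^ al := by ring
          rw [k3]
          nlinarith
        have k2 : g ^ (p - 2) ≤ 2 ^ (p - 2) * (‖Q‖ ^ (p - 2) + S ^ (p - 2)) :=
          (Real.rpow_le_rpow hg0 hgQ hP).trans (two_pow _ _ _ hP (norm_nonneg _) hS0)
        calc g ^ (p - 2) * (σ / ρ) ≤
            (2 ^ (p - 2) * (‖Q‖ ^ (p - 2) + S ^ (p - 2))) * (4 * K * S) := by gcongr
          _ = 4 * K * 2 ^ (p - 2) * (‖Q‖ ^ (p - 2) * S + S ^ (p - 2) * S) := by ring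
          _ = 4 * K * 2 ^ (p - 2) * (‖Q‖ ^ (p - 2) * S + S ^ (p - 2 + 1)) := by
            rw [Real.rpow_add_one' hS0 (by linarith)]
          _ ≤ 4 * K * 2 ^ (p - 2) * (C * D * E + C2 * E) := by gcongr
          _ ≤ _ := by nlinarith
    calc ‖pw (p - 2) (G x) - pw (p - 2) (G c)‖ ≤ D * ((2 * g + d) ^ (p - 2) * d) := hfin
      _ ≤ D * ((2 + 1 / M) ^ (p - 2) * g ^ (p - 2) * ((C + 8) * θ * (σ / ρ))) := by gcongr
      _ = D * (2 + 1 / M) ^ (p - 2) * (C + 8) * (g ^ (p - 2) * (σ / ρ)) * θ := by ring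
      _ ≤ D * (2 + 1 / M) ^ (p - 2) * (C + 8) * ((M ^ (p - 2) *
        K ^ (p - 2 + 1) * C2 + 4 * K * 2 ^ (p - 2) * (C * D + C2)) * E) * θ := by gcongr
      _ = T2 * θ * E := by rw [hT2]; ring
      _ ≤ (T1 + T2) * θ * E := by
        have : 0 ≤ T1 * θ * E := by positivity
        nlinarith

end Pool.Agent.W991.PHFinal
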