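import Mathlib
import Pool.Agent.W909.UG.Defs

/-! UG-A2: the powers of the adjacency operator count closed walks. -/

namespace Pool.Agent.W991.UGA2

open Pool.Agent.W909.UG

set_option autoImplicit false

/-- walks of length `k` from the root to `v` inside the tree -/
def W (N : Tr) (k : ℕ) (v : List ℕ) : Set (Fin (k + 1) → List ℕ) :=
  {f | f 0 = [] ∧ f (Fin.last k) = v ∧ (∀ i, inT N (f i)) ∧
    ∀ i : Fin k, (∃ a : ℕ, f i.succ = f i.castSucc ++ [a]) ∨
      (∃ a : ℕ, f i.castSucc = f i.succ ++ [a])}

theorem inT_append (N : Tr) (v : List ℕ) (a : ℕ) : inT N (v ++ [a]) ↔ inT N v ∧ a < N v := by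
  constructor
  · intro h
    constructor
    · intro j hj
      have := h j (by simp; omega)
      rwa [List.getD_append _ _ _ _ hj, List.take_append_of_le_length hj.le] at this
    · have := h v.length (by simp)
      simpa using this
  · rintro ⟨h1, h2⟩ j hj
    have hj' : j < v.length ∨ j = v.length := by simp at hj; omega
    rcases hj' with hj' | rfl
    · rw [List.getD_append _ _ _ _ hj', List.take_append_of_le_length hj'.le]; exact h1 j hj'
    · simpa using h2

theorem inT_nil (N : Tr) : inT N [] := by
  intro j hj; simp at hj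

open Classical in
/-- neighbours of `v` -/
noncomputable def Nb (N : Tr) (v : List ℕ) : Finset (List ℕ) :=
  (if v = [] then ∅ else {v.dropLast}) ∪ (Finset.range (N v)).image (fun a => v ++ [a])

theorem mem_Nb {N : Tr} {v u : List ℕ} (hv : inT N v) :
    u ∈ Nb N v ↔ inT N u ∧ ((∃ a : ℕ, v = u ++ [a]) ∨ (∃ a : ℕ, u = v ++ [a])) := by
  classical
  unfold Nb
  rw [Finset.mem_union, Finset.mem_image]
  constructor
  · rintro (h | ⟨a, ha, rfl⟩)
    · split_ifs at h with h0
      · simp at h
      · rw [Finset.mem_singleton] at h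
        subst h
        have e : v = v.dropLast ++ [v.getLast h0] := (List.dropLast_append_getLast h0).symm
        refine ⟨?_, Or.inl ⟨_, e⟩⟩
        rw [e, inT_append] at hv
        exact hv.1
    · exact ⟨(inT_append N v a).mpr ⟨hv, Finset.mem_range.mp ha⟩, Or.inr ⟨a, rfl⟩⟩
  · rintro ⟨hu, ⟨a, rfl⟩ | ⟨a, rfl⟩⟩
    · left
      rw [if_neg (by simp)]
      simp
    · right
      exact ⟨a, Finset.mem_range.mpr ((inT_append N v a).mp hu).2, rfl⟩

theorem sum_Nb (N : Tr) (v : List ℕ) {M : Type} [AddCommMonoid M] (g : List ℕ → M) :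
    ∑ u ∈ Nb N v, g u = (if v = [] then 0 else g v.dropLast) +
      ∑ a ∈ Finset.range (N v), g (v ++ [a]) := by
  classical
  unfold Nb
  rw [Finset.sum_union]
  · congr 1
    · split_ifs <;> simp
    · rw [Finset.sum_image]
      intro a _ b _ h
      simpa using h
  · rw [Finset.disjoint_left]
    intro u hu hu2
    obtain ⟨a, _, rfl⟩ := Finset.mem_image.mp hu2
    split_ifs at hu with h0
    · simp at hu
    · rw [Finset.mem_singleton] at hu
      have := congrArg List.length hu
      simp at this
      omega

theorem W_zero (N : Tr) (v : List ℕ) :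
    W N 0 v = if v = [] then {fun _ => []} else ∅ := by
  ext f
  split_ifs with h
  · subst h
    simp only [W, Set.mem_ofPred_eq, Set.mem_singleton_iff]
    constructor
    · rintro ⟨h0, _⟩
      funext i
      have : i = 0 := Fin.ext (by have := i.isLt; show i.1 = 0; omega)
      rw [this, h0]
    · rintro rfl
      exact ⟨rfl, rfl, fun _ => inT_nil N, fun i => i.elim0⟩
  · simp only [W, Set.mem_ofPred_eq, Set.mem_empty_iff_false, iff_false]
    rintro ⟨h0, h1, _⟩
    apply h
    rw [← h1, ← h0]
    rfl

theorem W_succ_not (N : Tr) (k : ℕ) (v : List ℕ) (hv : ¬ inT N v) : W N (k + 1) v = ∅ := by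
  ext f
  simp only [W, Set.mem_ofPred_eq, Set.mem_empty_iff_false, iff_false]
  rintro ⟨_, h1, h2, _⟩
  apply hv
  rw [← h1]; exact h2 _

theorem W_succ (N : Tr) (k : ℕ) (v : List ℕ) (hv : inT N v) :
    W N (k + 1) v = (fun g : Fin (k + 1) → List ℕ => (Fin.snoc g v : Fin (k + 2) → List ℕ)) ''
      (⋃ u ∈ Nb N v, W N k u) := by
  ext f
  simp only [Set.mem_image, Set.mem_iUnion]
  constructor
  · rintro ⟨h0, h1, h2, h3⟩
    refine ⟨Fin.init f, ⟨f (Fin.last k).castSucc, ?_, ?_⟩, ?_⟩
    · rw [mem_Nb hv]
      refine ⟨h2 _, ?_⟩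
      have := h3 (Fin.last k)
      rw [Fin.succ_last, h1] at this
      exact this
    · refine ⟨?_, rfl, fun i => h2 _, fun i => ?_⟩
      · show f (Fin.castSucc 0) = []
        rw [Fin.castSucc_zero]; exact h0
      · have := h3 i.castSucc
        exact this
    · rw [← h1]
      exact Fin.snoc_init_self f
  · rintro ⟨g, ⟨u, hu, h0, h1, h2, h3⟩, rfl⟩
    rw [mem_Nb hv] at hu
    refine ⟨?_, ?_, ?_, ?_⟩
    · show (Fin.snoc g v : Fin (k + 2) → List ℕ) (Fin.castSucc 0) = []
      rw [Fin.snoc_castSucc]; exact h0
    · exact Fin.snoc_last _ _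
    · intro i
      refine Fin.lastCases ?_ (fun j => ?_) i
      · show inT N ((Fin.snoc g v : Fin (k + 2) → List ℕ) (Fin.last (k + 1)))
        rw [Fin.snoc_last]; exact hv
      · show inT N ((Fin.snoc g v : Fin (k + 2) → List ℕ) (Fin.castSucc j))
        rw [Fin.snoc_castSucc]; exact h2 j
    · intro i
      show (∃ a : ℕ, (Fin.snoc g v : Fin (k + 2) → List ℕ) i.succ =
          (Fin.snoc g v : Fin (k + 2) → List ℕ) i.castSucc ++ [a]) ∨
        (∃ a : ℕ, (Fin.snoc g v : Fin (k + 2) → List ℕ) i.castSucc =
          (Fin.snoc g v : Fin (k + 2) → List ℕ) i.succ ++ [a])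
      refine Fin.lastCases ?_ (fun j => ?_) i
      · rw [Fin.succ_last, Fin.snoc_last, Fin.snoc_castSucc, h1]
        exact hu.2
      · rw [← Fin.castSucc_succ, Fin.snoc_castSucc, Fin.snoc_castSucc]
        exact h3 j

theorem key (N : Tr) (A : H2 →L[ℂ] H2) (hA : IsAdj N A) (k : ℕ) : ∀ v : List ℕ,
    (W N k v).Finite ∧ (((A ^ k) dl : H2) : List ℕ → ℂ) v = (((W N k v).ncard : ℕ) : ℂ) := by
  classical
  induction k with
  | zero =>
    intro v
    rw [W_zero]
    split_ifs with h
    · refine ⟨Set.finite_singleton _, ?_⟩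
      subst h
      rw [Set.ncard_singleton]
      simp [dl]
    · refine ⟨Set.finite_empty, ?_⟩
      rw [Set.ncard_empty]
      simp only [pow_zero, one_apply_eq_self, dl, Nat.cast_zero]
      rw [lp.single_apply, Pi.single_eq_of_ne h]
  | succ k ih =>
    intro v
    have e1 : ((A ^ (k + 1)) dl : H2) = A ((A ^ k) dl) := by
      rw [pow_succ']; rfl
    rw [e1, hA]
    clear e1
    generalize (A ^ k) dl = g at ih ⊢
    split_ifs with hv h0
    · -- v = []
      subst h0
      have hfin : ∀ u, (W N k u).Finite := fun u => (ih u).1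
      have e2 : W N (k + 1) [] = (((Nb N []).biUnion fun u => (hfin u).toFinset).image
          (fun g : Fin (k + 1) → List ℕ => (Fin.snoc g ([] : List ℕ) : Fin (k + 2) → List ℕ)) :
            Finset (Fin (k + 2) → List ℕ)) := by
        rw [W_succ N k [] hv]
        push_cast
        congr 1
        simp
      refine ⟨by rw [e2]; exact Finset.finite_toSet _, ?_⟩
      rw [e2, Set.ncard_coe_finset, Finset.card_image_of_injective _ (by
        intro g g' h
        simpa using congrArg Fin.init h), Finset.card_biUnion (by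
        intro u _ u' _ hne
        refine Finset.disjoint_left.mpr ?_
        intro f hf hf'
        rw [Set.Finite.mem_toFinset] at hf hf'
        exact hne (hf.2.1.symm.trans hf'.2.1))]
      rw [sum_Nb]
      simp only [if_true, zero_add]
      push_cast
      refine Finset.sum_congr rfl fun a _ => ?_
      rw [(ih _).2]
      simp [Set.ncard_eq_toFinset_card _ (hfin _)]
    · have hfin : ∀ u, (W N k u).Finite := fun u => (ih u).1
      have e2 : W N (k + 1) v = (((Nb N v).biUnion fun u => (hfin u).toFinset).image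
          (fun g : Fin (k + 1) → List ℕ => (Fin.snoc g v : Fin (k + 2) → List ℕ)) :
            Finset (Fin (k + 2) → List ℕ)) := by
        rw [W_succ N k v hv]
        push_cast
        congr 1
        simp
      refine ⟨by rw [e2]; exact Finset.finite_toSet _, ?_⟩
      rw [e2, Set.ncard_coe_finset, Finset.card_image_of_injective _ (by
        intro g g' h
        simpa using congrArg Fin.init h), Finset.card_biUnion (by
        intro u _ u' _ hne
        refine Finset.disjoint_left.mpr ?_
        intro f hf hf'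
        rw [Set.Finite.mem_toFinset] at hf hf'
        exact hne (hf.2.1.symm.trans hf'.2.1))]
      rw [sum_Nb, if_neg h0]
      push_cast
      congr 1
      · rw [(ih _).2]
        simp [Set.ncard_eq_toFinset_card _ (hfin _)]
      · refine Finset.sum_congr rfl fun a _ => ?_
        rw [(ih _).2]
        simp [Set.ncard_eq_toFinset_card _ (hfin _)]
    · rw [W_succ_not N k v hv]
      exact ⟨Set.finite_empty, by simp⟩

theorem x : Pool.Agent.W909.UG.TaskA2 := by
  classical
  intro D N _ A hA k
  have h1 := (key N A hA k []).2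
  have h2 : walks N k = W N k [] := rfl
  rw [h2, ← h1, dl, lp.inner_single_left]
  simp

end Pool.Agent.W991.UGA2
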