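import Mathlib
import Pool.Agent.W909.UG.Defs

/-! UG-B1: boundary behaviour of a Stieltjes transform. -/

namespace Pool.Agent.W991.UGB1

open MeasureTheory ProbabilityTheory Filter Topology
open Pool.Agent.W909.UG (st sg rr)

set_option autoImplicit false

noncomputable section

/-- the point `l + i t` minus `x` -/
def zz (l t x : ℝ) : ℂ := (l : ℂ) + (t : ℂ) * Complex.I - (x : ℂ)

theorem zz_normSq (l t x : ℝ) : Complex.normSq (zz l t x) = (l - x) ^ 2 + t ^ 2 := by
  simp [zz, Complex.normSq_apply]; ring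

theorem zz_norm_sq (l t x : ℝ) : ‖zz l t x‖ ^ 2 = (l - x) ^ 2 + t ^ 2 := by
  rw [← Complex.normSq_eq_norm_sq, zz_normSq]

theorem zz_ne (l : ℝ) {t : ℝ} (ht : 0 < t) (x : ℝ) : zz l t x ≠ 0 := by
  intro h
  have h1 := zz_normSq l t x
  rw [h, map_zero] at h1
  have : 0 < t ^ 2 := by positivity
  nlinarith [sq_nonneg (l - x)]

theorem zz_norm_ge (l t x : ℝ) : |l - x| ≤ ‖zz l t x‖ := by
  refine abs_le_of_sq_le_sq ?_ (norm_nonneg _)
  rw [zz_norm_sq]; nlinarith [sq_nonneg t]

theorem zz_norm_ge' (l x : ℝ) {t : ℝ} (_ht : 0 < t) : t ≤ ‖zz l t x‖ := by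
  refine le_trans (le_abs_self t) (abs_le_of_sq_le_sq ?_ (norm_nonneg _))
  rw [zz_norm_sq]; nlinarith [sq_nonneg (l - x)]

theorem inv_norm_le (l x : ℝ) {t : ℝ} (ht : 0 < t) : ‖(zz l t x)⁻¹‖ ≤ t⁻¹ := by
  rw [norm_inv]; exact inv_anti₀ ht (zz_norm_ge' l x ht)

theorem meas_zz (l t : ℝ) : Measurable (fun x => zz l t x) := by
  unfold zz; fun_prop

theorem meas_inv (l t : ℝ) : Measurable (fun x => (zz l t x)⁻¹) := (meas_zz l t).inv

/-- the kernel `1/((l-x)^2+t^2)` -/
def ff (l t x : ℝ) : ℝ := ((l - x) ^ 2 + t ^ 2)⁻¹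

theorem ff_pos (l x : ℝ) {t : ℝ} (ht : 0 < t) : 0 < ff l t x := by
  unfold ff; positivity

theorem ff_le (l x : ℝ) {t : ℝ} (ht : 0 < t) : ff l t x ≤ (t ^ 2)⁻¹ := by
  unfold ff; exact inv_anti₀ (by positivity) (by nlinarith [sq_nonneg (l - x)])

theorem meas_ff (l t : ℝ) : Measurable (fun x => ff l t x) := by
  unfold ff; fun_prop

theorem inv_norm_sq (l t x : ℝ) : ‖(zz l t x)⁻¹‖ ^ 2 = ff l t x := by
  rw [norm_inv, inv_pow, zz_norm_sq, ff]

theorem im_inv (l t x : ℝ) : ((zz l t x)⁻¹).im = - (t * ff l t x) := by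
  rw [Complex.inv_im, zz_normSq, ff]
  simp [zz]; ring

section
variable {μ : Measure ℝ} [IsProbabilityMeasure μ] {l : ℝ}

theorem int_inv {t : ℝ} (ht : 0 < t) : Integrable (fun x => (zz l t x)⁻¹) μ :=
  Integrable.of_bound (meas_inv l t).aestronglyMeasurable t⁻¹
    (Eventually.of_forall fun x => inv_norm_le l x ht)

theorem int_ff {t : ℝ} (ht : 0 < t) : Integrable (fun x => ff l t x) μ :=
  Integrable.of_bound (meas_ff l t).aestronglyMeasurable (t ^ 2)⁻¹
    (Eventually.of_forall fun x => by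
      rw [Real.norm_of_nonneg (ff_pos l x ht).le]; exact ff_le l x ht)

theorem st_eq (t : ℝ) : st μ ((l : ℂ) + (t : ℂ) * Complex.I) = ∫ x, (zz l t x)⁻¹ ∂μ := rfl

theorem im_st {t : ℝ} (ht : 0 < t) :
    (st μ ((l : ℂ) + (t : ℂ) * Complex.I)).im = - (t * ∫ x, ff l t x ∂μ) := by
  rw [st_eq]
  have h1 := Complex.imCLM.integral_comp_comm (int_inv (μ := μ) (l := l) ht)
  have h2 : (∫ x, (zz l t x)⁻¹ ∂μ).im = ∫ x, ((zz l t x)⁻¹).im ∂μ := h1.symm
  rw [h2]
  simp only [im_inv]
  rw [integral_neg, integral_const_mul]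

theorem ev_pos : ∀ᶠ t : ℝ in 𝓝[>] 0, 0 < t := eventually_mem_nhdsWithin

/-- (1) -/
theorem part1 : Tendsto (fun t : ℝ => (t : ℂ) * Complex.I * st μ ((l : ℂ) + (t : ℂ) * Complex.I))
    (𝓝[>] 0) (𝓝 ((μ.real {l} : ℝ) : ℂ)) := by
  have e1 : ∀ t : ℝ, (t : ℂ) * Complex.I * st μ ((l : ℂ) + (t : ℂ) * Complex.I) =
      ∫ x, (t : ℂ) * Complex.I * (zz l t x)⁻¹ ∂μ := by
    intro t; rw [integral_const_mul]; rfl
  simp only [e1]
  have e2 : ((μ.real {l} : ℝ) : ℂ) = ∫ x, ({l} : Set ℝ).indicator (fun _ => (1 : ℂ)) x ∂μ := by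
    rw [integral_indicator (measurableSet_singleton l)]
    simp [Measure.real]
  rw [e2]
  apply tendsto_integral_filter_of_dominated_convergence (fun _ => (1 : ℝ))
  · exact Eventually.of_forall fun t => ((meas_inv l t).const_mul _).aestronglyMeasurable
  · filter_upwards [ev_pos] with t ht
    refine Eventually.of_forall fun x => ?_
    rw [norm_mul, norm_mul, Complex.norm_I, mul_one, Complex.norm_real, Real.norm_of_nonneg ht.le]
    calc t * ‖(zz l t x)⁻¹‖ ≤ t * t⁻¹ := by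
          gcongr; exact inv_norm_le l x ht
      _ = 1 := mul_inv_cancel₀ ht.ne'
  · exact integrable_const _
  · refine Eventually.of_forall fun x => ?_
    by_cases hx : x = l
    · subst hx
      simp only [Set.mem_singleton_iff, Set.indicator_of_mem]
      refine tendsto_const_nhds.congr' ?_
      filter_upwards [ev_pos] with t ht
      have : zz x t x = (t : ℂ) * Complex.I := by simp [zz]
      rw [this, mul_inv_cancel₀]
      rw [← this]; exact zz_ne x ht x
    · have h0 : ({l} : Set ℝ).indicator (fun _ => (1 : ℂ)) x = 0 := by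
        rw [Set.indicator_of_notMem]; simpa using hx
      rw [h0]
      have hc : ContinuousAt (fun t : ℝ => (t : ℂ) * Complex.I * (zz l t x)⁻¹) 0 := by
        apply ContinuousAt.mul (by fun_prop)
        apply ContinuousAt.inv₀
        · unfold zz; fun_prop
        · simp [zz, sub_eq_zero]
          exact fun h => hx (by exact_mod_cast h.symm)
      have := hc.tendsto
      simp only [Complex.ofReal_zero, zero_mul] at this
      exact this.mono_left nhdsWithin_le_nhds

theorem meas_sg : Measurable (fun x : ℝ => (ENNReal.ofReal ((x - l) ^ 2))⁻¹) := by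
  fun_prop

theorem atom_zero (h : sg μ l ≠ ⊤) : μ {l} = 0 := by
  have h1 := ae_lt_top (μ := μ) (meas_sg (l := l)) h
  rw [ae_iff] at h1
  refine measure_mono_null ?_ h1
  intro x hx
  rw [Set.mem_singleton_iff] at hx
  subst hx
  simp

theorem sg_ne_zero : sg μ l ≠ 0 := by
  intro h
  rw [sg, lintegral_eq_zero_iff (meas_sg (l := l))] at h
  have h2 : ∀ᵐ x ∂μ, False := by
    filter_upwards [h] with x hx
    simp at hx
  simp at h2
  exact (IsProbabilityMeasure.ne_zero μ) h2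

theorem ae_ne (h : μ {l} = 0) : ∀ᵐ x ∂μ, x ≠ l := by
  rw [ae_iff]; simpa using h

theorem lint_eq (h : μ {l} = 0) :
    ∫⁻ x, ENNReal.ofReal (((x - l) ^ 2)⁻¹) ∂μ = sg μ l := by
  unfold sg
  apply lintegral_congr_ae
  filter_upwards [ae_ne h] with x hx
  rw [ENNReal.ofReal_inv_of_pos]
  have : x - l ≠ 0 := sub_ne_zero.mpr hx
  positivity

theorem int_h (h : sg μ l ≠ ⊤) : Integrable (fun x => ((x - l) ^ 2)⁻¹) μ := by
  rw [← lintegral_ofReal_ne_top_iff_integrable]
  · rw [lint_eq (atom_zero h)]; exact h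
  · exact Measurable.aestronglyMeasurable (by fun_prop)
  · exact Eventually.of_forall fun x => by simp only [Pi.zero_apply]; positivity

theorem int_h_eq (h : sg μ l ≠ ⊤) : ∫ x, ((x - l) ^ 2)⁻¹ ∂μ = (sg μ l).toReal := by
  rw [integral_eq_lintegral_of_nonneg_ae, lint_eq (atom_zero h)]
  · exact Eventually.of_forall fun x => by simp only [Pi.zero_apply]; positivity
  · exact Measurable.aestronglyMeasurable (by fun_prop)

theorem rr_eq : ((rr μ l : ℝ) : ℂ) = ∫ x : ℝ, ((l : ℂ) - (x : ℂ))⁻¹ ∂μ := by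
  unfold rr
  rw [← integral_complex_ofReal]
  congr 1
  funext x
  push_cast; rfl

theorem inv_abs_le {x : ℝ} (hx : x ≠ l) : |l - x|⁻¹ ≤ 1 + ((x - l) ^ 2)⁻¹ := by
  have h1 : 0 < |l - x| := abs_pos.mpr (sub_ne_zero.mpr hx.symm)
  have h2 : (x - l) ^ 2 = |l - x| ^ 2 := by rw [sq_abs]; ring
  rw [h2]
  set y := |l - x|
  have h3 : (y ^ 2)⁻¹ = y⁻¹ ^ 2 := by rw [inv_pow]
  rw [h3]
  nlinarith [sq_nonneg (y⁻¹ - 1), inv_pos.mpr h1]

theorem part2a (h : sg μ l ≠ ⊤) :
    Tendsto (fun t : ℝ => st μ ((l : ℂ) + (t : ℂ) * Complex.I)) (𝓝[>] 0) (𝓝 ((rr μ l : ℝ) : ℂ)) := by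
  rw [rr_eq]
  simp only [st_eq]
  apply tendsto_integral_filter_of_dominated_convergence (fun x => 1 + ((x - l) ^ 2)⁻¹)
  · exact Eventually.of_forall fun t => (meas_inv l t).aestronglyMeasurable
  · filter_upwards [ev_pos] with t ht
    filter_upwards [ae_ne (atom_zero h)] with x hx
    refine le_trans ?_ (inv_abs_le hx)
    rw [norm_inv]
    exact inv_anti₀ (abs_pos.mpr (sub_ne_zero.mpr hx.symm)) (zz_norm_ge l t x)
  · exact (integrable_const _).add (int_h h)
  · filter_upwards [ae_ne (atom_zero h)] with x hx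
    have hc : ContinuousAt (fun t : ℝ => (zz l t x)⁻¹) 0 := by
      apply ContinuousAt.inv₀
      · unfold zz; fun_prop
      · simp [zz, sub_eq_zero]
        exact fun h => hx (by exact_mod_cast h.symm)
    have := hc.tendsto
    have e : zz l 0 x = (l : ℂ) - x := by simp [zz]
    rw [e] at this
    exact this.mono_left nhdsWithin_le_nhds

theorem int_rr (h : sg μ l ≠ ⊤) : Integrable (fun x : ℝ => ((l : ℂ) - (x : ℂ))⁻¹) μ := by
  apply Integrable.mono' ((integrable_const (1 : ℝ)).add (int_h h))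
  · exact Measurable.aestronglyMeasurable (by fun_prop)
  · filter_upwards [ae_ne (atom_zero h)] with x hx
    refine le_trans ?_ (inv_abs_le hx)
    rw [norm_inv, ← Complex.ofReal_sub, Complex.norm_real, Real.norm_eq_abs]

theorem part2b (h : sg μ l ≠ ⊤) :
    Tendsto (fun t : ℝ => (st μ ((l : ℂ) + (t : ℂ) * Complex.I) - ((rr μ l : ℝ) : ℂ)) / (t : ℂ))
      (𝓝[>] 0) (𝓝 (-(((sg μ l).toReal : ℝ) : ℂ) * Complex.I)) := by
  have e1 : -(((sg μ l).toReal : ℝ) : ℂ) * Complex.I =
      ∫ x : ℝ, -Complex.I * ((((x - l) ^ 2)⁻¹ : ℝ) : ℂ) ∂μ := by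
    rw [integral_const_mul, integral_complex_ofReal, int_h_eq h]; ring
  rw [e1]
  have e2 : ∀ᶠ t : ℝ in 𝓝[>] 0, ∫ x : ℝ, ((zz l t x)⁻¹ - ((l : ℂ) - (x : ℂ))⁻¹) / (t : ℂ) ∂μ =
      (st μ ((l : ℂ) + (t : ℂ) * Complex.I) - ((rr μ l : ℝ) : ℂ)) / (t : ℂ) := by
    filter_upwards [ev_pos] with t ht
    rw [integral_div, integral_sub (int_inv ht) (int_rr h), rr_eq, st_eq]
  refine Tendsto.congr' e2 ?_
  -- the integrand
  have key : ∀ t : ℝ, 0 < t → ∀ x : ℝ, x ≠ l →
      ((zz l t x)⁻¹ - ((l : ℂ) - (x : ℂ))⁻¹) / (t : ℂ) =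
        -Complex.I * ((zz l t x)⁻¹ * ((l : ℂ) - (x : ℂ))⁻¹) := by
    intro t ht x hx
    have h1 := zz_ne l ht x
    have h2 : (l : ℂ) - (x : ℂ) ≠ 0 := sub_ne_zero.mpr (by exact_mod_cast hx.symm)
    have h3 : (t : ℂ) ≠ 0 := by exact_mod_cast ht.ne'
    field_simp
    unfold zz; ring
  apply tendsto_integral_filter_of_dominated_convergence (fun x => ((x - l) ^ 2)⁻¹)
  · exact Eventually.of_forall fun t => Measurable.aestronglyMeasurable
      (((meas_inv l t).sub (by fun_prop)).div_const _)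
  · filter_upwards [ev_pos] with t ht
    filter_upwards [ae_ne (atom_zero h)] with x hx
    rw [key t ht x hx, norm_mul, norm_neg, Complex.norm_I, one_mul, norm_mul, norm_inv, norm_inv,
      ← Complex.ofReal_sub, Complex.norm_real, Real.norm_eq_abs]
    have h1 : 0 < |l - x| := abs_pos.mpr (sub_ne_zero.mpr hx.symm)
    have h2 : (x - l) ^ 2 = |l - x| * |l - x| := by rw [← sq, sq_abs]; ring
    rw [h2, mul_inv]
    gcongr
    exact zz_norm_ge l t x
  · exact int_h h
  · filter_upwards [ae_ne (atom_zero h)] with x hx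
    have hc : ContinuousAt (fun t : ℝ => -Complex.I * ((zz l t x)⁻¹ * ((l : ℂ) - (x : ℂ))⁻¹)) 0 := by
      apply ContinuousAt.mul continuousAt_const
      apply ContinuousAt.mul _ continuousAt_const
      apply ContinuousAt.inv₀
      · unfold zz; fun_prop
      · simp [zz, sub_eq_zero]
        exact fun h => hx (by exact_mod_cast h.symm)
    have h3 := hc.tendsto.mono_left (nhdsWithin_le_nhds (s := Set.Ioi (0 : ℝ)))
    have e : -Complex.I * ((zz l 0 x)⁻¹ * ((l : ℂ) - (x : ℂ))⁻¹) =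
        -Complex.I * ((((x - l) ^ 2)⁻¹ : ℝ) : ℂ) := by
      congr 1
      have : zz l 0 x = (l : ℂ) - x := by simp [zz]
      rw [this, ← mul_inv]
      push_cast
      congr 1; ring
    rw [e] at h3
    refine h3.congr' ?_
    filter_upwards [ev_pos] with t ht
    exact (key t ht x hx).symm

/-- the integral of the kernel tends to infinity -/
theorem ff_atTop (h : sg μ l = ⊤) : Tendsto (fun t : ℝ => ∫ x, ff l t x ∂μ) (𝓝[>] 0) atTop := by
  have h1 : Tendsto (fun n : ℕ => ∫⁻ x, ENNReal.ofReal (ff l (1 / ((n : ℝ) + 1)) x) ∂μ) atTop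
      (𝓝 (∫⁻ x, (ENNReal.ofReal ((x - l) ^ 2))⁻¹ ∂μ)) := by
    apply lintegral_tendsto_of_tendsto_of_monotone
    · intro n
      exact ((meas_ff l _).ennreal_ofReal).aemeasurable
    · refine Eventually.of_forall fun x m n hmn => ?_
      apply ENNReal.ofReal_le_ofReal
      unfold ff
      apply inv_anti₀ (by positivity)
      have : 1 / ((n : ℝ) + 1) ≤ 1 / ((m : ℝ) + 1) := by
        apply one_div_le_one_div_of_le (by positivity)
        have : (m : ℝ) ≤ n := by exact_mod_cast hmn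
        linarith
      have h0 : 0 ≤ 1 / ((n : ℝ) + 1) := by positivity
      nlinarith
    · refine Eventually.of_forall fun x => ?_
      have e : ∀ n : ℕ, ENNReal.ofReal (ff l (1 / ((n : ℝ) + 1)) x) =
          (ENNReal.ofReal ((l - x) ^ 2 + (1 / ((n : ℝ) + 1)) ^ 2))⁻¹ := by
        intro n
        unfold ff
        rw [ENNReal.ofReal_inv_of_pos (by positivity)]
      simp only [e]
      rw [ENNReal.tendsto_inv_iff]
      apply ENNReal.tendsto_ofReal
      have h2 : Tendsto (fun n : ℕ => 1 / ((n : ℝ) + 1)) atTop (𝓝 0) :=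
        tendsto_one_div_add_atTop_nhds_zero_nat
      have h3 := (tendsto_const_nhds (x := (l - x) ^ 2)).add (h2.pow 2)
      have e3 : (l - x) ^ 2 + 0 ^ 2 = (x - l) ^ 2 := by ring
      rwa [e3] at h3
  have h0 : ∫⁻ x, (ENNReal.ofReal ((x - l) ^ 2))⁻¹ ∂μ = ⊤ := h
  rw [h0] at h1
  rw [tendsto_atTop]
  intro M
  have h2 : ∀ᶠ n : ℕ in atTop, ENNReal.ofReal M < ∫⁻ x, ENNReal.ofReal (ff l (1 / ((n : ℝ) + 1)) x) ∂μ :=
    h1.eventually (lt_mem_nhds ENNReal.ofReal_lt_top)
  obtain ⟨n, hn⟩ := h2.exists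
  have hpos : 0 < 1 / ((n : ℝ) + 1) := by positivity
  have h3 : ∀ᶠ t : ℝ in 𝓝[>] 0, t < 1 / ((n : ℝ) + 1) :=
    (gt_mem_nhds hpos).filter_mono nhdsWithin_le_nhds
  filter_upwards [ev_pos, h3] with t ht ht2
  have h4 : ∫ x, ff l (1 / ((n : ℝ) + 1)) x ∂μ ≤ ∫ x, ff l t x ∂μ := by
    apply integral_mono (int_ff hpos) (int_ff ht)
    intro x
    simp only [ff]
    apply inv_anti₀ (by positivity)
    nlinarith
  refine le_trans ?_ h4
  rw [← ofReal_integral_eq_lintegral_ofReal (int_ff hpos)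
    (Eventually.of_forall fun x => (ff_pos l x hpos).le)] at hn
  exact (ENNReal.ofReal_lt_ofReal_iff'.mp hn).1.le

theorem neg_im {t : ℝ} (ht : 0 < t) :
    -(st μ ((l : ℂ) + (t : ℂ) * Complex.I)).im / t = ∫ x, ff l t x ∂μ := by
  rw [im_st ht]; field_simp

theorem part3 (h : sg μ l = ⊤) :
    Tendsto (fun t : ℝ => -(st μ ((l : ℂ) + (t : ℂ) * Complex.I)).im / t) (𝓝[>] 0) atTop := by
  refine (ff_atTop h).congr' ?_
  filter_upwards [ev_pos] with t ht
  exact (neg_im ht).symm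

theorem bound {t : ℝ} (ht : 0 < t) {h c : ℝ} (hh : 0 < h) (hc : 0 < c) :
    ‖st μ ((l : ℂ) + (t : ℂ) * Complex.I)‖ ≤
      h⁻¹ + (c * (∫ x, ff l t x ∂μ) + μ.real (Set.Icc (l - h) (l + h)) / c) / 2 := by
  rw [st_eq]
  refine (norm_integral_le_integral_norm _).trans ?_
  have e : h⁻¹ + (c * (∫ x, ff l t x ∂μ) + μ.real (Set.Icc (l - h) (l + h)) / c) / 2 =
      ∫ x, (h⁻¹ + (c * ff l t x + (Set.Icc (l - h) (l + h)).indicator (fun _ => (1 : ℝ)) x / c) / 2) ∂μ := by
    rw [integral_add (integrable_const _), integral_div, integral_add ((int_ff ht).const_mul _),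
      integral_const_mul, integral_div, integral_indicator measurableSet_Icc]
    · simp [Measure.real]
    · apply Integrable.div_const
      exact (integrable_const (1 : ℝ)).indicator measurableSet_Icc
    · apply Integrable.div_const
      apply Integrable.add ((int_ff ht).const_mul _)
      apply Integrable.div_const
      exact (integrable_const (1 : ℝ)).indicator measurableSet_Icc
  rw [e]
  apply integral_mono (int_inv ht).norm
  · apply (integrable_const _).add
    apply Integrable.div_const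
    apply Integrable.add ((int_ff ht).const_mul _)
    apply Integrable.div_const
    exact (integrable_const (1 : ℝ)).indicator measurableSet_Icc
  · intro x
    simp only
    by_cases hx : x ∈ Set.Icc (l - h) (l + h)
    · rw [Set.indicator_of_mem hx]
      have h1 := inv_norm_sq l t x
      set y := ‖(zz l t x)⁻¹‖ with hy
      rw [← h1]
      have h2 : 0 < h⁻¹ := inv_pos.mpr hh
      have h3 : y ≤ (c * y ^ 2 + 1 / c) / 2 := by
        rw [le_div_iff₀ two_pos]
        have h4 : c * y ^ 2 + 1 / c - y * 2 = (c * y - 1) ^ 2 / c := by field_simp; ring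
        have h5 : 0 ≤ (c * y - 1) ^ 2 / c := by positivity
        linarith
      linarith
    · rw [Set.indicator_of_notMem hx]
      have h1 : h ≤ |l - x| := by
        by_contra hlt
        rw [not_le, abs_lt] at hlt
        exact hx ⟨by linarith, by linarith⟩
      have h2 : ‖(zz l t x)⁻¹‖ ≤ h⁻¹ := by
        rw [norm_inv]; exact inv_anti₀ hh (h1.trans (zz_norm_ge l t x))
      have h3 := (ff_pos l x ht)
      have h4 : 0 < c * ff l t x := mul_pos hc h3
      simp only [zero_div, add_zero]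
      linarith

theorem part4 (h : sg μ l = ⊤) (h0 : μ {l} = 0) :
    Tendsto (fun t : ℝ => ‖st μ ((l : ℂ) + (t : ℂ) * Complex.I)‖ ^ 2 * t /
      (-(st μ ((l : ℂ) + (t : ℂ) * Complex.I)).im)) (𝓝[>] 0) (𝓝 0) := by
  have e1 : ∀ᶠ t : ℝ in 𝓝[>] 0, ‖st μ ((l : ℂ) + (t : ℂ) * Complex.I)‖ ^ 2 / (∫ x, ff l t x ∂μ) =
      ‖st μ ((l : ℂ) + (t : ℂ) * Complex.I)‖ ^ 2 * t /
      (-(st μ ((l : ℂ) + (t : ℂ) * Complex.I)).im) := by
    filter_upwards [ev_pos] with t ht
    rw [← neg_im (μ := μ) (l := l) ht, div_div_eq_mul_div]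
  refine Tendsto.congr' e1 ?_
  rw [Metric.tendsto_nhds]
  intro ε hε
  -- choose h
  set η := ε / 4 with hη
  have hη0 : 0 < η := by positivity
  obtain ⟨δ, hδ, hδ2⟩ : ∃ δ > 0, μ.real (Set.Icc (l - δ) (l + δ)) < η := by
    have h1 : Tendsto (fun n : ℕ => μ (Set.Icc (l - 1 / ((n : ℝ) + 1)) (l + 1 / ((n : ℝ) + 1)))) atTop
        (𝓝 (μ (⋂ n : ℕ, Set.Icc (l - 1 / ((n : ℝ) + 1)) (l + 1 / ((n : ℝ) + 1))))) := by
      apply tendsto_measure_iInter_atTop
      · exact fun n => measurableSet_Icc.nullMeasurableSet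
      · intro m n hmn
        apply Set.Icc_subset_Icc
        · have : 1 / ((n : ℝ) + 1) ≤ 1 / ((m : ℝ) + 1) := by
            apply one_div_le_one_div_of_le (by positivity)
            have : (m : ℝ) ≤ n := by exact_mod_cast hmn
            linarith
          linarith
        · have : 1 / ((n : ℝ) + 1) ≤ 1 / ((m : ℝ) + 1) := by
            apply one_div_le_one_div_of_le (by positivity)
            have : (m : ℝ) ≤ n := by exact_mod_cast hmn
            linarith
          linarith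
      · exact ⟨0, measure_ne_top _ _⟩
    have h2 : (⋂ n : ℕ, Set.Icc (l - 1 / ((n : ℝ) + 1)) (l + 1 / ((n : ℝ) + 1))) = {l} := by
      ext x
      simp only [Set.mem_iInter, Set.mem_Icc, Set.mem_singleton_iff]
      constructor
      · intro hx
        have h3 : Tendsto (fun n : ℕ => 1 / ((n : ℝ) + 1)) atTop (𝓝 0) :=
          tendsto_one_div_add_atTop_nhds_zero_nat
        apply le_antisymm
        · have h4 := h3.const_add l
          rw [add_zero] at h4
          exact ge_of_tendsto' h4 fun n => (hx n).2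
        · have h4 := h3.const_sub l
          rw [sub_zero] at h4
          exact le_of_tendsto' h4 fun n => (hx n).1
      · rintro rfl n
        have : 0 < 1 / ((n : ℝ) + 1) := by positivity
        constructor <;> linarith
    rw [h2, h0] at h1
    have h3 : ∀ᶠ n : ℕ in atTop,
        μ (Set.Icc (l - 1 / ((n : ℝ) + 1)) (l + 1 / ((n : ℝ) + 1))) < ENNReal.ofReal η :=
      h1.eventually (gt_mem_nhds (ENNReal.ofReal_pos.mpr hη0))
    obtain ⟨n, hn⟩ := h3.exists
    refine ⟨1 / ((n : ℝ) + 1), by positivity, ?_⟩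
    rw [Measure.real]
    rw [← ENNReal.toReal_ofReal hη0.le]
    exact (ENNReal.toReal_lt_toReal (measure_ne_top _ _) ENNReal.ofReal_ne_top).mpr hn
  have h4 := (ff_atTop h).eventually (eventually_gt_atTop (2 / (δ ^ 2 * η)))
  filter_upwards [ev_pos, h4] with t ht hs
  set s := ∫ x, ff l t x ∂μ with hsdef
  have hs0 : 0 < s := lt_trans (by positivity) hs
  have hb := bound (μ := μ) (l := l) ht hδ (c := √η / √s) (by positivity)
  rw [← hsdef] at hb
  set S := ‖st μ ((l : ℂ) + (t : ℂ) * Complex.I)‖ with hS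
  have hS0 : 0 ≤ S := norm_nonneg _
  have hb2 : S ≤ δ⁻¹ + √η * √s := by
    refine hb.trans ?_
    have e2 : √η / √s * s = √η * √s := by
      have := Real.mul_self_sqrt hs0.le
      have h5 : √s ≠ 0 := by positivity
      field_simp
      linarith
    have e3 : μ.real (Set.Icc (l - δ) (l + δ)) / (√η / √s) ≤ √η * √s := by
      rw [div_div_eq_mul_div, div_le_iff₀ (by positivity)]
      have := Real.mul_self_sqrt hη0.le
      have h5 : 0 < √s := by positivity
      calc μ.real (Set.Icc (l - δ) (l + δ)) * √s ≤ η * √s := by gcongr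
        _ = (√η * √η) * √s := by rw [this]
        _ = √η * √s * √η := by ring
    rw [e2]
    linarith
  have hb3 : S ^ 2 ≤ 2 * (δ ^ 2)⁻¹ + 2 * (η * s) := by
    have e4 : (√η * √s) ^ 2 = η * s := by
      rw [mul_pow, Real.sq_sqrt hη0.le, Real.sq_sqrt hs0.le]
    have e5 : (δ⁻¹) ^ 2 = (δ ^ 2)⁻¹ := by rw [inv_pow]
    have e6 : S ^ 2 ≤ (δ⁻¹ + √η * √s) ^ 2 := by gcongr
    nlinarith [sq_nonneg (δ⁻¹ - √η * √s)]
  rw [dist_zero_right, Real.norm_of_nonneg (by positivity), div_lt_iff₀ hs0]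
  have e7 : 2 * (δ ^ 2)⁻¹ < η * s := by
    have := (div_lt_iff₀ (by positivity)).mp hs
    have e8 : 2 * (δ ^ 2)⁻¹ = 2 / δ ^ 2 := by rw [div_eq_mul_inv]
    rw [e8, div_lt_iff₀ (by positivity)]
    nlinarith
  have e9 : ε = 4 * η := by rw [hη]; ring
  rw [e9]
  nlinarith [mul_pos hη0 hs0]

end

theorem x : Pool.Agent.W909.UG.TaskB1 := by
  intro μ hμ l
  refine ⟨part1, fun h => ⟨atom_zero h, ENNReal.toReal_pos sg_ne_zero h, part2a h, part2b h⟩,
    part3, part4⟩

end

end Pool.Agent.W991.UGB1
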