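import Mathlib
import Pool.Agent.W909.UG.Defs

/-! UG-M and UG-C: measurable dependence of the spectral measure on the tree, and the moments. -/

namespace Pool.Agent.W991.UGM

open MeasureTheory ProbabilityTheory Filter Topology Polynomial
open Pool.Agent.W909.UG

set_option autoImplicit false

noncomputable section

/-! ### walks -/

theorem meas_mem (D k : ℕ) (f : Fin (k + 1) → List ℕ) :
    MeasurableSet {N : Tr | f ∈ walks (cut D N) k} := by
  have e : {N : Tr | f ∈ walks (cut D N) k} =
      {N : Tr | (f 0 = [] ∧ f (Fin.last k) = [] ∧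
        ∀ i : Fin k, (∃ a : ℕ, f i.succ = f i.castSucc ++ [a]) ∨
          (∃ a : ℕ, f i.castSucc = f i.succ ++ [a]))} ∩
      ⋂ (i : Fin (k + 1)), ⋂ (j : ℕ), {N : Tr | j < (f i).length →
        (f i).getD j 0 < min (N ((f i).take j)) D} := by
    ext N
    simp only [Set.mem_inter_iff, Set.mem_iInter, Set.mem_ofPred_eq, walks, cut]
    tauto
  rw [e]
  refine (MeasurableSet.const _).inter (MeasurableSet.iInter fun i => MeasurableSet.iInter fun j => ?_)
  by_cases hj : j < (f i).length
  · have h1 : Measurable fun N : Tr => min (N ((f i).take j)) D :=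
      (measurable_pi_apply _).min measurable_const
    have : {N : Tr | j < (f i).length → (f i).getD j 0 < min (N ((f i).take j)) D} =
        (fun N : Tr => min (N ((f i).take j)) D) ⁻¹' (Set.Ioi ((f i).getD j 0)) := by
      ext N; simp [hj]
    rw [this]
    exact h1 measurableSet_Ioi
  · have : {N : Tr | j < (f i).length → (f i).getD j 0 < min (N ((f i).take j)) D} = Set.univ := by
      ext N; simp [hj]
    rw [this]; exact MeasurableSet.univ

theorem meas_eq (D k : ℕ) (W : Set (Fin (k + 1) → List ℕ)) :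
    MeasurableSet {N : Tr | walks (cut D N) k = W} := by
  have e : {N : Tr | walks (cut D N) k = W} =
      ⋂ f : Fin (k + 1) → List ℕ, {N : Tr | f ∈ walks (cut D N) k ↔ f ∈ W} := by
    ext N
    simp only [Set.mem_iInter, Set.mem_ofPred_eq, Set.ext_iff]
  rw [e]
  refine MeasurableSet.iInter fun f => ?_
  by_cases hf : f ∈ W
  · simp only [hf, iff_true]; exact meas_mem D k f
  · simp only [hf, iff_false]; exact (meas_mem D k f).compl

theorem meas_ncard (D k : ℕ) : Measurable fun N : Tr => (walks (cut D N) k).ncard := by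
  have h1 : ∀ m : ℕ, m ≠ 0 → MeasurableSet ((fun N : Tr => (walks (cut D N) k).ncard) ⁻¹' {m}) := by
    intro m hm
    have e : (fun N : Tr => (walks (cut D N) k).ncard) ⁻¹' {m} =
        ⋃ W : Finset (Fin (k + 1) → List ℕ), {N : Tr | W.card = m ∧ walks (cut D N) k = W} := by
      ext N
      simp only [Set.mem_preimage, Set.mem_singleton_iff, Set.mem_iUnion, Set.mem_ofPred_eq]
      constructor
      · intro h
        have hfin : (walks (cut D N) k).Finite := Set.finite_of_ncard_ne_zero (by rw [h]; exact hm)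
        exact ⟨hfin.toFinset, by rw [← h, Set.ncard_eq_toFinset_card _ hfin], by simp⟩
      · rintro ⟨W, hW, h⟩
        rw [h, Set.ncard_coe_finset, hW]
    rw [e]
    refine MeasurableSet.iUnion fun W => ?_
    exact (MeasurableSet.const _).inter (meas_eq D k _)
  apply measurable_to_countable'
  intro m
  by_cases hm : m = 0
  · subst hm
    have e : (fun N : Tr => (walks (cut D N) k).ncard) ⁻¹' {0} =
        (⋃ m : ℕ, (fun N : Tr => (walks (cut D N) k).ncard) ⁻¹' {m + 1})ᶜ := by
      ext N
      simp only [Set.mem_preimage, Set.mem_singleton_iff, Set.mem_compl_iff, Set.mem_iUnion,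
        not_exists]
      constructor
      · intro h m hm; omega
      · intro h
        by_contra h0
        exact h ((walks (cut D N) k).ncard - 1) (by omega)
    rw [e]
    exact (MeasurableSet.iUnion fun m => h1 (m + 1) (by omega)).compl
  · exact h1 m hm

/-! ### measures on an interval -/

section
variable {P : Measure ℝ} [IsProbabilityMeasure P] {R : ℝ} (hP : P (Set.Icc (-R) R)ᶜ = 0)

include hP in
theorem ae_mem : ∀ᵐ x ∂P, x ∈ Set.Icc (-R) R := by
  rw [ae_iff]; exact hP

include hP in
theorem bd_cont {g : ℝ → ℝ} (hg : Continuous g) : ∃ C, ∀ x ∈ Set.Icc (-R) R, ‖g x‖ ≤ C := by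
  obtain ⟨C, hC⟩ := isCompact_Icc.exists_bound_of_continuousOn (s := Set.Icc (-R) R) hg.continuousOn
  exact ⟨C, hC⟩

include hP in
theorem int_cont {g : ℝ → ℝ} (hg : Continuous g) : Integrable g P := by
  obtain ⟨C, hC⟩ := bd_cont hP hg
  exact Integrable.of_bound hg.aestronglyMeasurable C ((ae_mem hP).mono fun x hx => hC x hx)

include hP in
theorem norm_int_le {g : ℝ → ℝ} {C : ℝ} (hC : ∀ x ∈ Set.Icc (-R) R, ‖g x‖ ≤ C) :
    ‖∫ x, g x ∂P‖ ≤ C := by
  have := norm_integral_le_of_norm_le_const ((ae_mem hP).mono fun x hx => hC x hx)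
  simpa using this

include hP in
theorem close {g : ℝ → ℝ} (hg : Continuous g) {p : ℝ[X]} {ε : ℝ}
    (h : ∀ x ∈ Set.Icc (-R) R, |p.eval x - g x| < ε) :
    ‖∫ x, p.eval x ∂P - ∫ x, g x ∂P‖ ≤ ε := by
  rw [← integral_sub (int_cont hP p.continuous) (int_cont hP hg)]
  exact norm_int_le hP fun x hx => (h x hx).le

include hP in
theorem int_poly (p : ℝ[X]) : ∫ x, p.eval x ∂P =
    ∑ i ∈ Finset.range (p.natDegree + 1), p.coeff i * ∫ x, x ^ i ∂P := by
  simp only [Polynomial.eval_eq_sum_range]
  rw [integral_finsetSum]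
  · refine Finset.sum_congr rfl fun i _ => ?_
    rw [integral_const_mul]
  · intro i _
    exact int_cont hP (by fun_prop)

end

/-! ### the family -/

section
variable {D : ℕ} {μ : Tr → Measure ℝ} (hμ : IsSpec D μ)

theorem bdd_cut (D : ℕ) (N : Tr) : Bdd D (cut D N) := fun w => min_le_right _ _

theorem cut_eq {D : ℕ} {N : Tr} (h : Bdd D N) : cut D N = N := by
  funext w; exact min_eq_left (h w)

include hμ in
theorem meas_poly (p : ℝ[X]) : Measurable fun N : Tr => ∫ x, p.eval x ∂(μ (cut D N)) := by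
  have e : (fun N : Tr => ∫ x, p.eval x ∂(μ (cut D N))) = fun N : Tr =>
      ∑ i ∈ Finset.range (p.natDegree + 1), p.coeff i * ((walks (cut D N) i).ncard : ℝ) := by
    funext N
    have := hμ.prob _ (bdd_cut D N)
    rw [int_poly (hμ.supp _ (bdd_cut D N))]
    simp only [hμ.mom _ (bdd_cut D N)]
  rw [e]
  refine Finset.measurable_fun_sum _ fun i _ => ?_
  exact (measurable_from_nat.comp (meas_ncard D i)).const_mul _

include hμ in
theorem meas_cont {g : ℝ → ℝ} (hg : Continuous g) :
    Measurable fun N : Tr => ∫ x, g x ∂(μ (cut D N)) := by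
  choose p hp using fun n : ℕ => exists_polynomial_near_of_continuousOn (-(2 * (D : ℝ) + 2))
    (2 * (D : ℝ) + 2) g hg.continuousOn (1 / ((n : ℝ) + 1)) (by positivity)
  refine measurable_of_tendsto_metrizable (fun n => meas_poly hμ (p n)) ?_
  rw [tendsto_pi_nhds]
  intro N
  have := hμ.prob _ (bdd_cut D N)
  rw [tendsto_iff_norm_sub_tendsto_zero]
  refine squeeze_zero (fun n => norm_nonneg _) (fun n => ?_) tendsto_one_div_add_atTop_nhds_zero_nat
  exact close (hμ.supp _ (bdd_cut D N)) hg (hp n)

include hμ in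
theorem meas_mu : Measurable fun N : Tr => μ (cut D N) := by
  have hprob : ∀ N : Tr, IsProbabilityMeasure (μ (cut D N)) := fun N => hμ.prob _ (bdd_cut D N)
  apply Measurable.measure_of_isPiSystem_of_isProbabilityMeasure (S := {F : Set ℝ | IsClosed F})
  · rw [BorelSpace.measurable_eq (α := ℝ), borel_eq_generateFrom_isClosed]
  · exact isPiSystem_isClosed
  · intro F hF
    have hF' : IsClosed F := hF
    have h1 : ∀ n : ℕ, Measurable fun N : Tr => ∫⁻ x, (hF'.apprSeq n x : ENNReal) ∂(μ (cut D N)) := by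
      intro n
      have hc : Continuous fun x => ((hF'.apprSeq n x : NNReal) : ℝ) :=
        NNReal.continuous_coe.comp (hF'.apprSeq n).continuous
      have e : (fun N : Tr => ∫⁻ x, (hF'.apprSeq n x : ENNReal) ∂(μ (cut D N))) =
          fun N : Tr => ENNReal.ofReal (∫ x, ((hF'.apprSeq n x : NNReal) : ℝ) ∂(μ (cut D N))) := by
        funext N
        rw [lintegral_coe_eq_integral]
        exact int_cont (hμ.supp _ (bdd_cut D N)) hc
      rw [e]
      exact (meas_cont hμ hc).ennreal_ofReal
    refine measurable_of_tendsto_metrizable h1 ?_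
    rw [tendsto_pi_nhds]
    intro N
    exact HasOuterApproxClosed.tendsto_lintegral_apprSeq hF' (μ (cut D N))

theorem xM : Pool.Agent.W909.UG.TaskM := fun _ _ hμ => meas_mu hμ

end

/-! ### the moments -/

theorem xC : Pool.Agent.W909.UG.TaskC := by
  intro D μ hμ hmeas U hU hbd ν hν hR hmom l
  obtain ⟨R0, hR0⟩ := hR
  -- common radius
  set R : ℝ := max R0 (2 * (D : ℝ) + 2) with hRdef
  have hνR : ν (Set.Icc (-R) R)ᶜ = 0 := by
    refine measure_mono_null ?_ hR0
    apply Set.compl_subset_compl.mpr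
    exact Set.Icc_subset_Icc (neg_le_neg (le_max_left _ _)) (le_max_left _ _)
  have hprob : ∀ N : Tr, IsProbabilityMeasure (μ (cut D N)) := fun N => hμ.prob _ (bdd_cut D N)
  have hμR : ∀ N : Tr, μ (cut D N) (Set.Icc (-R) R)ᶜ = 0 := by
    intro N
    refine measure_mono_null ?_ (hμ.supp _ (bdd_cut D N))
    apply Set.compl_subset_compl.mpr
    exact Set.Icc_subset_Icc (neg_le_neg (le_max_right _ _)) (le_max_right _ _)
  have hIntU : ∀ g : ℝ → ℝ, Continuous g → Integrable (fun N => ∫ x, g x ∂(μ (cut D N))) U := by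
    intro g hg
    obtain ⟨C, hC⟩ := bd_cont (P := ν) hνR hg
    exact Integrable.of_bound (meas_cont hμ hg).aestronglyMeasurable C
      (Eventually.of_forall fun N => norm_int_le (hμR N) hC)
  have hpoly : ∀ p : ℝ[X], ∫ x, p.eval x ∂ν = ∫ N, (∫ x, p.eval x ∂(μ (cut D N))) ∂U := by
    intro p
    rw [int_poly hνR]
    have e : ∀ N : Tr, ∫ x, p.eval x ∂(μ (cut D N)) =
        ∑ i ∈ Finset.range (p.natDegree + 1), p.coeff i * ∫ x, x ^ i ∂(μ (cut D N)) :=
      fun N => int_poly (hμR N) p
    simp only [e]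
    rw [integral_finsetSum]
    · refine Finset.sum_congr rfl fun i _ => ?_
      rw [integral_const_mul, hmom i]
      congr 1
      apply integral_congr_ae
      filter_upwards [hbd] with N hN
      rw [hμ.mom _ (bdd_cut D N), cut_eq hN]
    · intro i _
      exact (hIntU (fun x => x ^ i) (by fun_prop)).const_mul _
  have hcont : ∀ g : ℝ → ℝ, Continuous g → ∫ x, g x ∂ν = ∫ N, (∫ x, g x ∂(μ (cut D N))) ∂U := by
    intro g hg
    by_contra hne
    set δ := ‖∫ x, g x ∂ν - ∫ N, (∫ x, g x ∂(μ (cut D N))) ∂U‖ with hδ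
    have hδ0 : 0 < δ := norm_pos_iff.mpr (sub_ne_zero.mpr hne)
    obtain ⟨p, hp⟩ := exists_polynomial_near_of_continuousOn (-R) R g hg.continuousOn (δ / 4)
      (by positivity)
    have h1 := close hνR hg hp
    have h2 : ‖∫ N, (∫ x, p.eval x ∂(μ (cut D N))) ∂U - ∫ N, (∫ x, g x ∂(μ (cut D N))) ∂U‖ ≤ δ / 4 := by
      rw [← integral_sub (hIntU _ p.continuous) (hIntU g hg)]
      have := norm_integral_le_of_norm_le_const (μ := U) (C := δ / 4)
        (f := fun N => ∫ x, p.eval x ∂(μ (cut D N)) - ∫ x, g x ∂(μ (cut D N)))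
        (Eventually.of_forall fun N => close (hμR N) hg hp)
      simpa using this
    rw [hpoly p] at h1
    have h3 : δ ≤ ‖∫ N, (∫ x, p.eval x ∂(μ (cut D N))) ∂U - ∫ x, g x ∂ν‖ +
        ‖∫ N, (∫ x, p.eval x ∂(μ (cut D N))) ∂U - ∫ N, (∫ x, g x ∂(μ (cut D N))) ∂U‖ := by
      rw [hδ]
      calc _ = ‖(∫ N, (∫ x, p.eval x ∂(μ (cut D N))) ∂U - ∫ N, (∫ x, g x ∂(μ (cut D N))) ∂U) -
            (∫ N, (∫ x, p.eval x ∂(μ (cut D N))) ∂U - ∫ x, g x ∂ν)‖ := by congr 1; ring
        _ ≤ _ := (norm_sub_le _ _).trans (by rw [add_comm])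
    linarith
  -- the mixture
  set κ : Measure ℝ := U.bind (fun N => μ (cut D N)) with hκ
  have hκp : IsProbabilityMeasure κ := by
    constructor
    rw [hκ, Measure.bind_apply MeasurableSet.univ hmeas.aemeasurable]
    simp
  have heq : ν = κ := by
    apply ext_of_forall_lintegral_eq_of_IsFiniteMeasure
    intro f
    have hc : Continuous fun x => ((f x : NNReal) : ℝ) := NNReal.continuous_coe.comp f.continuous
    rw [lintegral_coe_eq_integral (fun x => f x) (int_cont hνR hc), hcont _ hc]
    rw [hκ, Measure.lintegral_bind hmeas.aemeasurable (by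
      exact (ENNReal.continuous_coe.comp f.continuous).measurable.aemeasurable)]
    rw [ofReal_integral_eq_lintegral_ofReal (hIntU _ hc)
      (Eventually.of_forall fun N => integral_nonneg fun x => NNReal.coe_nonneg _)]
    refine lintegral_congr fun N => ?_
    rw [lintegral_coe_eq_integral (fun x => f x) (int_cont (hμR N) hc)]
  rw [heq, hκ, Measure.bind_apply (measurableSet_singleton l) hmeas.aemeasurable]

end

end Pool.Agent.W991.UGM
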