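import Pool.Agent.W894.HT.MLib
import Pool.Agent.W352.HTCh3
import Pool.Agent.H549R2.Convex6

/-!
# HN-CRT: residues modulo coprime numbers
-/

set_option autoImplicit false

namespace Pool.Agent.W991.HNCrt

open Pool.Agent.NPC Pool.Agent.NPC.Cnt
open Pool.Agent.W894.HT

theorem poly_of_fp {f : List Bool → ℕ} (hf : FP f) : Poly f :=
  Poly.of_natBits (Pool.Agent.NPC.W352HTCh3.polyV (V := fun x => (f x).bits) hf Poly.id)

theorem crt_key {a b : ℕ} (hab : a.Coprime b) : ∃ u v : ℕ, ∀ n : ℕ,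
    n % (a * b) = (u * (n % a) + v * (n % b)) % (a * b) := by
  obtain ⟨u, hu1, hu2⟩ := Nat.chineseRemainder hab 1 0
  obtain ⟨v, hv1, hv2⟩ := Nat.chineseRemainder hab 0 1
  refine ⟨u, v, fun n => ?_⟩
  show n ≡ u * (n % a) + v * (n % b) [MOD a * b]
  rw [← Nat.modEq_and_modEq_iff_modEq_mul hab]
  constructor
  · have h1 : u * (n % a) ≡ 1 * n [MOD a] := Nat.ModEq.mul hu1 (Nat.mod_modEq n a)
    have h2 : v * (n % b) ≡ 0 * (n % b) [MOD a] := Nat.ModEq.mul_right _ hv1
    have h3 := h1.add h2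
    rw [one_mul, zero_mul, add_zero] at h3
    exact h3.symm
  · have h1 : u * (n % a) ≡ 0 * (n % a) [MOD b] := Nat.ModEq.mul_right _ hu2
    have h2 : v * (n % b) ≡ 1 * n [MOD b] := Nat.ModEq.mul hv2 (Nat.mod_modEq n b)
    have h3 := h1.add h2
    rw [one_mul, zero_mul, zero_add] at h3
    exact h3.symm

theorem main : S_CRT := by
  intro f a b ha hb hab h1 h2
  obtain ⟨u, v, huv⟩ := crt_key hab
  have e : (fun x => f x % (a * b)) = fun x => (u * (f x % a) + v * (f x % b)) % (a * b) := by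
    funext x
    exact huv (f x)
  rw [e]
  refine Pool.Agent.NPC.H549Convex.fp_of_poly ?_
  have hu : Pool.Agent.NPC.Poly (fun _ : List Bool => u) := Pool.Agent.NPC.Poly.const u
  have hv : Pool.Agent.NPC.Poly (fun _ : List Bool => v) := Pool.Agent.NPC.Poly.const v
  have hab' : Pool.Agent.NPC.Poly (fun _ : List Bool => a * b) :=
    Pool.Agent.NPC.Poly.const (a * b)
  exact Pool.Agent.NPC.Poly.mod (Pool.Agent.NPC.Poly.add
    (Pool.Agent.NPC.Poly.mul hu (poly_of_fp h1))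
    (Pool.Agent.NPC.Poly.mul hv (poly_of_fp h2))) hab'

end Pool.Agent.W991.HNCrt
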