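import Mathlib
import Pool.Agent.W459.CI.Defs

/-! CI-COMP: the matrix of the test is primitive recursive. -/

namespace Pool.Agent.W991.CIComp

open Pool.Agent.W459.CI
open Primrec

set_option autoImplicit false

section
variable {γ : Type} [Primcodable γ] {δ : Type} [Primcodable δ]

theorem all_mem {l : γ → List δ} (hl : Primrec l) {P : γ → δ → Prop} (hP : PrimrecRel P) :
    PrimrecPred fun c => ∀ a ∈ l c, P c a := by
  have h1 : PrimrecRel fun (a : δ) (c : γ) => P c a := hP.swap
  exact (h1.forall_mem_list).comp hl Primrec.id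

theorem ex_mem {l : γ → List δ} (hl : Primrec l) {P : γ → δ → Prop} (hP : PrimrecRel P) :
    PrimrecPred fun c => ∃ a ∈ l c, P c a := by
  have h1 : PrimrecRel fun (a : δ) (c : γ) => P c a := hP.swap
  exact (h1.exists_mem_list).comp hl Primrec.id

theorem all_lt {n : γ → ℕ} (hn : Primrec n) {P : γ → ℕ → Prop} (hP : PrimrecRel P) :
    PrimrecPred fun c => ∀ a < n c, P c a := by
  have := all_mem (Primrec.list_range.comp hn) hP
  exact this.of_eq (fun c => by simp)

theorem imp {p q : γ → Prop} (hp : PrimrecPred p) (hq : PrimrecPred q) :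
    PrimrecPred fun c => p c → q c := by
  refine (hp.not.or hq).of_eq fun c => ?_
  tauto

theorem tru {f : γ → Bool} (hf : Primrec f) : PrimrecPred fun c => f c = true :=
  Primrec.eq.comp hf (Primrec.const true)

theorem fls {f : γ → Bool} (hf : Primrec f) : PrimrecPred fun c => f c = false :=
  Primrec.eq.comp hf (Primrec.const false)

theorem mem {x : γ → δ} {l : γ → List δ} (hx : Primrec x) (hl : Primrec l) :
    PrimrecPred fun c => x c ∈ l c := by
  have := ex_mem (P := fun c a => a = x c) hl (Primrec.eq.comp Primrec.snd (hx.comp Primrec.fst))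
  exact this.of_eq (fun c => by simp)

theorem p_bl : Primrec bl := by
  have h : Primrec₂ fun (_ : ℕ) (p : ℕ × List (List Bool)) =>
      p.2.map (List.cons false) ++ p.2.map (List.cons true) := by
    refine Primrec.list_append.comp ?_ ?_
    · exact Primrec.list_map (Primrec.snd.comp Primrec.snd)
        (Primrec.list_cons.comp (Primrec.const false) Primrec.snd)
    · exact Primrec.list_map (Primrec.snd.comp Primrec.snd)
        (Primrec.list_cons.comp (Primrec.const true) Primrec.snd)
  refine (Primrec.nat_rec' Primrec.id (Primrec.const [[]]) h).of_eq fun n => ?_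
  induction n with
  | zero => rfl
  | succ n ih =>
    simp only [id] at ih ⊢
    show _ = (bl n).map (List.cons false) ++ (bl n).map (List.cons true)
    rw [← ih]

theorem p_pow : Primrec fun n : ℕ => 2 ^ n := by
  have h : Primrec₂ fun (_ : ℕ) (p : ℕ × ℕ) => p.2 * 2 :=
    Primrec.nat_mul.comp (Primrec.snd.comp Primrec.snd) (Primrec.const 2)
  refine (Primrec.nat_rec' Primrec.id (Primrec.const 1) h).of_eq fun n => ?_
  induction n with
  | zero => rfl
  | succ n ih =>
    simp only [id] at ih ⊢
    rw [pow_succ, ← ih]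

theorem p_lk (df : Bool) {α : γ → List Bool} {d : γ → ℕ} {σ : γ → List Bool} (hα : Primrec α)
    (hd : Primrec d) (hσ : Primrec σ) : Primrec fun c => lk df (α c) (d c) (σ c) :=
  (Primrec.list_getD df).comp hα (Primrec.encode.comp (hd.pair hσ))

theorem p_edge (df : Bool) {α : γ → List Bool} {d m k : γ → ℕ} {x y : γ → List Bool}
    (hα : Primrec α) (hd : Primrec d) (hm : Primrec m) (hk : Primrec k) (hx : Primrec x)
    (hy : Primrec y) : PrimrecPred fun c => edge df (α c) (d c) (m c) (k c) (x c) (y c) := by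
  unfold edge
  refine all_lt (Primrec.succ.comp hk) ?_
  refine imp (Primrec.nat_le.comp (hm.comp Primrec.fst) Primrec.snd) ?_
  refine (tru ?_).or (tru ?_)
  · exact p_lk df (hα.comp Primrec.fst) (hd.comp Primrec.fst)
      (Primrec.list_take.comp Primrec.snd (hx.comp Primrec.fst))
  · exact p_lk df (hα.comp Primrec.fst) (hd.comp Primrec.fst)
      (Primrec.list_take.comp Primrec.snd (hy.comp Primrec.fst))

theorem p_cov (df : Bool) {α : γ → List Bool} {d m k : γ → ℕ} {F G : γ → List (List Bool)}
    (hα : Primrec α) (hd : Primrec d) (hm : Primrec m) (hk : Primrec k) (hF : Primrec F)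
    (hG : Primrec G) : PrimrecPred fun c => cov df (α c) (d c) (m c) (k c) (F c) (G c) := by
  unfold cov
  refine all_mem (p_bl.comp hk) ?_
  refine all_mem (P := fun (c : γ × List Bool) y => edge df (α c.1) (d c.1) (m c.1) (k c.1) c.2 y →
    (c.2 ∈ F c.1 ∨ y ∈ G c.1)) (p_bl.comp (hk.comp Primrec.fst)) ?_
  refine imp ?_ ?_
  · exact p_edge df (hα.comp (fst.comp fst)) (hd.comp (fst.comp fst)) (hm.comp (fst.comp fst))
      (hk.comp (fst.comp fst)) (snd.comp fst) snd
  · exact (mem (snd.comp fst) (hF.comp (fst.comp fst))).or (mem snd (hG.comp (fst.comp fst)))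

theorem p_len {l : γ → List δ} (hl : Primrec l) : Primrec fun c => (l c).length :=
  Primrec.list_length.comp hl

theorem p_add {f g : γ → ℕ} (hf : Primrec f) (hg : Primrec g) : Primrec fun c => f c + g c :=
  Primrec.nat_add.comp hf hg

theorem p_mul {f g : γ → ℕ} (hf : Primrec f) (hg : Primrec g) : Primrec fun c => f c * g c :=
  Primrec.nat_mul.comp hf hg

theorem p_two {f : γ → ℕ} (hf : Primrec f) : Primrec fun c => 2 ^ (f c) := p_pow.comp hf

theorem p_le {f g : γ → ℕ} (hf : Primrec f) (hg : Primrec g) : PrimrecPred fun c => f c ≤ g c :=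
  Primrec.nat_le.comp hf hg

theorem p_lt {f g : γ → ℕ} (hf : Primrec f) (hg : Primrec g) : PrimrecPred fun c => f c < g c :=
  Primrec.nat_lt.comp hf hg

theorem p_eq {f g : γ → δ} (hf : Primrec f) (hg : Primrec g) : PrimrecPred fun c => f c = g c :=
  Primrec.eq.comp hf hg

theorem p_ineq {e k : γ → ℕ} {F G : γ → List (List Bool)} {cc : γ → Cv} (he : Primrec e)
    (hk : Primrec k) (hF : Primrec F) (hG : Primrec G) (hc : Primrec cc) :
    PrimrecPred fun c => ineq (e c) (k c) (F c) (G c) (cc c) := by
  unfold ineq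
  exact p_le (p_mul (p_mul (p_add (p_len hF) (p_len hG)) (p_two (fst.comp hc))) (p_two he))
    (p_add (p_mul (p_mul (p_add (p_len (fst.comp (snd.comp hc))) (p_len (snd.comp (snd.comp hc))))
      (p_two hk)) (p_two he)) (p_two (p_add hk (fst.comp hc))))

theorem p_dec5 : Primrec dec5 :=
  Primrec.option_getD.comp (Primrec.decode (α := St)) (Primrec.const _)

theorem p_dec3 : Primrec dec3 :=
  Primrec.option_getD.comp (Primrec.decode (α := Cv)) (Primrec.const _)

theorem p_dec2 : Primrec dec2 :=
  Primrec.option_getD.comp (Primrec.decode (α := ℕ × List Bool)) (Primrec.const _)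

theorem p_dec4 : Primrec dec4 :=
  Primrec.option_getD.comp (Primrec.decode (α := Wt)) (Primrec.const _)

theorem p_Th {s : γ → St} {α : γ → List Bool} (hs : Primrec s) (hα : Primrec α) :
    PrimrecPred fun c => Th (s c) (α c) := by
  unfold Th
  refine PrimrecPred.and ?_ ?_
  · exact p_cov false hα (fst.comp hs) (fst.comp (snd.comp hs)) (fst.comp (snd.comp (snd.comp hs)))
      (fst.comp (snd.comp (snd.comp (snd.comp hs)))) (snd.comp (snd.comp (snd.comp (snd.comp hs))))
  · refine all_lt (p_len hα) ?_
    have hs' := hs.comp (fst (α := γ) (β := ℕ))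
    have hd : Primrec fun c : γ × ℕ => dec3 c.2 := p_dec3.comp snd
    refine imp ?_ ?_
    · exact p_cov true (hα.comp fst) (fst.comp hs') (fst.comp (snd.comp hs')) (fst.comp hd)
        (fst.comp (snd.comp hd)) (snd.comp (snd.comp hd))
    · exact p_ineq (Primrec.succ.comp (p_add (fst.comp hs') (fst.comp (snd.comp hs'))))
        (fst.comp (snd.comp (snd.comp hs'))) (fst.comp (snd.comp (snd.comp (snd.comp hs'))))
        (snd.comp (snd.comp (snd.comp (snd.comp hs')))) hd

theorem p_cnt {α : γ → List Bool} {d n : γ → ℕ} (hα : Primrec α) (hd : Primrec d)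
    (hn : Primrec n) : Primrec fun c => cnt (α c) (d c) (n c) := by
  unfold cnt
  have hR : PrimrecRel fun (σ : List Bool) (c : γ) => lk false (α c) (d c) σ = true :=
    tru (p_lk false (hα.comp snd) (hd.comp snd) fst)
  have := (Primrec.list_length.comp ((hR.listFilter).comp (p_bl.comp hn) Primrec.id))
  refine this.of_eq fun c => ?_
  simp

theorem p_C0 {f : (ℕ × List Bool) × ℕ → Bool} (hf : Primrec f) {α : γ → List Bool}
    (hα : Primrec α) : PrimrecPred fun c => C0 f (α c) := by
  unfold C0
  refine PrimrecPred.and ?_ ?_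
  · refine all_lt (p_len hα) ?_
    refine imp (tru ?_) (tru ?_)
    · exact hf.comp ((p_dec2.comp snd).pair (p_len (hα.comp fst)))
    · exact (Primrec.list_getD false).comp (hα.comp fst) snd
  · refine all_lt (Primrec.succ.comp (p_len hα)) ?_
    refine all_lt (P := fun (c : γ × ℕ) n => cnt (α c.1) c.2 n * 2 ^ c.2 ≤ 2 ^ n)
      (Primrec.succ.comp (p_len (hα.comp fst))) ?_
    exact p_le (p_mul (p_cnt (hα.comp (fst.comp fst)) (snd.comp fst) snd) (p_two (snd.comp fst)))
      (p_two snd)

theorem p_N {f : (ℕ × List Bool) × ℕ → Bool} (hf : Primrec f) {β α : γ → List Bool}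
    (hβ : Primrec β) (hα : Primrec α) : PrimrecPred fun c => N f (β c) (α c) := by
  unfold N
  refine (p_C0 hf hα).and ?_
  refine all_lt (p_len hβ) ?_
  refine imp (tru ?_) ?_
  · exact (Primrec.list_getD false).comp (hβ.comp fst) snd
  · exact p_Th (p_dec5.comp snd) (hα.comp fst)

theorem p_Chosen {β : γ → List Bool} {d m j : γ → ℕ} (hβ : Primrec β) (hd : Primrec d)
    (hm : Primrec m) (hj : Primrec j) : PrimrecPred fun c => Chosen (β c) (d c) (m c) (j c) := by
  unfold Chosen
  refine (p_lt hj (p_len hβ)).and (PrimrecPred.and ?_ ?_)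
  · exact (tru ((Primrec.list_getD false).comp hβ hj)).and
      ((p_eq (fst.comp (p_dec5.comp hj)) hd).and (p_eq (fst.comp (snd.comp (p_dec5.comp hj))) hm))
  · refine all_lt hj ?_
    refine PrimrecPred.not ?_
    exact (tru ((Primrec.list_getD false).comp (hβ.comp fst) snd)).and
      ((p_eq (fst.comp (p_dec5.comp snd)) (hd.comp fst)).and
        (p_eq (fst.comp (snd.comp (p_dec5.comp snd))) (hm.comp fst)))

theorem p_kk : Primrec kk := fst.comp (snd.comp (snd.comp p_dec5))

theorem p_side (s : Bool) : Primrec (side s) := by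
  cases s
  · exact (snd.comp (snd.comp (snd.comp (snd.comp p_dec5)))).of_eq fun j => rfl
  · exact (fst.comp (snd.comp (snd.comp (snd.comp p_dec5)))).of_eq fun j => rfl

theorem p_sum {l : γ → List ℕ} (hl : Primrec l) : Primrec fun c => (l c).sum := by
  have h : Primrec₂ fun (_ : γ) (p : ℕ × ℕ) => p.1 + p.2 :=
    Primrec.nat_add.comp (fst.comp snd) (snd.comp snd)
  exact (Primrec.list_foldr hl (Primrec.const 0) h).of_eq fun c => by
    simp only [List.sum]

theorem p_Sel (s : Bool) {k d : γ → ℕ} {σ β : γ → List Bool} {js : γ → List ℕ} (hk : Primrec k)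
    (hσ : Primrec σ) (hβ : Primrec β) (hd : Primrec d) (hjs : Primrec js) :
    PrimrecPred fun c => Sel s (k c) (σ c) (β c) (d c) (js c) := by
  unfold Sel
  have h3 : Primrec fun c => k c + 3 := p_add hk (Primrec.const 3)
  refine (p_le h3 hd).and ((p_lt (Primrec.const 0) (p_len hjs)).and (PrimrecPred.and ?_
    (PrimrecPred.and ?_ (PrimrecPred.and ?_ ?_))))
  · refine all_lt (p_len hjs) ?_
    exact p_Chosen (hβ.comp fst) (hd.comp fst) snd ((Primrec.list_getD 0).comp (hjs.comp fst) snd)
  · exact p_eq (p_len hσ) (p_sum (Primrec.list_map hjs (p_kk.comp snd)))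
  · have h4 : Primrec fun c => (js c).getD ((js c).length - 1) 0 :=
      (Primrec.list_getD 0).comp hjs (Primrec.nat_sub.comp (p_len hjs) (Primrec.const 1))
    exact mem (Primrec.list_take.comp (p_kk.comp h4) hσ) ((p_side s).comp h4)
  · refine all_lt (Primrec.nat_sub.comp (p_len hjs) (Primrec.const 1)) ?_
    refine PrimrecPred.not ?_
    have h4 : Primrec fun c : γ × ℕ => (js c.1).getD c.2 0 :=
      (Primrec.list_getD 0).comp (hjs.comp fst) snd
    exact mem (Primrec.list_take.comp (p_kk.comp h4) (hσ.comp fst)) ((p_side s).comp h4)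

end

theorem main : Pool.Agent.W459.CI.StmComp := by
  intro f hf s
  unfold RR
  have hw : Primrec fun x : ℕ × List Bool × ℕ × ℕ => dec4 x.2.2.1 :=
    p_dec4.comp (fst.comp (snd.comp snd))
  refine PrimrecPred.and ?_ (PrimrecPred.and ?_ ?_)
  · refine ex_mem (p_bl.comp (snd.comp (snd.comp snd))) ?_
    exact p_N hf (fst.comp (hw.comp fst)) snd
  · refine all_lt (p_len (fst.comp hw)) ?_
    refine imp (fls ?_) (PrimrecPred.not ?_)
    · exact (Primrec.list_getD false).comp (fst.comp (hw.comp fst)) snd
    · refine ex_mem (p_bl.comp (fst.comp (snd.comp (hw.comp fst)))) ?_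
      refine p_N hf ?_ snd
      exact Primrec.list_append.comp
        (Primrec.list_take.comp (snd.comp fst) (fst.comp (hw.comp (fst.comp fst))))
        (Primrec.const [true])
  · exact p_Sel s fst (fst.comp snd) (fst.comp hw) (fst.comp (snd.comp (snd.comp hw)))
      (snd.comp (snd.comp (snd.comp hw)))

end Pool.Agent.W991.CIComp
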