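import Mathlib
import Pool.Agent.W459.CI.Defs

/-! CI-KON: forcing along a sequence of statements, Koenig lemma. -/

namespace Pool.Agent.W991.CIKon

open Topology

set_option autoImplicit false

/-- initial segment -/
def seg (b : ℕ → Bool) (n : ℕ) : List Bool := List.ofFn fun i : Fin n => b i

theorem seg_succ (b : ℕ → Bool) (n : ℕ) : seg b (n + 1) = seg b n ++ [b n] := by
  unfold seg
  rw [List.ofFn_succ']
  simp

theorem seg_add (b : ℕ → Bool) (n k : ℕ) : ∃ l, seg b (n + k) = seg b n ++ l := by
  unfold seg
  rw [List.ofFn_add]
  exact ⟨_, rfl⟩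

theorem seg_length (b : ℕ → Bool) (n : ℕ) : (seg b n).length = n := by simp [seg]

theorem seg_getD (α : List Bool) : seg (fun i => α.getD i false) α.length = α := by
  unfold seg
  apply List.ext_getElem
  · simp
  · intro i h1 h2
    simp [h2]

theorem main : Pool.Agent.W459.CI.StmKon := by
  classical
  intro N h1 h2 h3 h4
  set Ok : List Bool → Prop := fun b => ∀ t : ℕ, ∃ α, α.length = t ∧ N b α with hOk
  let p : ℕ → List Bool := fun n => Nat.rec [] (fun _ q => q ++ [decide (Ok (q ++ [true]))]) n
  let b : ℕ → Bool := fun n => decide (Ok (p n ++ [true]))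
  have hp : ∀ n, p (n + 1) = p n ++ [b n] := fun n => rfl
  have hpb : ∀ n, p n = seg b n := by
    intro n
    induction n with
    | zero => rfl
    | succ n ih => rw [hp, seg_succ, ih]
  have hok : ∀ n, Ok (p n) := by
    intro n
    induction n with
    | zero => exact h4
    | succ n ih =>
      rw [hp]
      by_cases h : Ok (p n ++ [true])
      · have : b n = true := by simp only [b, decide_eq_true_eq]; exact h
        rw [this]; exact h
      · have : b n = false := by simp only [b, decide_eq_false_iff_not]; exact h
        rw [this]
        intro t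
        obtain ⟨α, ha, hN⟩ := ih t
        exact ⟨α, ha, h3 _ _ hN⟩
  -- compactness
  have hK : (⋂ t : ℕ, {Z : ℕ → Bool | N (p t) (seg Z t)}).Nonempty := by
    have hclosed : ∀ t : ℕ, IsClosed {Z : ℕ → Bool | N (p t) (seg Z t)} := by
      intro t
      have hc : Continuous fun (Z : ℕ → Bool) (i : Fin t) => Z i :=
        continuous_pi fun i => continuous_apply _
      have : {Z : ℕ → Bool | N (p t) (seg Z t)} =
          (fun (Z : ℕ → Bool) (i : Fin t) => Z i) ⁻¹' {g | N (p t) (List.ofFn g)} := rfl
      rw [this]
      exact (isClosed_discrete _).preimage hc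
    apply IsCompact.nonempty_iInter_of_sequence_nonempty_isCompact_isClosed
    · intro t Z hZ
      have hZ' : N (p (t + 1)) (seg Z (t + 1)) := hZ
      rw [hp, seg_succ] at hZ'
      exact h1 _ _ _ (h2 _ _ _ hZ')
    · intro t
      obtain ⟨α, ha, hN⟩ := hok t t
      refine ⟨fun i => α.getD i false, ?_⟩
      show N (p t) (seg (fun i => α.getD i false) t)
      rw [← ha] at hN ⊢
      rw [seg_getD]; exact hN
    · exact (hclosed 0).isCompact
    · exact hclosed
  obtain ⟨Z, hZ⟩ := hK
  have hZ' : ∀ t, N (p t) (seg Z t) := fun t => Set.mem_iInter.mp hZ t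
  refine ⟨b, Z, ?_, ?_, ?_⟩
  · intro n t
    show N (seg b n) (seg Z t)
    obtain ⟨l1, e1⟩ := seg_add b n t
    obtain ⟨l2, e2⟩ := seg_add Z t n
    have h := hZ' (n + t)
    rw [hpb, e1] at h
    rw [Nat.add_comm n t, e2] at h
    exact h1 _ _ _ (h2 _ _ _ h)
  · intro n hn
    have h : ¬ Ok (p n ++ [true]) := by
      simp only [b, decide_eq_false_iff_not] at hn; exact hn
    rw [hpb] at h
    simp only [hOk] at h
    push Not at h
    exact h
  · intro β hβ hβ2
    have key : ∀ i, i ≤ β.length → β.take i = p i := by
      intro i
      induction i with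
      | zero => intro _; rfl
      | succ i ih =>
        intro hi
        have hi' : i < β.length := hi
        have e : β.take (i + 1) = β.take i ++ [β.getD i false] := by
          rw [List.take_succ_eq_append_getElem hi']
          simp [hi']
        rw [e, ih hi'.le, hp]
        congr 2
        by_cases hb : β.getD i false = true
        · rw [hb]
          have h5 : Ok (p i ++ [true]) := by
            intro t
            obtain ⟨α, ha, hN⟩ := hβ t
            refine ⟨α, ha, ?_⟩
            rw [← List.take_append_drop (i + 1) β, e, ih hi'.le, hb] at hN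
            exact h2 _ _ _ hN
          simp only [b]
          exact (decide_eq_true h5).symm
        · have hb' : β.getD i false = false := by simpa using hb
          rw [hb']
          obtain ⟨t, ht⟩ := hβ2 i hi' hb'
          have h5 : ¬ Ok (p i ++ [true]) := by
            intro hh
            obtain ⟨α, ha, hN⟩ := hh t
            apply ht α ha
            rw [ih hi'.le]; exact hN
          simp only [b]
          exact (decide_eq_false h5).symm
    have := key β.length le_rfl
    rw [List.take_length, hpb] at this
    exact this

end Pool.Agent.W991.CIKon
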