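import Mathlib
import Pool.Agent.W459.CI.Defs

/-! CI-ENUM, CI-COVER, CI-CYL. -/

namespace Pool.Agent.W991.CIRest

open Pool.Agent.W459.CI (bl)

set_option autoImplicit false

/-! ### CI-ENUM -/

theorem enum : Pool.Agent.W459.CI.StmEnum := by
  classical
  intro U hU
  obtain ⟨c, hc⟩ := Nat.Partrec.Code.exists_code.mp hU
  have hev : ∀ e, Nat.Partrec.Code.eval c e =
      Part.bind (Encodable.decode (α := List Bool) e : Part (List Bool)) fun a => (U a).map Encodable.encode := by
    intro e; rw [hc]
  set R : ((ℕ × List Bool) × ℕ) → ℕ → Prop := fun x e =>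
    Nat.Partrec.Code.evaln x.2 c e = some (Encodable.encode x.1.2) ∧
      ((Encodable.decode (α := List Bool) e).getD []).length + x.1.1 < x.1.2.length with hR
  have hRp : PrimrecRel R := by
    refine PrimrecPred.and ?_ ?_
    · refine Primrec.eq.comp ?_ ?_
      · exact Nat.Partrec.Code.primrec_evaln.comp
          (((Primrec.snd.comp Primrec.fst).pair (Primrec.const c)).pair Primrec.snd)
      · exact Primrec.option_some.comp (Primrec.encode.comp (Primrec.snd.comp (Primrec.fst.comp Primrec.fst)))
    · refine Primrec.nat_lt.comp ?_ ?_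
      · refine Primrec.nat_add.comp ?_ (Primrec.fst.comp (Primrec.fst.comp Primrec.fst))
        exact Primrec.list_length.comp (Primrec.option_getD.comp
          ((Primrec.decode (α := List Bool)).comp Primrec.snd) (Primrec.const []))
      · exact Primrec.list_length.comp (Primrec.snd.comp (Primrec.fst.comp Primrec.fst))
  have hP : PrimrecPred fun x : (ℕ × List Bool) × ℕ => ∃ e ∈ List.range x.2, R x e := by
    have h1 : PrimrecRel fun (e : ℕ) (x : (ℕ × List Bool) × ℕ) => R x e := hRp.swap
    exact (h1.exists_mem_list).comp (Primrec.list_range.comp Primrec.snd) Primrec.id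
  refine ⟨fun x => decide (∃ e ∈ List.range x.2, R x e), hP.decide, ?_, ?_⟩
  · intro d σ
    constructor
    · rintro ⟨q, hq, hlen⟩
      have h1 : Encodable.encode σ ∈ Nat.Partrec.Code.eval c (Encodable.encode q) := by
        rw [hev, Encodable.encodek]
        simp only [Part.coe_some, Part.bind_some]
        exact Part.mem_map _ hq
      obtain ⟨k, hk⟩ := Nat.Partrec.Code.evaln_complete.mp h1
      refine ⟨k, ?_⟩
      rw [decide_eq_true_eq]
      refine ⟨Encodable.encode q, List.mem_range.mpr (Nat.Partrec.Code.evaln_bound hk), hk, ?_⟩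
      rw [Encodable.encodek]
      exact hlen
    · rintro ⟨t, ht⟩
      rw [decide_eq_true_eq] at ht
      obtain ⟨e, _, h1, h2⟩ := ht
      have h3 : Encodable.encode σ ∈ Nat.Partrec.Code.eval c e := Nat.Partrec.Code.evaln_sound h1
      rw [hev] at h3
      obtain ⟨q, hq, h4⟩ := Part.mem_bind_iff.mp h3
      obtain ⟨τ, hτ, h5⟩ := (Part.mem_map_iff _).mp h4
      have h6 : τ = σ := Encodable.encode_injective h5
      subst h6
      refine ⟨q, hτ, ?_⟩
      have h7 : Encodable.decode (α := List Bool) e = some q := by
        simpa using hq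
      simp only [h7, Option.getD_some] at h2
      exact h2
  · intro x t t' htt ht
    rw [decide_eq_true_eq] at ht ⊢
    obtain ⟨e, he, h1, h2⟩ := ht
    refine ⟨e, List.mem_range.mpr (lt_of_lt_of_le (List.mem_range.mp he) htt), ?_, h2⟩
    exact Nat.Partrec.Code.evaln_mono htt h1

/-! ### CI-CYL -/

theorem mem_bl (n : ℕ) (z : List Bool) : z ∈ bl n ↔ z.length = n := by
  induction n generalizing z with
  | zero => simp [bl, List.length_eq_zero_iff]
  | succ n ih =>
    simp only [bl, List.mem_append, List.mem_map]
    constructor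
    · rintro (⟨a, ha, rfl⟩ | ⟨a, ha, rfl⟩) <;> simp [(ih a).mp ha]
    · intro h
      match z, h with
      | b :: a, h =>
        have ha : a ∈ bl n := (ih a).mpr (by simpa using h)
        cases b
        · exact Or.inl ⟨a, ha, rfl⟩
        · exact Or.inr ⟨a, ha, rfl⟩

theorem length_bl (n : ℕ) : (bl n).length = 2 ^ n := by
  induction n with
  | zero => rfl
  | succ n ih => simp [bl, ih, pow_succ]; ring

theorem nodup_bl (n : ℕ) : (bl n).Nodup := by
  induction n with
  | zero => simp [bl]
  | succ n ih =>
    simp only [bl]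
    rw [List.nodup_append]
    refine ⟨ih.map (List.cons_injective), ih.map (List.cons_injective), ?_⟩
    intro a ha b hb
    obtain ⟨a', _, rfl⟩ := List.mem_map.mp ha
    obtain ⟨b', _, rfl⟩ := List.mem_map.mp hb
    simp

theorem cyl : Pool.Agent.W459.CI.StmCyl := by
  classical
  intro k K hkK P hP
  have hcard : (bl (K - k)).toFinset.card = 2 ^ (K - k) := by
    rw [List.toFinset_card_of_nodup (nodup_bl _), length_bl]
  rw [← hcard, ← Finset.card_product]
  refine Finset.card_nbij' (fun z => (z.take k, z.drop k)) (fun p => p.1 ++ p.2) ?_ ?_ ?_ ?_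
  · intro z hz
    simp only [Finset.coe_filter, List.mem_toFinset, mem_bl, Set.mem_ofPred_eq] at hz
    simp only [Finset.coe_product, Finset.coe_filter, List.mem_toFinset, mem_bl, Set.mem_prod,
      Set.mem_ofPred_eq, Finset.mem_coe, List.length_take, List.length_drop]
    exact ⟨⟨by omega, hz.2⟩, by omega⟩
  · rintro ⟨a, b⟩ hp
    simp only [Finset.coe_product, Finset.coe_filter, List.mem_toFinset, mem_bl, Set.mem_prod,
      Set.mem_ofPred_eq, Finset.mem_coe] at hp
    simp only [Finset.coe_filter, List.mem_toFinset, mem_bl, Set.mem_ofPred_eq, List.length_append]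
    obtain ⟨⟨h1, h2⟩, h3⟩ := hp
    refine ⟨by omega, ?_⟩
    rw [← h1, List.take_left']
    · exact h2
    · rfl
  · intro z _
    simp
  · rintro ⟨a, b⟩ hp
    simp only [Finset.coe_product, Finset.coe_filter, List.mem_toFinset, mem_bl, Set.mem_prod,
      Set.mem_ofPred_eq, Finset.mem_coe] at hp
    obtain ⟨⟨h1, h2⟩, h3⟩ := hp
    simp [← h1]

/-! ### CI-COVER -/

theorem cover : Pool.Agent.W459.CI.StmCover := by
  classical
  intro V W _ _ M E F G e A B hE hcov hopt hAB
  set U : Finset V := (Finset.range (M + 1)).biUnion F with hU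
  -- last index
  set S : ℕ → Finset V := fun m => (F m).filter fun x => x ∉ A ∧ ∀ i, m < i → i ≤ M → x ∉ F i with hS
  set T : ℕ → Finset W := fun m => B.filter fun y => (∃ x ∈ S m, E m x y) ∧ y ∉ G m with hT
  have h1 : ∀ m, m ≤ M → ((S m).card : ℝ) ≤ (T m).card + e m := by
    intro m hm
    have := hopt m hm (F m \ S m) (G m ∪ T m) (by
      intro x y hxy
      rcases hcov m hm x y hxy with hx | hy
      · by_cases hxS : x ∈ S m
        · right
          by_cases hyG : y ∈ G m
          · exact Finset.mem_union_left _ hyG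
          · refine Finset.mem_union_right _ ?_
            rw [hT, Finset.mem_filter]
            refine ⟨?_, ⟨x, hxS, hxy⟩, hyG⟩
            rcases hAB x y (hE m M x y hm hxy) with h | h
            · rw [hS, Finset.mem_filter] at hxS
              exact absurd h hxS.2.1
            · exact h
        · left; exact Finset.mem_sdiff.mpr ⟨hx, hxS⟩
      · right; exact Finset.mem_union_left _ hy)
    have hSF : S m ⊆ F m := Finset.filter_subset _ _
    have c1 : ((F m \ S m).card : ℝ) = (F m).card - (S m).card := by
      rw [Finset.card_sdiff_of_subset hSF, Nat.cast_sub (Finset.card_le_card hSF)]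
    have c2 : ((G m ∪ T m).card : ℝ) ≤ (G m).card + (T m).card := by
      exact_mod_cast Finset.card_union_le _ _
    linarith
  have h2 : ∀ m ∈ Finset.range (M + 1), ∀ i ∈ Finset.range (M + 1), m ≠ i → Disjoint (T m) (T i) := by
    have key : ∀ m i, m < i → i ≤ M → Disjoint (T m) (T i) := by
      intro m i hmi hi
      rw [Finset.disjoint_left]
      intro y hy hy'
      rw [hT, Finset.mem_filter] at hy hy'
      obtain ⟨_, ⟨x, hxS, hxy⟩, _⟩ := hy
      rw [hS, Finset.mem_filter] at hxS
      rcases hcov i hi x y (hE m i x y hmi.le hxy) with h | h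
      · exact hxS.2.2 i hmi hi h
      · exact hy'.2.2 h
    intro m hm i hi hne
    rw [Finset.mem_range] at hm hi
    rcases lt_or_gt_of_ne hne with h | h
    · exact key m i h (by omega)
    · exact (key i m h (by omega)).symm
  have h3 : U ⊆ A ∪ (Finset.range (M + 1)).biUnion S := by
    intro x hx
    by_cases hxA : x ∈ A
    · exact Finset.mem_union_left _ hxA
    · refine Finset.mem_union_right _ ?_
      rw [hU, Finset.mem_biUnion] at hx
      obtain ⟨m, hm, hxm⟩ := hx
      rw [Finset.mem_range] at hm
      -- last index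
      have hne : ((Finset.range (M + 1)).filter fun i => x ∈ F i).Nonempty :=
        ⟨m, Finset.mem_filter.mpr ⟨Finset.mem_range.mpr hm, hxm⟩⟩
      set l := ((Finset.range (M + 1)).filter fun i => x ∈ F i).max' hne with hl
      have hl1 := Finset.max'_mem _ hne
      rw [← hl, Finset.mem_filter] at hl1
      rw [Finset.mem_biUnion]
      refine ⟨l, hl1.1, ?_⟩
      rw [hS, Finset.mem_filter]
      refine ⟨hl1.2, hxA, fun i hi hiM hxi => ?_⟩
      have := Finset.le_max' ((Finset.range (M + 1)).filter fun i => x ∈ F i) i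
        (Finset.mem_filter.mpr ⟨Finset.mem_range.mpr (by omega), hxi⟩)
      omega
  have h4 : (U.card : ℝ) ≤ A.card + ∑ m ∈ Finset.range (M + 1), ((S m).card : ℝ) := by
    have := (Finset.card_le_card h3).trans (Finset.card_union_le _ _)
    have h5 := Finset.card_biUnion_le (s := Finset.range (M + 1)) (t := S)
    exact_mod_cast this.trans (Nat.add_le_add_left h5 _)
  have h5 : ∑ m ∈ Finset.range (M + 1), ((T m).card : ℝ) ≤ B.card := by
    have h6 : ((Finset.range (M + 1)).biUnion T).card = ∑ m ∈ Finset.range (M + 1), (T m).card :=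
      Finset.card_biUnion h2
    have h7 : (Finset.range (M + 1)).biUnion T ⊆ B := by
      intro y hy
      rw [Finset.mem_biUnion] at hy
      obtain ⟨m, _, hy⟩ := hy
      exact (Finset.mem_filter.mp hy).1
    have h8 := Finset.card_le_card h7
    rw [h6] at h8
    exact_mod_cast h8
  have h6 : ∑ m ∈ Finset.range (M + 1), ((S m).card : ℝ) ≤
      ∑ m ∈ Finset.range (M + 1), ((T m).card : ℝ) + ∑ m ∈ Finset.range (M + 1), e m := by
    rw [← Finset.sum_add_distrib]
    refine Finset.sum_le_sum fun m hm => h1 m ?_
    have := Finset.mem_range.mp hm; omega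
  linarith

end Pool.Agent.W991.CIRest
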