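import Pool.Agent.W527.CL.Stm

set_option autoImplicit false

namespace Pool.Agent.W991.CL

open NumberField Pool.Agent.W527.CL

variable {K : Type} [Field K] [NumberField K]

theorem perm_eq (D : FieldData K) {φ : K →+* ℂ} {p : Equiv.Perm (Fin 5)}
    (h : ∀ k, φ (D.b k) = D.β (p k)) : D.perm φ = p := by
  ext k
  have h1 : D.β (D.perm φ k) = D.β (p k) := by rw [← D.perm_spec, h]
  rw [D.inj h1]

theorem perm_surj (D : FieldData K) (p : Equiv.Perm (Fin 5)) : ∃ φ, D.perm φ = p := by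
  obtain ⟨φ, hφ⟩ := D.surj p
  exact ⟨φ, perm_eq D hφ⟩

theorem perm_comp (D : FieldData K) (τ : ℂ ≃+* ℂ) (π : Equiv.Perm (Fin 5))
    (h : ∀ k, τ (D.β k) = D.β (π k)) (φ : K →+* ℂ) :
    D.perm ((τ : ℂ →+* ℂ).comp φ) = π * D.perm φ := by
  apply perm_eq
  intro k
  rw [RingHom.comp_apply, D.perm_spec]
  exact h _

theorem perm_conj (D : FieldData K) (φ : K →+* ℂ) :
    D.perm (ComplexEmbedding.conjugate φ) = Equiv.swap 3 4 * D.perm φ := by
  apply perm_eq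
  intro k
  rw [ComplexEmbedding.conjugate_coe_eq, D.perm_spec, D.conj]
  rfl

/-- composition with an automorphism -/
def cmp (τ : ℂ ≃+* ℂ) : (K →+* ℂ) ≃ (K →+* ℂ) where
  toFun φ := (τ : ℂ →+* ℂ).comp φ
  invFun φ := (τ.symm : ℂ →+* ℂ).comp φ
  left_inv φ := by
    ext x
    simp
  right_inv φ := by
    ext x
    simp

theorem kill_comp {N : AddSubgroup ((K →+* ℂ) → ℤ)} (hN : Stable K N) {z : (K →+* ℂ) → ℝ}
    (hz : ∀ n ∈ N, ∑ φ, (n φ : ℝ) * z φ = 0) (τ : ℂ ≃+* ℂ) :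
    ∀ n ∈ N, ∑ φ, (n φ : ℝ) * z ((τ : ℂ →+* ℂ).comp φ) = 0 := by
  intro n hn
  have h1 := hz _ (hN τ.symm n hn)
  rw [← (cmp τ).sum_comp] at h1
  rw [← h1]
  apply Finset.sum_congr rfl
  intro φ _
  have h2 : (τ.symm : ℂ →+* ℂ).comp (cmp τ φ) = φ := (cmp τ).left_inv φ
  rw [h2]
  rfl

theorem conj_comp (φ : K →+* ℂ) : ((starRingAut : ℂ ≃+* ℂ) : ℂ →+* ℂ).comp φ =
    ComplexEmbedding.conjugate φ := by
  ext x
  rfl

/-- the averaged vector -/
noncomputable def avg (z : (K →+* ℂ) → ℝ) (τ : ℂ ≃+* ℂ) (φ : K →+* ℂ) : ℝ :=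
  (z ((τ : ℂ →+* ℂ).comp φ) + z ((τ : ℂ →+* ℂ).comp (ComplexEmbedding.conjugate φ))) / 2

theorem avg_mem {N : AddSubgroup ((K →+* ℂ) → ℤ)} (hN : Stable K N) {z : (K →+* ℂ) → ℝ}
    (hz : z ∈ Real0 K N) (τ : ℂ ≃+* ℂ) : avg z τ ∈ Real0 K N := by
  obtain ⟨h1, h2⟩ := hz
  refine ⟨fun φ => ?_, fun n hn => ?_⟩
  · unfold avg
    have h3 : ComplexEmbedding.conjugate (ComplexEmbedding.conjugate φ) = φ := by
      ext x
      simp
    rw [h3, add_comm]
  · have h3 := kill_comp hN h2 τ n hn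
    have h4 := kill_comp hN (kill_comp hN h2 τ) (starRingAut : ℂ ≃+* ℂ) n hn
    simp only [conj_comp] at h4
    unfold avg
    have h5 : ∑ φ, (n φ : ℝ) * ((z ((τ : ℂ →+* ℂ).comp φ) +
        z ((τ : ℂ →+* ℂ).comp (ComplexEmbedding.conjugate φ))) / 2) =
        (∑ φ, (n φ : ℝ) * z ((τ : ℂ →+* ℂ).comp φ) +
          ∑ φ, (n φ : ℝ) * z ((τ : ℂ →+* ℂ).comp (ComplexEmbedding.conjugate φ))) / 2 := by
      rw [← Finset.sum_add_distrib, Finset.sum_div]
      apply Finset.sum_congr rfl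
      intro φ _
      ring
    rw [h5, h3, h4]
    norm_num

theorem key (D : FieldData K) (hA : S_AUT) (hZ : S_ZERO) {N : AddSubgroup ((K →+* ℂ) → ℤ)}
    (hN : Stable K N)
    (hR0 : ∀ z ∈ Real0 K N, ∃ X : Matrix (Fin 4) (Fin 4) ℝ, X.IsSymm ∧
      ∀ φ, z φ = ev (D.mu X) (D.perm φ)) {z : (K →+* ℂ) → ℝ} (hz : z ∈ Real0 K N)
    (X : Matrix (Fin 4) (Fin 4) ℝ) (hX : ∀ φ, z φ = ev (D.mu X) (D.perm φ))
    (π : Equiv.Perm (Fin 5)) :
    ∑ i, (D.lam i 0 - D.lam i 2) * (D.mu X i (π 0) - D.mu X i (π 1)) =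
      ∑ i, (D.lam i 0 - D.lam i 1) * (D.mu X i (π 0) - D.mu X i (π 2)) := by
  obtain ⟨τ, hτ⟩ := hA K D π
  obtain ⟨X', hX's, hX'⟩ := hR0 _ (avg_mem hN hz τ)
  set ν : Fin 4 → Fin 5 → ℝ := fun i k =>
    (D.mu X i (π k) + D.mu X i (π (Equiv.swap 3 4 k))) / 2 - D.mu X' i k with hν
  have h0 : ∀ p, ev ν p = 0 := by
    intro p
    obtain ⟨φ, rfl⟩ := perm_surj D p
    have h1 := hX' φ
    unfold avg at h1
    rw [hX, hX, perm_comp D τ π hτ, perm_comp D τ π hτ, perm_conj] at h1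
    have h2 : ev ν (D.perm φ) = (ev (D.mu X) (π * D.perm φ) +
        ev (D.mu X) (π * (Equiv.swap 3 4 * D.perm φ))) / 2 - ev (D.mu X') (D.perm φ) := by
      unfold ev
      rw [← Finset.sum_add_distrib, Finset.sum_div, ← Finset.sum_sub_distrib]
      apply Finset.sum_congr rfl
      intro i _
      simp only [hν, Equiv.Perm.mul_apply]
      ring
    rw [h2, h1, sub_self]
  have hc := hZ ℝ ν h0
  have e0 : (Equiv.swap 3 4 : Equiv.Perm (Fin 5)) 0 = 0 := by decide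
  have e1 : (Equiv.swap 3 4 : Equiv.Perm (Fin 5)) 1 = 1 := by decide
  have e2 : (Equiv.swap 3 4 : Equiv.Perm (Fin 5)) 2 = 2 := by decide
  have h1 : ∀ i, D.mu X i (π 0) - D.mu X i (π 1) = D.mu X' i 0 - D.mu X' i 1 := by
    intro i
    have h := hc i 0 1
    simp only [hν, e0, e1] at h
    linarith
  have h2 : ∀ i, D.mu X i (π 0) - D.mu X i (π 2) = D.mu X' i 0 - D.mu X' i 2 := by
    intro i
    have h := hc i 0 2
    simp only [hν, e0, e2] at h
    linarith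
  simp only [h1, h2]
  have h3 : ∀ (i : Fin 4) (k : Fin 5), D.mu X' i 0 - D.mu X' i k =
      ∑ j, X' i j * (D.lam j 0 - D.lam j k) := by
    intro i k
    unfold FieldData.mu
    rw [← Finset.sum_sub_distrib]
    apply Finset.sum_congr rfl
    intro j _
    ring
  simp only [h3, Finset.mul_sum]
  rw [Finset.sum_comm]
  apply Finset.sum_congr rfl
  intro i _
  apply Finset.sum_congr rfl
  intro j _
  have h4 : X' j i = X' i j := by
    have := congrFun (congrFun hX's i) j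
    simpa [Matrix.transpose_apply] using this
  rw [h4]
  ring

theorem star_eq (D : FieldData K) (hA : S_AUT) (hZ : S_ZERO)
    {N : AddSubgroup ((K →+* ℂ) → ℤ)} (hN : Stable K N)
    (hR0 : ∀ z ∈ Real0 K N, ∃ X : Matrix (Fin 4) (Fin 4) ℝ, X.IsSymm ∧
      ∀ φ, z φ = ev (D.mu X) (D.perm φ)) {z : (K →+* ℂ) → ℝ} (hz : z ∈ Real0 K N)
    (X : Matrix (Fin 4) (Fin 4) ℝ) (hX : ∀ φ, z φ = ev (D.mu X) (D.perm φ)) (k k' : Fin 5) :
    ∑ i, (D.lam i 0 - D.lam i 1) * (D.mu X i k - D.mu X i k') = 0 := by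
  rcases eq_or_ne k k' with rfl | hne
  · simp
  obtain ⟨π, h2, h3⟩ : ∃ π : Equiv.Perm (Fin 5), π 2 = k ∧ π 3 = k' := by
    revert hne
    revert k k'
    decide
  have a1 := key D hA hZ hN hR0 hz X hX π
  have a2 := key D hA hZ hN hR0 hz X hX (π * Equiv.swap 2 3)
  have e0 : (π * Equiv.swap 2 3 : Equiv.Perm (Fin 5)) 0 = π 0 := by
    rw [Equiv.Perm.mul_apply]
    congr 1
  have e1 : (π * Equiv.swap 2 3 : Equiv.Perm (Fin 5)) 1 = π 1 := by
    rw [Equiv.Perm.mul_apply]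
    congr 1
  have e2 : (π * Equiv.swap 2 3 : Equiv.Perm (Fin 5)) 2 = π 3 := by
    rw [Equiv.Perm.mul_apply]
    congr 1
  rw [e0, e1, e2, a1, h2, h3] at a2
  have h4 : ∑ i, (D.lam i 0 - D.lam i 1) * (D.mu X i k - D.mu X i k') =
      ∑ i, (D.lam i 0 - D.lam i 1) * (D.mu X i (π 0) - D.mu X i k') -
        ∑ i, (D.lam i 0 - D.lam i 1) * (D.mu X i (π 0) - D.mu X i k) := by
    rw [← Finset.sum_sub_distrib]
    apply Finset.sum_congr rfl
    intro i _
    ring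
  rw [h4, a2, sub_self]

theorem indep_rat (D : FieldData K) (hI : S_INDEP) (hP : S_POS) (q : Fin 4 → ℚ)
    (h : ∑ i, (D.lam i 0 - D.lam i 1) * (q i : ℝ) = 0) : ∀ i, q i = 0 := by
  classical
  obtain ⟨d, hd⟩ : ∃ d : ℕ, d = ∏ i, (q i).den := ⟨_, rfl⟩
  have hd0 : d ≠ 0 := by
    rw [hd]
    exact Finset.prod_ne_zero_iff.2 fun i _ => (q i).den_ne_zero
  have hm : ∀ i, ∃ m : ℤ, (m : ℚ) = q i * d := by
    intro i
    have h1 : (q i).den ∣ d := by
      rw [hd]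
      exact Finset.dvd_prod_of_mem _ (Finset.mem_univ i)
    obtain ⟨c, hc⟩ := h1
    refine ⟨(q i).num * c, ?_⟩
    rw [hc]
    push_cast
    rw [← mul_assoc, Rat.mul_den_eq_num]
  choose m hm using hm
  have h1 : ∑ i, (D.lam i 0 - D.lam i 1) * (m i : ℝ) = 0 := by
    have h2 : ∀ i, (m i : ℝ) = (q i : ℝ) * d := by
      intro i
      exact_mod_cast congrArg (fun x : ℚ => (x : ℝ)) (hm i)
    simp only [h2]
    calc ∑ i, (D.lam i 0 - D.lam i 1) * ((q i : ℝ) * d) =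
        (∑ i, (D.lam i 0 - D.lam i 1) * (q i : ℝ)) * d := by
          rw [Finset.sum_mul]
          apply Finset.sum_congr rfl
          intro i _
          ring
      _ = 0 := by rw [h, zero_mul]
  have hm0 : m = 0 := by
    apply hI K D m
    have hr : ∀ (k : Fin 5) (j : Fin 4), k ≠ 3 → k ≠ 4 →
        D.β k + (nn j : ℂ) = ((Real.exp (D.lam j k) : ℝ) : ℂ) := by
      intro k j h3 h4
      obtain ⟨r, hr0, hr⟩ := hP K D k j h3 h4
      unfold FieldData.lam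
      rw [hr, Complex.norm_real, Real.norm_eq_abs, abs_of_pos hr0, Real.exp_log hr0]
    have hk : ∀ k : Fin 5, k ≠ 3 → k ≠ 4 → ∏ j, (D.β k + (nn j : ℂ)) ^ m j =
        ((Real.exp (∑ j, D.lam j k * (m j : ℝ)) : ℝ) : ℂ) := by
      intro k h3 h4
      rw [Real.exp_sum, Complex.ofReal_prod]
      apply Finset.prod_congr rfl
      intro j _
      rw [hr k j h3 h4, ← Complex.ofReal_zpow, ← Real.rpow_intCast, ← Real.exp_mul]
    rw [hk 0 (by decide) (by decide), hk 1 (by decide) (by decide)]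
    congr 2
    have h5 : ∑ i, (D.lam i 0 - D.lam i 1) * (m i : ℝ) =
        ∑ j, D.lam j 0 * (m j : ℝ) - ∑ j, D.lam j 1 * (m j : ℝ) := by
      rw [← Finset.sum_sub_distrib]
      apply Finset.sum_congr rfl
      intro i _
      ring
    linarith
  intro i
  have h3 := hm i
  rw [hm0] at h3
  simp only [Pi.zero_apply, Int.cast_zero] at h3
  have h4 : (d : ℚ) ≠ 0 := by exact_mod_cast hd0
  rcases mul_eq_zero.1 h3.symm with h5 | h5
  · exact h5
  · exact absurd h5 h4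

/-- There is no non-compact part. -/
theorem t_NONCOMPACT (hA : S_AUT) (hZ : S_ZERO) (hR : S_RAT) (hI : S_INDEP) (hP : S_POS) :
    S_NONCOMPACT := by
  intro K _ _ D N hN hR0 z hz
  by_contra hne
  obtain ⟨φ0, hφ0⟩ : ∃ φ0, z φ0 ≠ 0 := by
    by_contra hcon
    push Not at hcon
    exact hne (funext hcon)
  obtain ⟨ψ, hψ⟩ : ∃ ψ : Module.Dual ℚ ℝ, ψ (z φ0) ≠ 0 := by
    by_contra hcon
    push Not at hcon
    exact hφ0 ((Module.forall_dual_apply_eq_zero_iff ℚ (z φ0)).1 hcon)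
  set z'' : (K →+* ℂ) → ℝ := fun φ => ((ψ (z φ) : ℚ) : ℝ) with hz''
  have hmem : z'' ∈ Real0 K N := by
    refine ⟨fun φ => ?_, fun n hn => ?_⟩
    · simp only [hz'', hz.1 φ]
    · have h1 := hz.2 n hn
      have h2 : ∑ φ, (n φ : ℚ) * ψ (z φ) = 0 := by
        have h3 : ψ (∑ φ, (n φ : ℝ) * z φ) = 0 := by rw [h1, map_zero]
        rw [map_sum] at h3
        rw [← h3]
        apply Finset.sum_congr rfl
        intro φ _
        have h4 : (n φ : ℝ) * z φ = (n φ : ℤ) • z φ := by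
          rw [zsmul_eq_mul]
        rw [h4, map_zsmul, zsmul_eq_mul]
      simp only [hz'']
      exact_mod_cast congrArg (fun x : ℚ => (x : ℝ)) h2
  obtain ⟨X, -, hX⟩ := hR0 z'' hmem
  have hrat : ∀ p, ∃ q : ℚ, ev (D.mu X) p = q := by
    intro p
    obtain ⟨φ, rfl⟩ := perm_surj D p
    exact ⟨ψ (z φ), (hX φ).symm⟩
  have hq := hR (D.mu X) hrat
  have hconst : ∀ i k k', D.mu X i k = D.mu X i k' := by
    intro i k k'
    choose q hq using fun i => hq i k k'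
    have h1 := star_eq D hA hZ hN hR0 hmem X hX k k'
    simp only [hq] at h1
    have h2 := indep_rat D hI hP q h1 i
    have h3 := hq i
    rw [h2] at h3
    push_cast at h3
    linarith
  apply hψ
  have h4 := hX φ0
  have h5 : ev (D.mu X) (D.perm φ0) = 0 := by
    unfold ev
    apply Finset.sum_eq_zero
    intro i _
    rw [hconst i (D.perm φ0 i.castSucc) (D.perm φ0 (Fin.last 4)), sub_self]
  rw [h5] at h4
  have h6 : ((ψ (z φ0) : ℚ) : ℝ) = 0 := h4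
  exact_mod_cast h6

end Pool.Agent.W991.CL
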