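import Mathlib
import Pool.Agent.W376.RT.Stm

/-! RT-A3: slabs through the origin contain few lattice points of the ball. -/

namespace Pool.Agent.W991.RTSlab

open Pool.Agent.W376.RT

set_option autoImplicit false

theorem finite_ball (h : ℕ) (R : ℝ) : {x : Fin h → ℤ | (ns x : ℝ) ≤ R ^ 2}.Finite := by
  refine (Set.finite_Icc (fun _ : Fin h => -⌈|R|⌉) (fun _ => ⌈|R|⌉)).subset ?_
  intro x hx
  have hx' : (ns x : ℝ) ≤ R ^ 2 := hx
  have key : ∀ i, |(x i : ℝ)| ≤ |R| := by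
    intro i
    rw [← sq_le_sq]
    refine le_trans ?_ hx'
    unfold ns
    push_cast
    exact Finset.single_le_sum (f := fun i => (x i : ℝ) ^ 2) (fun i _ => sq_nonneg _)
      (Finset.mem_univ i)
  have key2 : ∀ i, |x i| ≤ ⌈|R|⌉ := by
    intro i
    have h1 : (|x i| : ℝ) ≤ (⌈|R|⌉ : ℝ) := by
      have := (key i).trans (Int.le_ceil |R|)
      exact_mod_cast this
    exact_mod_cast h1
  exact ⟨fun i => (abs_le.mp (key2 i)).1, fun i => (abs_le.mp (key2 i)).2⟩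

theorem main : S_SLAB := by
  classical
  intro h J s hh hJ hs
  refine ⟨4 * h ^ 3, fun R hR x hx1 hx2 => ?_⟩
  have hhr : (1 : ℝ) ≤ (h : ℝ) := by exact_mod_cast hh
  have hJr : (1 : ℝ) ≤ (J : ℝ) := by exact_mod_cast hJ
  have hRr : 4 * (h : ℝ) ^ 3 ≤ (R : ℝ) := by exact_mod_cast hR
  have hR1 : (0 : ℝ) < R := lt_of_lt_of_le (by positivity) hRr
  have hsq : √(h : ℝ) ≤ h := by
    rw [Real.sqrt_le_left (by positivity)]
    nlinarith
  have hsq0 : 0 ≤ √(h : ℝ) := Real.sqrt_nonneg _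
  have hsq2 : √(h : ℝ) ^ 2 = h := Real.sq_sqrt (by positivity)
  have hs2 : 1 ≤ s ^ 2 := by nlinarith
  set lam : ℝ := 4 * s ^ 2 / h with hlam
  have hlam0 : 0 < lam := by positivity
  set Q : ℝ := s ^ 2 * (R : ℝ) ^ 2 / h with hQ
  set w : Fin h → ℤ := fun i => ⌊lam * x i⌋ with hw
  set e : Fin h → ℝ := fun i => (w i : ℝ) - lam * x i with he
  have he1 : ∀ i, e i ^ 2 ≤ 1 := by
    intro i
    have h1 := Int.floor_le (lam * x i)
    have h2 := Int.lt_floor_add_one (lam * x i)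
    have h3 : -1 ≤ e i := by simp only [he, hw]; linarith
    have h4 : e i ≤ 1 := by simp only [he, hw]; linarith
    nlinarith
  have hesum : ∑ i, e i ^ 2 ≤ h := by
    calc ∑ i, e i ^ 2 ≤ ∑ _i : Fin h, (1 : ℝ) := Finset.sum_le_sum fun i _ => he1 i
      _ = h := by simp
  have hns : ∀ v : Fin h → ℤ, (ns v : ℝ) = ∑ i, (v i : ℝ) ^ 2 := by
    intro v; unfold ns; push_cast; rfl
  have hip : ∀ u v : Fin h → ℤ, (ip u v : ℝ) = ∑ i, (u i : ℝ) * (v i : ℝ) := by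
    intro u v; unfold ip; push_cast; rfl
  -- Cauchy-Schwarz with `e`
  have hcs : ∀ v : Fin h → ℤ, (ns v : ℝ) ≤ (R : ℝ) ^ 2 → |∑ i, (v i : ℝ) * e i| ≤ R * √(h : ℝ) := by
    intro v hv
    apply abs_le_of_sq_le_sq _ (by positivity)
    calc (∑ i, (v i : ℝ) * e i) ^ 2 ≤ (∑ i, (v i : ℝ) ^ 2) * ∑ i, e i ^ 2 :=
          Finset.sum_mul_sq_le_sq_mul_sq _ _ _
      _ ≤ (R : ℝ) ^ 2 * h := by
          rw [← hns]
          exact mul_le_mul hv hesum (Finset.sum_nonneg fun i _ => sq_nonneg _) (by positivity)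
      _ = (R * √(h : ℝ)) ^ 2 := by rw [mul_pow, hsq2]
  have hipw : ∀ v : Fin h → ℤ, (ip v w : ℝ) = lam * (ip x v : ℝ) + ∑ i, (v i : ℝ) * e i := by
    intro v
    rw [hip, hip, Finset.mul_sum, ← Finset.sum_add_distrib]
    refine Finset.sum_congr rfl fun i _ => ?_
    simp only [he]; ring
  have hipxx : (ip x x : ℝ) = ns x := by
    rw [hip, hns]; exact Finset.sum_congr rfl fun i _ => by ring
  -- the inner product with `w`
  have hQR : R * √(h : ℝ) ≤ Q / 2 := by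
    rw [hQ, div_div, le_div_iff₀ (by positivity)]
    have h1 : 2 * (h : ℝ) * √(h : ℝ) ≤ R := by
      calc 2 * (h : ℝ) * √(h : ℝ) ≤ 2 * h * h := by gcongr
        _ ≤ 4 * (h : ℝ) ^ 3 := by nlinarith [pow_pos (lt_of_lt_of_le one_pos hhr) 2]
        _ ≤ R := hRr
    nlinarith [mul_pos hR1 hR1]
  have hxw : Q / 2 ≤ (ip x w : ℝ) := by
    rw [hipw x, hipxx]
    have h1 := (abs_le.mp (hcs x hx2)).1
    have h2 : Q ≤ lam * (ns x : ℝ) := by
      rw [hQ, hlam, div_mul_eq_mul_div, div_le_div_iff_of_pos_right (by positivity)]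
      nlinarith
    linarith
  -- the norm of `w`
  have hnw : (ns w : ℝ) ≤ 32 * s ^ 4 * (R : ℝ) ^ 2 / (h : ℝ) ^ 2 + 2 * h := by
    have h1 : (ns w : ℝ) ≤ 2 * lam ^ 2 * ns x + 2 * ∑ i, e i ^ 2 := by
      rw [hns, hns, Finset.mul_sum, Finset.mul_sum, ← Finset.sum_add_distrib]
      refine Finset.sum_le_sum fun i _ => ?_
      have : (w i : ℝ) = lam * x i + e i := by simp only [he]; ring
      rw [this]
      nlinarith [sq_nonneg (lam * x i - e i)]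
    have h2 : 2 * lam ^ 2 * (ns x : ℝ) ≤ 2 * lam ^ 2 * (R : ℝ) ^ 2 := by gcongr
    have h3 : 2 * lam ^ 2 * (R : ℝ) ^ 2 = 32 * s ^ 4 * (R : ℝ) ^ 2 / (h : ℝ) ^ 2 := by
      rw [hlam]; field_simp; ring
    linarith
  set S : Set (Fin h → ℤ) := {y : Fin h → ℤ | (ns y : ℝ) ≤ (R : ℝ) ^ 2 ∧
    4 * |(ip x y : ℝ)| < s ^ 2 * (R : ℝ) ^ 2 / h} with hS
  have hSfin : S.Finite := (finite_ball h R).subset fun y hy => hy.1
  set R' : ℝ := (1 + 30 * (J : ℝ) ^ 2 * s ^ 4 / (h : ℝ) ^ 2) * R with hR'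
  have hTfin := finite_ball h R'
  unfold cnt
  rw [Set.ncard_eq_toFinset_card _ hSfin, Set.ncard_eq_toFinset_card _ hTfin]
  have e1 : J * hSfin.toFinset.card = (Finset.range J ×ˢ hSfin.toFinset).card := by
    rw [Finset.card_product, Finset.card_range]
  rw [e1]
  apply Finset.card_le_card_of_injOn (fun p : ℕ × (Fin h → ℤ) => p.2 + (p.1 : ℤ) • w)
  · rintro ⟨j, y⟩ hp
    rw [Finset.mem_coe, Finset.mem_product, Finset.mem_range, Set.Finite.mem_toFinset] at hp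
    obtain ⟨hj, hy1, hy2⟩ := hp
    simp only at hj hy1 hy2
    rw [Finset.mem_coe, Set.Finite.mem_toFinset]
    show (ns (y + (j : ℤ) • w) : ℝ) ≤ R' ^ 2
    have hjr : (j : ℝ) ≤ J := by exact_mod_cast hj.le
    have hj0 : (0 : ℝ) ≤ j := Nat.cast_nonneg j
    have h1 : (ns (y + (j : ℤ) • w) : ℝ) = ns y + 2 * j * (ip y w : ℝ) + (j : ℝ) ^ 2 * ns w := by
      rw [hns, hns, hns, hip, Finset.mul_sum, Finset.mul_sum, ← Finset.sum_add_distrib,
        ← Finset.sum_add_distrib]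
      refine Finset.sum_congr rfl fun i _ => ?_
      simp only [Pi.add_apply, Pi.smul_apply, smul_eq_mul]
      push_cast; ring
    have h2 : (ip y w : ℝ) ≤ s ^ 4 * (R : ℝ) ^ 2 / (h : ℝ) ^ 2 + R * √(h : ℝ) := by
      rw [hipw y]
      have h3 := (abs_le.mp (hcs y hy1)).2
      have h4 : lam * (ip x y : ℝ) ≤ lam * (Q / 4) := by
        apply mul_le_mul_of_nonneg_left _ hlam0.le
        have := le_abs_self (ip x y : ℝ)
        linarith
      have h5 : lam * (Q / 4) = s ^ 4 * (R : ℝ) ^ 2 / (h : ℝ) ^ 2 := by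
        rw [hlam, hQ]; field_simp
      linarith
    set c : ℝ := (J : ℝ) ^ 2 * s ^ 4 / (h : ℝ) ^ 2 with hc
    have hc0 : 0 < c := by positivity
    have hs4 : 1 ≤ s ^ 4 := by nlinarith
    have h6 : 2 * (j : ℝ) * (ip y w : ℝ) ≤ 2 * c * (R : ℝ) ^ 2 + 2 * J * (R * √(h : ℝ)) := by
      have h7 : 2 * (j : ℝ) * (ip y w : ℝ) ≤
          2 * J * (s ^ 4 * (R : ℝ) ^ 2 / (h : ℝ) ^ 2 + R * √(h : ℝ)) := by
        have h8 : 0 ≤ s ^ 4 * (R : ℝ) ^ 2 / (h : ℝ) ^ 2 + R * √(h : ℝ) := by positivity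
        calc 2 * (j : ℝ) * (ip y w : ℝ) ≤ 2 * j * (s ^ 4 * (R : ℝ) ^ 2 / (h : ℝ) ^ 2 + R * √(h : ℝ)) := by
              gcongr
          _ ≤ _ := by gcongr
      have h9 : 2 * J * (s ^ 4 * (R : ℝ) ^ 2 / (h : ℝ) ^ 2) ≤ 2 * c * (R : ℝ) ^ 2 := by
        have : 2 * c * (R : ℝ) ^ 2 = 2 * (J : ℝ) ^ 2 * (s ^ 4 * (R : ℝ) ^ 2 / (h : ℝ) ^ 2) := by
          rw [hc]; ring
        rw [this]
        have h10 : 0 ≤ s ^ 4 * (R : ℝ) ^ 2 / (h : ℝ) ^ 2 := by positivity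
        apply mul_le_mul_of_nonneg_right _ h10
        nlinarith
      linarith
    have h11 : (j : ℝ) ^ 2 * (ns w : ℝ) ≤ 32 * c * (R : ℝ) ^ 2 + 2 * (J : ℝ) ^ 2 * h := by
      have h12 : (j : ℝ) ^ 2 * (ns w : ℝ) ≤ (J : ℝ) ^ 2 * (32 * s ^ 4 * (R : ℝ) ^ 2 / (h : ℝ) ^ 2 + 2 * h) := by
        have h13 : (0 : ℝ) ≤ ns w := by rw [hns]; exact Finset.sum_nonneg fun i _ => sq_nonneg _
        calc (j : ℝ) ^ 2 * (ns w : ℝ) ≤ (J : ℝ) ^ 2 * (ns w : ℝ) := by gcongr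
          _ ≤ _ := by gcongr
      have h14 : (J : ℝ) ^ 2 * (32 * s ^ 4 * (R : ℝ) ^ 2 / (h : ℝ) ^ 2 + 2 * h) =
          32 * c * (R : ℝ) ^ 2 + 2 * (J : ℝ) ^ 2 * h := by
        rw [hc]; ring
      linarith
    have h15 : R' ^ 2 = (1 + 30 * c) ^ 2 * (R : ℝ) ^ 2 := by
      rw [hR', hc]; ring
    have h16 : (J : ℝ) ^ 2 / (h : ℝ) ^ 2 ≤ c := by
      rw [hc, div_le_div_iff_of_pos_right (by positivity)]
      have : (0 : ℝ) < (J : ℝ) ^ 2 := by positivity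
      nlinarith
    -- the error terms
    have h17 : 2 * J * (R * √(h : ℝ)) ≤ 13 * c * (R : ℝ) ^ 2 := by
      have h18 : 2 * J * (R * √(h : ℝ)) ≤ 2 * (J : ℝ) ^ 2 * (R * h) := by
        have : (J : ℝ) ≤ (J : ℝ) ^ 2 := by nlinarith
        have h19 : R * √(h : ℝ) ≤ R * h := by gcongr
        calc 2 * J * (R * √(h : ℝ)) ≤ 2 * (J : ℝ) ^ 2 * (R * √(h : ℝ)) := by gcongr
          _ ≤ _ := by gcongr
      have h20 : 2 * (J : ℝ) ^ 2 * (R * h) ≤ 13 * ((J : ℝ) ^ 2 / (h : ℝ) ^ 2) * (R : ℝ) ^ 2 := by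
        rw [mul_div_assoc', div_mul_eq_mul_div, le_div_iff₀ (by positivity)]
        have h21 : 2 * (h : ℝ) ^ 3 ≤ 13 * R := by nlinarith [pow_pos (lt_of_lt_of_le one_pos hhr) 3]
        calc 2 * (J : ℝ) ^ 2 * (R * h) * (h : ℝ) ^ 2 = (J : ℝ) ^ 2 * R * (2 * (h : ℝ) ^ 3) := by ring
          _ ≤ (J : ℝ) ^ 2 * R * (13 * R) := by gcongr
          _ = 13 * (J : ℝ) ^ 2 * (R : ℝ) ^ 2 := by ring
      have h22 : 13 * ((J : ℝ) ^ 2 / (h : ℝ) ^ 2) * (R : ℝ) ^ 2 ≤ 13 * c * (R : ℝ) ^ 2 := by gcongr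
      linarith
    have h23 : 2 * (J : ℝ) ^ 2 * h ≤ 13 * c * (R : ℝ) ^ 2 := by
      have h24 : 2 * (J : ℝ) ^ 2 * h ≤ 13 * ((J : ℝ) ^ 2 / (h : ℝ) ^ 2) * (R : ℝ) ^ 2 := by
        rw [mul_div_assoc', div_mul_eq_mul_div, le_div_iff₀ (by positivity)]
        have h25 : 2 * (h : ℝ) ^ 3 ≤ 13 * (R : ℝ) ^ 2 := by
          have h26 : (1 : ℝ) ≤ (h : ℝ) ^ 3 := one_le_pow₀ hhr
          nlinarith
        calc 2 * (J : ℝ) ^ 2 * h * (h : ℝ) ^ 2 = (J : ℝ) ^ 2 * (2 * (h : ℝ) ^ 3) := by ring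
          _ ≤ (J : ℝ) ^ 2 * (13 * (R : ℝ) ^ 2) := by gcongr
          _ = 13 * (J : ℝ) ^ 2 * (R : ℝ) ^ 2 := by ring
      have h22 : 13 * ((J : ℝ) ^ 2 / (h : ℝ) ^ 2) * (R : ℝ) ^ 2 ≤ 13 * c * (R : ℝ) ^ 2 := by gcongr
      linarith
    rw [h1, h15]
    have h27 : (1 + 30 * c) ^ 2 * (R : ℝ) ^ 2 ≥ (1 + 60 * c) * (R : ℝ) ^ 2 := by
      apply mul_le_mul_of_nonneg_right _ (by positivity)
      nlinarith [sq_nonneg c]
    nlinarith
  · rintro ⟨j, y⟩ hp ⟨j', y'⟩ hp' heq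
    rw [Finset.mem_coe, Finset.mem_product, Finset.mem_range, Set.Finite.mem_toFinset] at hp hp'
    obtain ⟨hj, hy1, hy2⟩ := hp
    obtain ⟨hj', hy1', hy2'⟩ := hp'
    simp only at hj hy1 hy2 hj' hy1' hy2' heq
    have hQpos : 0 < Q := by positivity
    have h1 : (ip x y : ℝ) + j * (ip x w : ℝ) = (ip x y' : ℝ) + j' * (ip x w : ℝ) := by
      have h2 : ∀ (k : ℕ) (z : Fin h → ℤ), (ip x (z + (k : ℤ) • w) : ℝ) = ip x z + k * (ip x w : ℝ) := by
        intro k z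
        rw [hip, hip, hip, Finset.mul_sum, ← Finset.sum_add_distrib]
        refine Finset.sum_congr rfl fun i _ => ?_
        simp only [Pi.add_apply, Pi.smul_apply, smul_eq_mul]
        push_cast; ring
      rw [← h2, ← h2, heq]
    have hjj : j = j' := by
      by_contra hne
      have h3 : (1 : ℝ) ≤ |(j : ℝ) - j'| := by
        have : (1 : ℤ) ≤ |(j : ℤ) - j'| := by
          apply Int.one_le_abs
          omega
        exact_mod_cast this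
      have h4 : |((j : ℝ) - j') * (ip x w : ℝ)| < Q / 2 := by
        have h5 : ((j : ℝ) - j') * (ip x w : ℝ) = ip x y' - ip x y := by linarith
        rw [h5]
        refine lt_of_le_of_lt (abs_sub _ _) ?_
        linarith
      rw [abs_mul, abs_of_pos (lt_of_lt_of_le (by positivity) hxw)] at h4
      have h6 : Q / 2 ≤ |(j : ℝ) - j'| * (ip x w : ℝ) := by
        calc Q / 2 ≤ (ip x w : ℝ) := hxw
          _ = 1 * (ip x w : ℝ) := (one_mul _).symm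
          _ ≤ _ := by
            apply mul_le_mul_of_nonneg_right h3
            exact le_trans (by positivity) hxw
      linarith
    subst hjj
    have : y = y' := by simpa using heq
    rw [this]

end Pool.Agent.W991.RTSlab
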